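import Pool.Agent.Y346.PA.H1c

set_option autoImplicit false

/-!
# Project PA: task H1
-/

namespace Pool.Agent.Y346.PA

open Finset Filter Topology
open Pool.Agent.H951R4.OD (ch PI Ex)
open Pool.Agent.W114.PQ (Dat Ax Pass EP wX datP)
open scoped Classical

theorem test_primes (mm : S_MM) (t Y : ℕ) (ht : 1 ≤ t) (hY : 2 ≤ Y) (η : ℝ) (hη : 0 < η) :
    ∃ Q : Finset ℕ, (∀ p ∈ Q, p.Prime ∧ Y < p ∧ p % 12 = 5 ∧ ¬ p ∣ t) ∧
      ∏ p ∈ Q, (1 - 1 / (4 * (p : ℝ))) ≤ η := by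
  obtain ⟨Cm, hCm, hmm⟩ := mm
  have hlogY : 0 < Real.log Y := Real.log_pos (by exact_mod_cast (by omega : 1 < Y))
  have htend : Tendsto (fun z : ℕ => Real.log (Real.log (z : ℝ) / Real.log Y)) atTop atTop :=
    Real.tendsto_log_atTop.comp (Tendsto.atTop_div_const hlogY
      (Real.tendsto_log_atTop.comp tendsto_natCast_atTop_atTop))
  obtain ⟨z, hz1, hz2⟩ := ((htend.eventually_ge_atTop
    (Cm + ∑ p ∈ t.primeFactors, 4 / (p : ℝ) - 16 * Real.log η)).and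
      (eventually_ge_atTop Y)).exists
  have h1 := (hmm Y z hY hz2).2.1
  set Q : Finset ℕ := ((PI Y z).filter (fun p => p % 12 = 5)).filter (fun p => ¬ p ∣ t) with hQ
  have hmem : ∀ p ∈ Q, p.Prime ∧ Y < p ∧ p % 12 = 5 ∧ ¬ p ∣ t := by
    intro p hp
    rw [hQ, mem_filter, mem_filter, PI, mem_filter, mem_Ioc] at hp
    exact ⟨hp.1.1.2, hp.1.1.1.1, hp.1.2, hp.2⟩
  refine ⟨Q, hmem, ?_⟩
  have h2 : ∑ p ∈ (PI Y z).filter (fun p => p % 12 = 5), 4 / (p : ℝ) ≤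
      ∑ p ∈ Q, 4 / (p : ℝ) + ∑ p ∈ t.primeFactors, 4 / (p : ℝ) := by
    refine le_trans (sum_le_sum_of_subset_of_nonneg ?_ fun _ _ _ => by positivity)
      (sum_union_le_aux _ _)
    intro p hp
    rw [mem_union]
    by_cases hpt : p ∣ t
    · right
      rw [mem_filter, PI, mem_filter] at hp
      exact Nat.mem_primeFactors.2 ⟨hp.1.2, hpt, by omega⟩
    · left
      rw [hQ, mem_filter]
      exact ⟨hp, hpt⟩
  have h3 : ∏ p ∈ Q, (1 - 1 / (4 * (p : ℝ))) ≤ Real.exp (-(1 / 16) * ∑ p ∈ Q, 4 / (p : ℝ)) := by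
    rw [mul_sum, Real.exp_sum]
    apply Finset.prod_le_prod
    · intro p hp
      have h4 : (2 : ℝ) ≤ p := by exact_mod_cast (hmem p hp).1.two_le
      have h5 : 1 / (4 * (p : ℝ)) ≤ 1 / (4 * 2) := by gcongr
      linarith
    · intro p hp
      have h6 := Real.add_one_le_exp (-(1 / 16) * (4 / (p : ℝ)))
      have h7 : 1 / (4 * (p : ℝ)) = 1 / 16 * (4 / p) := by
        have h4 : (0 : ℝ) < p := by exact_mod_cast (hmem p hp).1.pos
        field_simp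
        norm_num
      linarith
  refine le_trans h3 ?_
  rw [← Real.le_log_iff_exp_le hη]
  linarith

theorem small_A0 (t : ℕ) : Small (fun X => {n : ℕ | 1 ≤ n ∧ n ≤ X ∧ n ^ 2 ≤ t ^ 2 * X}) := by
  have h1 : Tendsto (fun X : ℕ => (t : ℝ) * (Real.log (X : ℝ) / (X : ℝ) ^ (1 / 2 : ℝ))) atTop
      (𝓝 0) := by
    have := (((isLittleO_log_rpow_atTop (by norm_num : (0 : ℝ) < 1 / 2)).tendsto_div_nhds_zero).comp
      tendsto_natCast_atTop_atTop).const_mul (t : ℝ)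
    rw [mul_zero] at this
    exact this
  refine squeeze_zero (fun X => ?_) (fun X => ?_) h1
  · have := Real.log_natCast_nonneg X
    positivity
  · rcases Nat.eq_zero_or_pos X with rfl | hX
    · simp
    have hX0 : (0 : ℝ) < X := by exact_mod_cast hX
    have h2 : ({n : ℕ | 1 ≤ n ∧ n ≤ X ∧ n ^ 2 ≤ t ^ 2 * X}).ncard ≤ Nat.sqrt (t ^ 2 * X) := by
      have h3 : {n : ℕ | 1 ≤ n ∧ n ≤ X ∧ n ^ 2 ≤ t ^ 2 * X} ⊆
          ((Icc 1 (Nat.sqrt (t ^ 2 * X)) : Finset ℕ) : Set ℕ) := by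
        rintro n ⟨h4, h5, h6⟩
        rw [mem_coe, mem_Icc, Nat.le_sqrt']
        exact ⟨h4, h6⟩
      have h4 := Set.ncard_le_ncard h3 (finite_toSet _)
      rw [Set.ncard_coe_finset, Nat.card_Icc] at h4
      simpa using h4
    have h5 : ((Nat.sqrt (t ^ 2 * X) : ℕ) : ℝ) ≤ t * (X : ℝ) ^ (1 / 2 : ℝ) := by
      rw [← Real.sqrt_eq_rpow]
      have h6 : ((Nat.sqrt (t ^ 2 * X) : ℕ) : ℝ) ≤ Real.sqrt ((t : ℝ) ^ 2 * X) := by
        apply Real.le_sqrt_of_sq_le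
        exact_mod_cast Nat.sqrt_le' (t ^ 2 * X)
      rwa [Real.sqrt_mul (by positivity), Real.sqrt_sq (by positivity)] at h6
    have h6 : (({n : ℕ | 1 ≤ n ∧ n ≤ X ∧ n ^ 2 ≤ t ^ 2 * X}).ncard : ℝ) ≤
        t * (X : ℝ) ^ (1 / 2 : ℝ) := le_trans (by exact_mod_cast h2) h5
    have h7 : (X : ℝ) = (X : ℝ) ^ (1 / 2 : ℝ) * (X : ℝ) ^ (1 / 2 : ℝ) := by
      rw [← Real.rpow_add hX0]
      norm_num
    have h8 : (0 : ℝ) < (X : ℝ) ^ (1 / 2 : ℝ) := by positivity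
    have hlog := Real.log_natCast_nonneg X
    calc _ ≤ (t * (X : ℝ) ^ (1 / 2 : ℝ)) * Real.log X / X := by gcongr
      _ = (t * (X : ℝ) ^ (1 / 2 : ℝ)) * Real.log X /
          ((X : ℝ) ^ (1 / 2 : ℝ) * (X : ℝ) ^ (1 / 2 : ℝ)) := by rw [← h7]
      _ = _ := by field_simp

theorem le_Asq (sh : S_SH) (ε : ℝ) (hε : 0 < ε) : ∃ Y : ℕ, ∀ Q : Finset ℕ,
    (∀ p ∈ Q, p.Prime ∧ Y < p) → LE (fun X => {n : ℕ | 1 ≤ n ∧ n ≤ X ∧
      (∀ q : ℕ, TT q n → 3 < q → X < q ^ 2) ∧ ∃ p ∈ Q, p ^ 2 ∣ n}) ε := by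
  obtain ⟨Cs, hCs, hsh⟩ := sh
  obtain ⟨X0, hX0⟩ := hsh 3 le_rfl
  have hl3 : 0 < Real.log 3 := Real.log_pos (by norm_num)
  obtain ⟨Y, hY⟩ := exists_nat_ge (2 * Cs * Real.log 3 / ε)
  refine ⟨Y, fun Q hQ => ?_⟩
  filter_upwards [eventually_ge_atTop X0, eventually_ge_atTop (Q.sup (fun p => p ^ 20)),
    eventually_ge_atTop 3] with X hX1 hX2 hX3
  have hX3r : (3 : ℝ) ≤ X := by exact_mod_cast hX3
  have hXr : (0 : ℝ) < X := by linarith
  have hlogX : 0 < Real.log X := Real.log_pos (by linarith)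
  set A : ℕ → Finset ℕ := fun p => (Icc 1 X).filter (fun n : ℕ => n ≡ 0 [MOD p ^ 2] ∧
    ∀ q : ℕ, TT q n → 3 < q → X < q ^ 2) with hA
  have h1 : {n : ℕ | 1 ≤ n ∧ n ≤ X ∧ (∀ q : ℕ, TT q n → 3 < q → X < q ^ 2) ∧ ∃ p ∈ Q, p ^ 2 ∣ n} ⊆
      ((Q.biUnion A : Finset ℕ) : Set ℕ) := by
    rintro n ⟨h1, h2, h3, p, hp, hpn⟩
    rw [mem_coe, mem_biUnion]
    refine ⟨p, hp, ?_⟩
    rw [hA]
    simp only
    rw [mem_filter, mem_Icc]
    exact ⟨⟨h1, h2⟩, (Nat.modEq_zero_iff_dvd).2 hpn, h3⟩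
  have h2 := Set.ncard_le_ncard h1 (finite_toSet _)
  rw [Set.ncard_coe_finset] at h2
  have h3 : ∀ p ∈ Q, ((A p).card : ℝ) ≤ Cs * Real.log 3 * X / Real.log X * ((p : ℝ) ^ 2)⁻¹ := by
    intro p hp
    have h4 := hX0 X p 2 0 hX1 (hQ p hp).1
      (le_trans (le_sup (f := fun p => p ^ 20) hp) hX2)
    refine le_trans ?_ (le_trans h4 (le_of_eq ?_))
    · rw [hA]
    · have hp0 : (0 : ℝ) < p := by exact_mod_cast (hQ p hp).1.pos
      push_cast
      field_simp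
  have h4 : ∑ p ∈ Q, ((p : ℝ) ^ 2)⁻¹ ≤ 2 / (Y + 1) := by
    have h5 : Q ⊆ Ioo Y (Q.sup id + 1) := by
      intro p hp
      rw [mem_Ioo]
      exact ⟨(hQ p hp).2, Nat.lt_succ_of_le (le_sup (f := id) hp)⟩
    exact le_trans (sum_le_sum_of_subset_of_nonneg h5 fun _ _ _ => by positivity)
      (sum_Ioo_inv_sq_le (α := ℝ) Y (Q.sup id + 1))
  have h5 : (({n : ℕ | 1 ≤ n ∧ n ≤ X ∧ (∀ q : ℕ, TT q n → 3 < q → X < q ^ 2) ∧
      ∃ p ∈ Q, p ^ 2 ∣ n}).ncard : ℝ) ≤ Cs * Real.log 3 * X / Real.log X * (2 / (Y + 1)) := by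
    calc _ ≤ ((Q.biUnion A).card : ℝ) := by exact_mod_cast h2
      _ ≤ ∑ p ∈ Q, ((A p).card : ℝ) := by exact_mod_cast card_biUnion_le
      _ ≤ ∑ p ∈ Q, Cs * Real.log 3 * X / Real.log X * ((p : ℝ) ^ 2)⁻¹ := sum_le_sum h3
      _ = Cs * Real.log 3 * X / Real.log X * ∑ p ∈ Q, ((p : ℝ) ^ 2)⁻¹ := by rw [mul_sum]
      _ ≤ _ := by gcongr
  calc _ ≤ (Cs * Real.log 3 * X / Real.log X * (2 / (Y + 1))) * Real.log X / X := by gcongr
    _ = 2 * Cs * Real.log 3 / (Y + 1) := by field_simp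
    _ ≤ ε := by
        rw [div_le_iff₀ (by positivity)]
        rw [div_le_iff₀ hε] at hY
        nlinarith

theorem not_hit1 (n t q : ℕ) (x : ℕ) (a b y r s a1 a2 : ℤ) (p : ℕ) (hp : p.Prime)
    (hpx : ¬ p ∣ x) (hpt : ¬ p ∣ t) (hpq : p ≠ q) (hq : q.Prime)
    (hv : n ^ 2 + n + 1 = t ^ 2 * q) (hdet : (x : ℤ) * s + y * r = 1)
    (hu : a1 * (x : ℤ) ^ 2 + a2 * y ^ 2 = 2 * n + 1 - 2 * (t * a))
    (hu' : a1 * r ^ 2 + a2 * s ^ 2 = 2 * n + 1 + 2 * (t * a))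
    (hB : a1 * x * r - a2 * y * s = 2 * (t * b))
    (htest : p % 12 = 5 → p ∣ n → ∀ ι t' : ZMod p, ι ^ 2 = -1 → t' ^ 2 * q = 1 →
      IsSquare (t' * (a + ι * b))) : ¬ hit1 a1 a2 x p y r := by
  have hyr : 1 - y * r = x * s := by linarith
  rintro (⟨h12, hdvd⟩ | ⟨h12, hf, hQT⟩)
  · have h2 : ((x : ℤ) ^ 2 * (a1 * (x : ℤ) ^ 2 + a2 * y ^ 2 + a1 * r ^ 2) +
          a2 * (1 - y * r) ^ 2) ^ 2 + 12 * x ^ 4 =
          ((2 ^ 4 * (x ^ 4 * (t ^ 2 * q)) : ℕ) : ℤ) := by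
      rw [← hv, hyr]
      have h3 : (x : ℤ) ^ 2 * (a1 * (x : ℤ) ^ 2 + a2 * y ^ 2 + a1 * r ^ 2) +
          a2 * (x * s) ^ 2 = x ^ 2 * (4 * n + 2) := by
        have h4 : (4 * n + 2 : ℤ) =
            (a1 * (x : ℤ) ^ 2 + a2 * y ^ 2) + (a1 * r ^ 2 + a2 * s ^ 2) := by linarith
        rw [h4]
        ring
      rw [h3]
      push_cast
      ring
    rw [h2, Int.natCast_dvd_natCast] at hdvd
    rcases hp.dvd_mul.1 hdvd with h | h
    · have h5 := (Nat.prime_dvd_prime_iff_eq hp Nat.prime_two).1 (hp.dvd_of_dvd_pow h)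
      omega
    · rcases hp.dvd_mul.1 h with h | h
      · exact hpx (hp.dvd_of_dvd_pow h)
      · rcases hp.dvd_mul.1 h with h | h
        · exact hpt (hp.dvd_of_dvd_pow h)
        · exact hpq ((Nat.prime_dvd_prime_iff_eq hp hq).1 h)
  · rw [QT, mem_filter] at hQT
    obtain ⟨-, hQ1, hQ2⟩ := hQT
    simp only at hQ1 hQ2
    have hx0 : (x : ZMod p) ≠ 0 := by
      rw [Ne, ZMod.natCast_eq_zero_iff]
      exact hpx
    have hs : (1 - (y : ZMod p) * r) / x = s := by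
      rw [div_eq_iff hx0]
      have h3 := congrArg (Int.cast : ℤ → ZMod p) hyr
      push_cast at h3
      rw [h3]
      ring
    rw [hs] at hQ1 hQ2
    have hu1 := congrArg (Int.cast : ℤ → ZMod p) hu
    have hu2 := congrArg (Int.cast : ℤ → ZMod p) hu'
    have hB1 := congrArg (Int.cast : ℤ → ZMod p) hB
    push_cast at hu1 hu2 hB1
    rw [hu1, hu2] at hQ1
    have h2ne : (2 : ZMod p) ≠ 0 := by
      intro h
      have h3 : ((2 : ℕ) : ZMod p) = 0 := by exact_mod_cast h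
      rw [ZMod.natCast_eq_zero_iff] at h3
      have h5 := (Nat.prime_dvd_prime_iff_eq hp Nat.prime_two).1 h3
      omega
    have h4ne : (4 : ZMod p) ≠ 0 := by
      have : (4 : ZMod p) = 2 * 2 := by norm_num
      rw [this]
      exact mul_ne_zero h2ne h2ne
    have hn0 : (n : ZMod p) = 0 := by
      have h3 : (4 : ZMod p) * n = 0 := by linear_combination hQ1
      rcases mul_eq_zero.1 h3 with h | h
      · exact absurd h h4ne
      · exact h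
    have hpn : p ∣ n := (ZMod.natCast_eq_zero_iff n p).1 hn0
    have htq : (t : ZMod p) ^ 2 * q = 1 := by
      have h3 := congrArg (Nat.cast : ℕ → ZMod p) hv
      push_cast at h3
      rw [← h3, hn0]
      ring
    have h6 := htest h12 hpn (iota p) t (iota_sq p hp (by omega)) htq
    apply hQ2
    rw [hu1, hu2, hB1]
    have h7 : (2 * (n : ZMod p) + 1 + 2 * (t * a) - (2 * n + 1 - 2 * (t * a))) / 4 +
        iota p * (2 * (t * b) / 2) = t * (a + iota p * b) := by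
      field_simp
      ring
    rw [h7]
    exact h6

theorem h1 (ks : S_KS) (th : S_TH) (qr : S_QR) (ld1 : S_LD1) (ld5 : S_LD5) (sx : S_SX)
    (mm : S_MM) (sh : S_SH) : S_H1 := by
  intro t ht
  apply small_of_LE
  intro ε hε
  obtain ⟨C, K, hC4, hK, hcount⟩ := h1_count ks ld1 ld5 sx mm t ht
  obtain ⟨Y, hY⟩ := le_Asq sh (ε / 4) (by positivity)
  obtain ⟨Q, hQ, hQprod⟩ := test_primes mm t (max C Y) ht (by omega) ((ε / (4 * K)) ^ 2)
    (by positivity)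
  have hA0 := (small_A0 t).le (show 0 < ε / 4 by positivity)
  have hAsq := hY Q (fun p hp => ⟨(hQ p hp).1, lt_of_le_of_lt (le_max_right _ _) (hQ p hp).2.1⟩)
  have hSx : ∀ a1 a2 : ℤ, ((a1 = 1 ∧ a2 = -3) ∨ (a1 = 3 ∧ a2 = -1)) →
      LE (fun X => Sx t C Q a1 a2 X) (ε / 4) := by
    intro a1 a2 ha
    obtain ⟨X0, hX0⟩ := hcount Q (fun p hp => ⟨(hQ p hp).1,
      lt_of_le_of_lt (le_max_left _ _) (hQ p hp).2.1, (hQ p hp).2.2⟩) a1 a2 ha
    filter_upwards [eventually_ge_atTop X0, eventually_ge_atTop 3] with X hX1 hX3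
    have hX3r : (3 : ℝ) ≤ X := by exact_mod_cast hX3
    have hXr : (0 : ℝ) < X := by linarith
    have hlogX : 0 < Real.log X := Real.log_pos (by linarith)
    have h1 := hX0 X hX1
    have h2 : Real.sqrt (∏ p ∈ Q, (1 - 1 / (4 * (p : ℝ)))) ≤ ε / (4 * K) := by
      rw [Real.sqrt_le_left (by positivity)]
      exact hQprod
    calc ((Sx t C Q a1 a2 X).ncard : ℝ) * Real.log X / X ≤
        (K * Real.sqrt (∏ p ∈ Q, (1 - 1 / (4 * (p : ℝ)))) * X / Real.log X) * Real.log X / X := by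
          gcongr
      _ = K * Real.sqrt (∏ p ∈ Q, (1 - 1 / (4 * (p : ℝ)))) := by field_simp
      _ ≤ K * (ε / (4 * K)) := by gcongr
      _ = ε / 4 := by field_simp
  have hall := hA0.union (hAsq.union ((hSx 1 (-3) (Or.inl ⟨rfl, rfl⟩)).union
    (hSx 3 (-1) (Or.inr ⟨rfl, rfl⟩))))
  have hsum : ε / 4 + (ε / 4 + (ε / 4 + ε / 4)) = ε := by ring
  rw [hsum] at hall
  refine hall.mono ?_ ?_
  · apply Sub.union (fun X n hn => ⟨hn.1, hn.2.1⟩)
    apply Sub.union (fun X n hn => ⟨hn.1, hn.2.1⟩)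
    exact Sub.union (fun X n hn => ⟨hn.1, hn.2.1⟩) (fun X n hn => ⟨hn.1, hn.2.1⟩)
  filter_upwards [eventually_ge_atTop 401] with X hX
  rintro n ⟨hn1, hnX, hpass, hn4, q, hTT, hv⟩
  obtain ⟨hq, hq3, hqv, hqv2⟩ := hTT
  by_cases hA : n ^ 2 ≤ t ^ 2 * X
  · exact Or.inl ⟨hn1, hnX, hA⟩
  right
  push Not at hA
  have hqX : X < q := by
    have h1 : t ^ 2 * X < t ^ 2 * q := by
      rw [← hv]
      omega
    exact lt_of_mul_lt_mul_left h1 (Nat.zero_le _)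
  have hTTq : ∀ q' : ℕ, TT q' n → q' = q := by
    rintro q' ⟨h1, h2, h3, h4⟩
    rw [hv] at h3 h4
    rcases h1.dvd_mul.1 h3 with h | h
    · exfalso
      apply h4
      exact (pow_dvd_pow_of_dvd (h1.dvd_of_dvd_pow h) 2).mul_right q
    · exact (Nat.prime_dvd_prime_iff_eq h1 hq).1 h
  by_cases hsq : ∃ p ∈ Q, p ^ 2 ∣ n
  · left
    refine ⟨hn1, hnX, ?_, hsq⟩
    intro q' hq' _
    rw [hTTq q' hq']
    nlinarith
  right
  push Not at hsq
  -- `q = 1 (mod 4)`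
  have hq4 : q % 4 = 1 := by
    have hv4 : (t ^ 2 * q) % 4 = 1 := by
      rw [← hv]
      have hn4' : n % 4 = 0 ∨ n % 4 = 3 := hn4
      rcases hn4' with h | h <;> simp [Nat.add_mod, Nat.pow_mod, h]
    have ht4 : t % 4 < 4 := Nat.mod_lt _ (by norm_num)
    have hq4 : q % 4 < 4 := Nat.mod_lt _ (by norm_num)
    rw [Nat.mul_mod, Nat.pow_mod] at hv4
    interval_cases h1 : t % 4 <;> interval_cases h2 : q % 4 <;> simp_all
  obtain ⟨a, b, hab, hbe, hqr⟩ := qr q hq hq4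
  have hnz : (1 : ℤ) ≤ n := by exact_mod_cast hn1
  have hvz : ((t : ℤ) * a) ^ 2 + (t * b) ^ 2 = (n : ℤ) ^ 2 + n + 1 := by
    have h1 : ((n ^ 2 + n + 1 : ℕ) : ℤ) = ((t ^ 2 * q : ℕ) : ℤ) := by rw [hv]
    push_cast at h1
    rw [h1, ← hab]
    ring
  obtain ⟨a1, a2, x, y, r, s, ha, hx, hdet, hu, hu', hB, hy, hx2, hr2⟩ :=
    th n (t * a) (t * b) hnz hvz
  obtain ⟨x', rfl⟩ := Int.eq_ofNat_of_zero_le hx.le
  have hx' : 1 ≤ x' := by exact_mod_cast hx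
  have hmem : n ∈ Sx t C Q a1 a2 X := by
    refine ⟨hn1, hnX, x', y, r, s, hx', hdet, by linarith, hy, hx2, hr2, ?_⟩
    intro p hp hCp hpC hpxt hpor
    have hpx1 : p ≤ x' := le_trans (Nat.le_self_pow (by omega) p) hpC
    have hpX : p < q := by
      have h1 : x' ^ 2 ≤ 400 * n := by exact_mod_cast hx2
      have h2 : x' < X := by
        by_contra hc
        push Not at hc
        nlinarith
      omega
    have hpx : ¬ p ∣ x' := fun h => hpxt (h.mul_right t)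
    have hpt : ¬ p ∣ t := fun h => hpxt (h.mul_left x')
    apply not_hit1 n t q x' a b y r s a1 a2 p hp hpx hpt hpX.ne hq hv hdet hu hu' hB
    intro h12 hpn ι t' hι ht'
    have hpQ : p ∈ Q := by
      rcases hpor with h | h
      · omega
      · exact h
    have hEx : Ex 6 n p := by
      refine ⟨hp, ?_, hpn, hsq p hpQ⟩
      intro h6
      have := Nat.le_of_dvd (by norm_num) h6
      have h5 : p = 5 := by omega
      subst h5
      norm_num at h6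
    refine hqr p hp (by omega) hpX.ne ?_ ι t' hι ht'
    intro j
    refine hpass.1 p q j hEx hq ?_ ⟨hqv, hqv2⟩
    intro h6
    have h7 : q ∣ 6 := h6
    have := Nat.le_of_dvd (by norm_num) h7
    omega
  rcases ha with ⟨rfl, rfl⟩ | ⟨rfl, rfl⟩
  · exact Or.inl hmem
  · exact Or.inr hmem

end Pool.Agent.Y346.PA
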