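import Pool.Agent.Y346.PA.H2a

set_option autoImplicit false

/-!
# Project PA: task H2
-/

namespace Pool.Agent.Y346.PA

open Finset Filter Topology
open scoped Classical

theorem card_pow_le (a b : ℝ) (ha : 1 ≤ a) (hab : a ≤ b) (N : ℕ) :
    (((range N).filter (fun k => a < 2 ^ (k + 1) ∧ (2 : ℝ) ^ k ≤ b)).card : ℝ) ≤
      Real.log (b / a) / Real.log 2 + 2 := by
  have hl2 : 0 < Real.log 2 := Real.log_pos (by norm_num)
  set u : ℝ := Real.log a / Real.log 2 with hu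
  set v : ℝ := Real.log b / Real.log 2 with hv
  have huv : u ≤ v := by
    rw [hu, hv]
    gcongr
  have h1 : ((range N).filter (fun k => a < 2 ^ (k + 1) ∧ (2 : ℝ) ^ k ≤ b)).card ≤
      (Ioc ⌊u - 1⌋ ⌊v⌋).card := by
    apply card_le_card_of_injOn (fun k : ℕ => (k : ℤ))
    · intro k hk
      rw [mem_coe, mem_filter] at hk
      obtain ⟨-, h1, h2⟩ := hk
      rw [mem_coe, mem_Ioc]
      have h3 : u < k + 1 := by
        rw [hu, div_lt_iff₀ hl2]
        have := Real.log_lt_log (by linarith) h1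
        rw [Real.log_pow] at this
        exact_mod_cast this
      have h4 : (k : ℝ) ≤ v := by
        rw [hv, le_div_iff₀ hl2]
        have := Real.log_le_log (by positivity) h2
        rw [Real.log_pow] at this
        exact_mod_cast this
      constructor
      · apply Int.floor_lt.2
        push_cast
        linarith
      · apply Int.le_floor.2
        exact_mod_cast h4
    · intro k _ k' _ h
      simpa using h
  have h2 : ((Ioc ⌊u - 1⌋ ⌊v⌋).card : ℝ) ≤ v - u + 2 := by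
    rw [Int.card_Ioc]
    have h3 : ((⌊v⌋ - ⌊u - 1⌋).toNat : ℤ) = ⌊v⌋ - ⌊u - 1⌋ := by
      apply Int.toNat_of_nonneg
      have : ⌊u - 1⌋ ≤ ⌊v⌋ := Int.floor_le_floor (by linarith)
      linarith
    have h4 : (((⌊v⌋ - ⌊u - 1⌋).toNat : ℤ) : ℝ) = ((⌊v⌋ - ⌊u - 1⌋ : ℤ) : ℝ) := by rw [h3]
    push_cast at h4
    rw [h4]
    have h5 := Int.floor_le v
    have h6 := Int.lt_floor_add_one (u - 1)
    linarith
  have h3 : Real.log (b / a) / Real.log 2 = v - u := by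
    rw [Real.log_div (by linarith) (by linarith), sub_div]
  rw [h3]
  have h4 : (((range N).filter (fun k => a < 2 ^ (k + 1) ∧ (2 : ℝ) ^ k ≤ b)).card : ℝ) ≤
      ((Ioc ⌊u - 1⌋ ⌊v⌋).card : ℝ) := by exact_mod_cast h1
  linarith

theorem h2 (ks : S_KS) (th : S_TH2) (ld : S_LD2) (sx : S_SX) (mm : S_MM) : S_H2 := by
  intro s hs
  obtain ⟨C, hC, M0, hblock⟩ := h2_block ks th ld sx mm s hs
  refine ⟨12 * C, by positivity, ?_⟩
  intro δ hδ hδ4
  have hlog : Tendsto (fun X : ℕ => Real.log (X : ℝ)) atTop atTop :=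
    Real.tendsto_log_atTop.comp tendsto_natCast_atTop_atTop
  filter_upwards [hlog.eventually_ge_atTop (3 / δ), eventually_ge_atTop 16,
    eventually_ge_atTop (M0 ^ 2)] with X hX1 hX2 hX3
  set L : ℝ := Real.log X with hL
  have hX16 : (16 : ℝ) ≤ X := by exact_mod_cast hX2
  have hX0 : (0 : ℝ) < X := by linarith
  have hL0 : 0 < L := Real.log_pos (by linarith)
  have hδL : 3 ≤ δ * L := by
    rw [div_le_iff₀ hδ] at hX1
    linarith
  set a : ℝ := (X : ℝ) ^ (1 - δ) with ha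
  have ha34 : 2 * (X : ℝ) ^ (1 / 2 : ℝ) ≤ a := by
    have h1 : (X : ℝ) ^ (3 / 4 : ℝ) ≤ a :=
      Real.rpow_le_rpow_of_exponent_le (by linarith) (by linarith)
    have h2 : (X : ℝ) ^ (3 / 4 : ℝ) = (X : ℝ) ^ (1 / 4 : ℝ) * (X : ℝ) ^ (1 / 2 : ℝ) := by
      rw [← Real.rpow_add hX0]
      norm_num
    have h3 : (2 : ℝ) ≤ (X : ℝ) ^ (1 / 4 : ℝ) := by
      have h4 : (16 : ℝ) ^ (1 / 4 : ℝ) ≤ (X : ℝ) ^ (1 / 4 : ℝ) := by gcongr
      have h5 : (16 : ℝ) ^ (1 / 4 : ℝ) = 2 := by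
        rw [show (16 : ℝ) = 2 ^ (4 : ℝ) by norm_num, ← Real.rpow_mul (by norm_num)]
        norm_num
      linarith
    rw [h2] at h1
    refine le_trans ?_ h1
    gcongr
  have hsq : (1 : ℝ) ≤ (X : ℝ) ^ (1 / 2 : ℝ) := Real.one_le_rpow (by linarith) (by norm_num)
  set K : Finset ℕ := (range (2 * X + 1)).filter (fun k => (a < 2 ^ (k + 1) ∧
    (2 : ℝ) ^ k ≤ 2 * X) ∧ (2 ^ k) ^ 2 ≤ 3 * X ^ 2) with hK
  set B : Set ℕ := {n : ℕ | 1 ≤ n ∧ n ≤ X ∧ ∃ q1 q2 : ℕ, q1.Prime ∧ q2.Prime ∧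
    (X : ℝ) ^ (1 - δ) < q1 ∧ q1 ≤ q2 ∧ n ^ 2 + n + 1 = s * (q1 * q2)} with hB
  have hsub : B ⊆ ⋃ k ∈ K, D2 s (2 ^ k) X := by
    rintro n ⟨hn1, hnX, q1, q2, hq1, hq2, haq, hqq, hv⟩
    have hq2' := hq1.two_le
    set k := Nat.log 2 (q1 - 1) with hk
    have h1 : 2 ^ k ≤ q1 - 1 := Nat.pow_log_le_self 2 (by omega)
    have h2 : q1 - 1 < 2 ^ (k + 1) := Nat.lt_pow_succ_log_self (by norm_num) _
    have h3 : q1 ^ 2 ≤ 3 * X ^ 2 := by
      have h4 : q1 ^ 2 ≤ s * (q1 * q2) := by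
        have h5 : q1 * q1 ≤ q1 * q2 := Nat.mul_le_mul_left _ hqq
        have h6 : 1 * (q1 * q2) ≤ s * (q1 * q2) := Nat.mul_le_mul_right _ hs
        nlinarith
      rw [← hv] at h4
      nlinarith
    have h3' : q1 ≤ 2 * X := by
      by_contra hc
      push Not at hc
      nlinarith
    have hkK : k ∈ K := by
      rw [hK, mem_filter, mem_range]
      have h5 : k < 2 ^ k := Nat.lt_two_pow_self
      refine ⟨by omega, ⟨?_, ?_⟩, ?_⟩
      · have h6 : q1 ≤ 2 ^ (k + 1) := by omega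
        have h7 : (q1 : ℝ) ≤ 2 ^ (k + 1) := by exact_mod_cast h6
        linarith
      · have h6 : 2 ^ k ≤ 2 * X := by omega
        exact_mod_cast h6
      · exact le_trans (Nat.pow_le_pow_left (by omega) 2) h3
    rw [Set.mem_iUnion₂]
    refine ⟨k, hkK, hn1, hnX, q1, q2, hq1, hq2, by omega, ?_, hqq, hv⟩
    rw [pow_succ] at h2
    omega
  have hKcard : (K.card : ℝ) ≤ 3 * (δ * L) := by
    have h1 : K.card ≤ ((range (2 * X + 1)).filter (fun k => a < 2 ^ (k + 1) ∧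
        (2 : ℝ) ^ k ≤ 2 * X)).card := by
      apply card_le_card
      intro k hk
      rw [hK, mem_filter] at hk
      rw [mem_filter]
      exact ⟨hk.1, hk.2.1⟩
    have h2 : a ≤ 2 * X := by
      have h3 : a ≤ (X : ℝ) ^ (1 : ℝ) :=
        Real.rpow_le_rpow_of_exponent_le (by linarith) (by linarith)
      rw [Real.rpow_one] at h3
      linarith
    have h3 := card_pow_le a (2 * X) (by linarith) h2 (2 * X + 1)
    have h4 : Real.log (2 * X / a) = Real.log 2 + δ * L := by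
      rw [Real.log_div (by positivity) (by linarith), Real.log_mul (by norm_num) hX0.ne',
        ha, Real.log_rpow hX0]
      ring
    rw [h4] at h3
    have hl2 : 0 < Real.log 2 := Real.log_pos (by norm_num)
    have hl2' : (1 : ℝ) / 2 < Real.log 2 := by
      have := Real.log_two_gt_d9
      linarith
    have h5 : (Real.log 2 + δ * L) / Real.log 2 = 1 + δ * L / Real.log 2 := by
      field_simp
    have h6 : δ * L / Real.log 2 ≤ 2 * (δ * L) := by
      rw [div_le_iff₀ hl2]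
      nlinarith
    have h7 : (K.card : ℝ) ≤ ((range (2 * X + 1)).filter (fun k => a < 2 ^ (k + 1) ∧
        (2 : ℝ) ^ k ≤ 2 * X)).card := by exact_mod_cast h1
    linarith
  have hD : ∀ k ∈ K, ((D2 s (2 ^ k) X).ncard : ℝ) ≤ 4 * C * X * L ^ (-(2 : ℝ)) := by
    intro k hk
    rw [hK, mem_filter] at hk
    obtain ⟨-, ⟨h1, h2⟩, h3⟩ := hk
    have h4 : (X : ℝ) ^ (1 / 2 : ℝ) ≤ (2 : ℝ) ^ k := by
      rw [pow_succ] at h1
      linarith
    have h5 : M0 ≤ 2 ^ k := by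
      have h6 : (M0 : ℝ) ≤ (X : ℝ) ^ (1 / 2 : ℝ) := by
        have h7 : ((M0 : ℝ) ^ 2) ≤ X := by exact_mod_cast hX3
        have h8 : ((M0 : ℝ) ^ 2) ^ (1 / 2 : ℝ) ≤ (X : ℝ) ^ (1 / 2 : ℝ) := by gcongr
        rw [← Real.sqrt_eq_rpow, Real.sqrt_sq (by positivity)] at h8
        exact h8
      have : (M0 : ℝ) ≤ 2 ^ k := by linarith
      exact_mod_cast this
    have h6 := hblock (2 ^ k) X h5 h3
    have h7 : L / 2 ≤ Real.log ((2 ^ k : ℕ) : ℝ) := by
      have h8 := Real.log_le_log (by positivity) h4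
      rw [Real.log_rpow hX0] at h8
      push_cast
      linarith
    have h8 : (Real.log ((2 ^ k : ℕ) : ℝ)) ^ (-(2 : ℝ)) ≤ 4 * L ^ (-(2 : ℝ)) := by
      have h9 : (Real.log ((2 ^ k : ℕ) : ℝ)) ^ (-(2 : ℝ)) ≤ (L / 2) ^ (-(2 : ℝ)) :=
        Real.rpow_le_rpow_of_nonpos (by positivity) h7 (by norm_num)
      have h10 : (L / 2) ^ (-(2 : ℝ)) = 4 * L ^ (-(2 : ℝ)) := by
        rw [Real.rpow_neg (by positivity), Real.rpow_neg hL0.le]
        norm_num
        rw [div_pow]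
        field_simp
        norm_num
      linarith
    calc ((D2 s (2 ^ k) X).ncard : ℝ) ≤ C * X * (Real.log ((2 ^ k : ℕ) : ℝ)) ^ (-(2 : ℝ)) := h6
      _ ≤ C * X * (4 * L ^ (-(2 : ℝ))) := by gcongr
      _ = _ := by ring
  have hfin : (⋃ k ∈ K, D2 s (2 ^ k) X).Finite := by
    apply (Set.finite_Icc 1 X).subset
    intro n hn
    rw [Set.mem_iUnion₂] at hn
    obtain ⟨k, _, hn⟩ := hn
    exact ⟨hn.1, hn.2.1⟩
  have hBcard : (B.ncard : ℝ) ≤ 12 * C * δ * X / L := by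
    have h1 : B.ncard ≤ ∑ k ∈ K, (D2 s (2 ^ k) X).ncard :=
      le_trans (Set.ncard_le_ncard hsub hfin) (Finset.set_ncard_biUnion_le _ _)
    calc (B.ncard : ℝ) ≤ ∑ k ∈ K, ((D2 s (2 ^ k) X).ncard : ℝ) := by exact_mod_cast h1
      _ ≤ ∑ k ∈ K, 4 * C * X * L ^ (-(2 : ℝ)) := sum_le_sum hD
      _ = K.card * (4 * C * X * L ^ (-(2 : ℝ))) := by rw [sum_const, nsmul_eq_mul]
      _ ≤ (3 * (δ * L)) * (4 * C * X * L ^ (-(2 : ℝ))) := by gcongr
      _ = 12 * C * δ * X / L := by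
        rw [Real.rpow_neg hL0.le]
        norm_num
        field_simp
        norm_num
  calc (B.ncard : ℝ) * L / X ≤ (12 * C * δ * X / L) * L / X := by gcongr
    _ = 12 * C * δ := by field_simp

end Pool.Agent.Y346.PA
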