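import Pool.Agent.W114.PQ.Stm

set_option autoImplicit false

/-!
# Project PA: orders of point-transitive planes, all residue classes

Goal: almost all orders of point-transitive projective planes are prime powers, including the case
`n = 0, 3 (mod 4)` which project PQ (`Pool.Agent.W114.PQ`) leaves open.  Every task is one `Prop`
below (`S_...`).
-/

namespace Pool.Agent.Y346.PA

open Finset Filter Topology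
open Pool.Agent.H951R4.OD (ch PI Ex)
open Pool.Agent.W114.PQ (Dat Ax Pass EP wX datP)
open scoped Classical

/-- the data of project PQ for planes, without the condition on the primes `3 mod 4` -/
noncomputable def datQ : Dat := { datP with β := 0 }

/-- `q > 3` is a prime which divides `n² + n + 1` exactly once -/
def TT (q n : ℕ) : Prop := q.Prime ∧ 3 < q ∧ q ∣ n ^ 2 + n + 1 ∧ ¬ q ^ 2 ∣ n ^ 2 + n + 1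

/-- the sets `A X` have `o(X / log X)` elements -/
def Small (A : ℕ → Set ℕ) : Prop :=
  Tendsto (fun X : ℕ => ((A X).ncard : ℝ) * Real.log X / X) atTop (𝓝 0)

/-- `exp ((log X)^(4/5))` -/
noncomputable def zX (X : ℕ) : ℕ := ⌊Real.exp ((Real.log X) ^ (4 / 5 : ℝ))⌋₊

/-! ## A. Kloosterman sums and the sieve on modular hyperbolas -/

/-- Task KL: points of the modular hyperbola `y r = 1 (mod x)` in a box and in residue classes. -/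
def S_KL : Prop := ∀ ε : ℝ, 0 < ε → ∃ C : ℝ, 1 ≤ C ∧ ∀ x D : ℕ, 1 ≤ x → 1 ≤ D → Nat.Coprime x D →
  ∀ a b a' b' y0 r0 : ℤ, a ≤ b → a' ≤ b' →
    |(((Ioc a b ×ˢ Ioc a' b').filter (fun t : ℤ × ℤ => t.1 ≡ y0 [ZMOD D] ∧ t.2 ≡ r0 [ZMOD D] ∧
        (x : ℤ) ∣ t.1 * t.2 - 1)).card : ℝ) -
      ((b : ℝ) - a) * ((b' : ℝ) - a') * x.totient / ((x : ℝ) ^ 2 * (D : ℝ) ^ 2)| ≤
    C * (x : ℝ) ^ ε * (Real.sqrt x + (((b : ℝ) - a) + ((b' : ℝ) - a')) / Real.sqrt x)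

/-- the density of the residue classes excluded modulo `p` -/
noncomputable def gg (hit : ℕ → ℤ → ℤ → Prop) (p : ℕ) : ℝ :=
  (((range p ×ˢ range p).filter (fun t : ℕ × ℕ => hit p t.1 t.2)).card : ℝ) / (p : ℝ) ^ 2

/-- Task KS: sharp upper bound sieve on a modular hyperbola. -/
def S_KS : Prop := ∀ κ : ℕ, ∃ C : ℕ, 1 ≤ C ∧ ∀ x R : ℕ, C ≤ x → x ≤ R →
  ∀ (P : Finset ℕ) (hit : ℕ → ℤ → ℤ → Prop),
    (∀ p ∈ P, p.Prime ∧ C < p ∧ p ^ C ≤ x ∧ ¬ p ∣ x) →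
    (∀ p ∈ P, ∀ y r k l : ℤ, hit p (y + p * k) (r + p * l) ↔ hit p y r) →
    (∀ p ∈ P, gg hit p ≤ κ / p) →
    (((Icc (-2 * (x : ℤ)) (2 * x) ×ˢ Icc (-(R : ℤ)) R).filter (fun t : ℤ × ℤ =>
        (x : ℤ) ∣ t.1 * t.2 - 1 ∧ ∀ p ∈ P, ¬ hit p t.1 t.2)).card : ℝ) ≤
      C * R * ∏ p ∈ P, (1 - gg hit p)

/-! ## B. Sharp sieve for `n² + n + 1` -/

/-- Task SH: integers in a residue class modulo a prime power for which `n² + n + 1` has no exact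
prime divisor in `(Y, √X]`. -/
def S_SH : Prop := ∃ C : ℝ, 1 ≤ C ∧ ∀ Y : ℕ, 3 ≤ Y → ∃ X0 : ℕ, ∀ X p e a : ℕ, X0 ≤ X → p.Prime →
  p ^ (10 * e) ≤ X →
  (((Icc 1 X).filter (fun n : ℕ => n ≡ a [MOD p ^ e] ∧ ∀ q : ℕ, TT q n → Y < q → X < q ^ 2)).card :
    ℝ) ≤ C * Real.log Y * X / ((p : ℝ) ^ e * Real.log X)

/-- Task SQ: values divisible by the square of a large prime. -/
def S_SQ : Prop := Small (fun X => {n : ℕ | 1 ≤ n ∧ n ≤ X ∧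
  ∃ q : ℕ, q.Prime ∧ X < q ^ 30 ∧ q ^ 2 ∣ n ^ 2 + n + 1})

/-- Task E: the small part of `n² + n + 1`. -/
def S_E : Prop := ∀ ε : ℝ, 0 < ε → ∃ S : ℕ, ∀ᶠ X : ℕ in atTop,
  (({n : ℕ | 1 ≤ n ∧ n ≤ X ∧ (∀ q : ℕ, TT q n → X < q ^ 2) ∧
    ¬ ∃ s m : ℕ, n ^ 2 + n + 1 = s * m ∧ s ≤ S ∧ Squarefree m ∧
      ∀ q : ℕ, q.Prime → q ∣ m → TT q n}.ncard : ℝ)) * Real.log X / X ≤ ε

/-! ## C. `n² + n + 1` almost a prime -/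

/-- Task H1b: a prime times a fixed nonsquare. -/
def S_H1b : Prop := ∀ s : ℕ, ¬ IsSquare s → Small (fun X => {n : ℕ | 1 ≤ n ∧ n ≤ X ∧
  Pass datQ n ∧ (n % 4 = 0 ∨ n % 4 = 3) ∧ ∃ q : ℕ, TT q n ∧ n ^ 2 + n + 1 = s * q})

/-- Task H1: a prime times a fixed square. -/
def S_H1 : Prop := ∀ t : ℕ, 1 ≤ t → Small (fun X => {n : ℕ | 1 ≤ n ∧ n ≤ X ∧
  Pass datQ n ∧ (n % 4 = 0 ∨ n % 4 = 3) ∧ ∃ q : ℕ, TT q n ∧ n ^ 2 + n + 1 = t ^ 2 * q})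

/-- Task H2: a fixed number times two primes of almost the same size. -/
def S_H2 : Prop := ∀ s : ℕ, 1 ≤ s → ∃ C : ℝ, 0 < C ∧ ∀ δ : ℝ, 0 < δ → δ ≤ 1 / 4 →
  ∀ᶠ X : ℕ in atTop, (({n : ℕ | 1 ≤ n ∧ n ≤ X ∧ ∃ q1 q2 : ℕ, q1.Prime ∧ q2.Prime ∧
    (X : ℝ) ^ (1 - δ) < q1 ∧ q1 ≤ q2 ∧ n ^ 2 + n + 1 = s * (q1 * q2)}.ncard : ℝ)) *
      Real.log X / X ≤ C * δ

/-! ## D. Arithmetic -/

/-- Task QR: a case of quartic reciprocity. -/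
def S_QR : Prop := ∀ q : ℕ, q.Prime → q % 4 = 1 → ∃ a b : ℤ, a ^ 2 + b ^ 2 = q ∧ Even b ∧
  ∀ p : ℕ, p.Prime → p % 4 = 1 → p ≠ q → (∀ j : ℕ, (p : ZMod q) ^ j ≠ -1) →
    ∀ ι t : ZMod p, ι ^ 2 = -1 → t ^ 2 * q = 1 → IsSquare (t * (a + ι * b))

/-- Task TH: parametrisation of `A² + B² = n² + n + 1`. -/
def S_TH : Prop := ∀ n A B : ℤ, 1 ≤ n → A ^ 2 + B ^ 2 = n ^ 2 + n + 1 →
  ∃ a1 a2 x y r s : ℤ, ((a1 = 1 ∧ a2 = -3) ∨ (a1 = 3 ∧ a2 = -1)) ∧ 0 < x ∧ x * s + y * r = 1 ∧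
    a1 * x ^ 2 + a2 * y ^ 2 = 2 * n + 1 - 2 * A ∧ a1 * r ^ 2 + a2 * s ^ 2 = 2 * n + 1 + 2 * A ∧
    a1 * x * r - a2 * y * s = 2 * B ∧ |y| ≤ 2 * x ∧ x ^ 2 ≤ 400 * n ∧ r ^ 2 ≤ 400 * n

/-- Task TH2: parametrisation of the factorisations of `n² + n + 1`. -/
def S_TH2 : Prop := ∀ n m1 m2 : ℤ, 1 ≤ n → 0 < m1 → m1 * m2 = n ^ 2 + n + 1 →
  ∃ x y r s : ℤ, 0 < x ∧ y * r - x * s = 1 ∧ x ^ 2 + x * y + y ^ 2 = m1 ∧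
    r ^ 2 + r * s + s ^ 2 = m2 ∧ n = x * r + x * s + y * s ∧ |y| ≤ 2 * x ∧ x ^ 2 ≤ 4 * m1 ∧
    r ^ 2 ≤ 4 * m2

/-- Task LD1: local densities for `A² + B² = n² + n + 1`, where `16 (n² + n + 1) = (u + u')² + 12`. -/
def S_LD1 : Prop := ∀ p : ℕ, ∀ [Fact p.Prime], p % 12 = 1 → ∀ a1 a2 : ℤ,
  ((a1 = 1 ∧ a2 = -3) ∨ (a1 = 3 ∧ a2 = -1)) → ∀ x : ZMod p, x ≠ 0 →
    4 * p ≤ ((univ : Finset (ZMod p × ZMod p)).filter (fun t =>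
      ((a1 * x ^ 2 + a2 * t.1 ^ 2) + (a1 * t.2 ^ 2 + a2 * ((1 - t.1 * t.2) / x) ^ 2)) ^ 2 + 12 =
        0)).card + 16 ∧
    ((univ : Finset (ZMod p × ZMod p)).filter (fun t =>
      ((a1 * x ^ 2 + a2 * t.1 ^ 2) + (a1 * t.2 ^ 2 + a2 * ((1 - t.1 * t.2) / x) ^ 2)) ^ 2 + 12 =
        0)).card ≤ 4 * p

/-- Task LD2: local densities for the factorisations of `n² + n + 1`. -/
def S_LD2 : Prop := ∀ p : ℕ, ∀ [Fact p.Prime], p % 3 = 1 → ∀ x : ZMod p, x ≠ 0 →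
    4 * p ≤ ((univ : Finset (ZMod p × ZMod p)).filter (fun t =>
      (x ^ 2 + x * t.1 + t.1 ^ 2) *
        (t.2 ^ 2 + t.2 * ((t.1 * t.2 - 1) / x) + ((t.1 * t.2 - 1) / x) ^ 2) = 0)).card + 16 ∧
    ((univ : Finset (ZMod p × ZMod p)).filter (fun t =>
      (x ^ 2 + x * t.1 + t.1 ^ 2) *
        (t.2 ^ 2 + t.2 * ((t.1 * t.2 - 1) / x) + ((t.1 * t.2 - 1) / x) ^ 2) = 0)).card ≤ 4 * p

/-- the classes excluded by the quartic test modulo `p`, for given `x` -/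
noncomputable def QT (p : ℕ) [Fact p.Prime] (a1 a2 : ℤ) (ι x : ZMod p) :
    Finset (ZMod p × ZMod p) :=
  univ.filter (fun t =>
    (a1 * x ^ 2 + a2 * t.1 ^ 2) + (a1 * t.2 ^ 2 + a2 * ((1 - t.1 * t.2) / x) ^ 2) = 2 ∧
    ¬ IsSquare (((a1 * t.2 ^ 2 + a2 * ((1 - t.1 * t.2) / x) ^ 2) -
      (a1 * x ^ 2 + a2 * t.1 ^ 2)) / 4 +
      ι * ((a1 * x * t.2 - a2 * t.1 * ((1 - t.1 * t.2) / x)) / 2)))

/-- Task LD5: the average density of the quartic test. -/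
def S_LD5 : Prop := ∀ p : ℕ, ∀ [Fact p.Prime], p % 12 = 5 → ∀ a1 a2 : ℤ,
  ((a1 = 1 ∧ a2 = -3) ∨ (a1 = 3 ∧ a2 = -1)) → ∀ ι : ZMod p, ι ^ 2 = -1 →
    (∀ x : ZMod p, x ≠ 0 → (QT p a1 a2 ι x).card ≤ 4 * p) ∧
    p ^ 2 ≤ 4 * ∑ x ∈ univ.erase (0 : ZMod p), (QT p a1 a2 ι x).card

/-! ## E. `n² + n + 1` with a smaller exact prime divisor -/

/-- Task R1: a small exact prime divisor. -/
def S_R1 : Prop := Small (fun X => {n : ℕ | 1 ≤ n ∧ n ≤ X ∧ Pass datQ n ∧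
  3 ≤ (EP 6 (wX X) n).card ∧ ∃ q : ℕ, TT q n ∧ q ≤ zX X})

/-- Task R2: the exact prime divisors are larger than `zX X`, one is at most `X^(1-δ)`. -/
def S_R2 : Prop := ∀ δ : ℝ, 0 < δ → δ < 1 → Small (fun X => {n : ℕ | 1 ≤ n ∧ n ≤ X ∧
  Pass datQ n ∧ (∃ q : ℕ, TT q n ∧ (q : ℝ) ≤ (X : ℝ) ^ (1 - δ)) ∧ ∀ q : ℕ, TT q n → zX X < q})

/-- Task R3: all exact prime divisors are larger than `X^(1-δ)`. -/
def S_R3 : Prop := ∀ ε : ℝ, 0 < ε → ∃ δ : ℝ, 0 < δ ∧ δ < 1 / 10 ∧ ∀ᶠ X : ℕ in atTop,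
  (({n : ℕ | 1 ≤ n ∧ n ≤ X ∧ Pass datQ n ∧ (n % 4 = 0 ∨ n % 4 = 3) ∧
    ∀ q : ℕ, TT q n → (X : ℝ) ^ (1 - δ) < q}.ncard : ℝ)) * Real.log X / X ≤ ε

/-- The main theorem. -/
def S_MAINQ : Prop := Small (fun X => {n : ℕ | 1 ≤ n ∧ n ≤ X ∧ Pass datQ n ∧
  (n % 4 = 0 ∨ n % 4 = 3) ∧ ¬ n.Prime})

/-! ## F. Averages -/

/-- Task SX: eighth moment of `x / φ(x)`. -/
def S_SX : Prop := ∃ C : ℝ, 0 < C ∧ ∀ T : ℕ,
  ∑ x ∈ Icc 1 T, ((x : ℝ) / x.totient) ^ 8 ≤ C * T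

/-- Task MM: Mertens sums for primes in residue classes modulo `12` and `3`. -/
def S_MM : Prop := ∃ C : ℝ, 0 < C ∧ ∀ y z : ℕ, 2 ≤ y → y ≤ z →
  Real.log (Real.log z / Real.log y) - C ≤
    ∑ p ∈ (PI y z).filter (fun p => p % 12 = 1), 4 / (p : ℝ) ∧
  Real.log (Real.log z / Real.log y) - C ≤
    ∑ p ∈ (PI y z).filter (fun p => p % 12 = 5), 4 / (p : ℝ) ∧
  2 * Real.log (Real.log z / Real.log y) - C ≤
    ∑ p ∈ (PI y z).filter (fun p => p % 3 = 1), 4 / (p : ℝ)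

end Pool.Agent.Y346.PA
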