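import Pool.Agent.Y346.PA.KLa
import Pool.Agent.Y346.PA.Stm
import Pool.Agent.TH43.LK.Box

/-!
# Project PA, task KL
-/

set_option autoImplicit false

namespace Pool.Agent.Y346.PA

open Finset Pool.Agent.H442R2.KF.TaskB Pool.Agent.W305.CY Pool.Agent.TH43.LK

theorem dvd_val_mul (q : ℕ) [NeZero q] (e : ℕ) (he : e ∣ q) (w : ZMod q) (u : (ZMod q)ˣ) :
    e ∣ (w * u).val ↔ e ∣ w.val := by
  have h1 : ∀ z : ZMod q, e ∣ z.val ↔ (ZMod.castHom he (ZMod e)) z = 0 := by
    intro z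
    rw [← ZMod.natCast_eq_zero_iff]
    conv_rhs => rw [← ZMod.natCast_zmod_val z]
    rw [map_natCast]
  rw [h1, h1, map_mul]
  have h2 : IsUnit (ZMod.castHom he (ZMod e) (u : ZMod q)) := u.isUnit.map _
  rw [h2.mul_left_eq_zero]

theorem sum_Gs_unit (q e S : ℕ) [NeZero q] (he : e ∣ q) (u : (ZMod q)ˣ) :
    ∑ w ∈ univ.filter (fun w : ZMod q => e ∣ w.val), Gs q S (w * u) ≤
      S + (q : ℝ) / e * (1 + Real.log q) := by
  refine le_trans (le_of_eq ?_) (Gs_sub' q e he S)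
  apply Finset.sum_equiv (Units.mulRight u)
  · intro w
    rw [mem_filter, mem_filter]
    simp only [mem_univ, true_and]
    exact (dvd_val_mul q e he w u).symm
  · intro w _
    rfl

theorem NA_bound : ∃ K : ℝ, 1 ≤ K ∧ ∀ (q : ℕ) [NeZero q] (u : (ZMod q)ˣ) (s₀ t₀ : ZMod q)
    (S T : ℕ), |(NA q u s₀ t₀ S T : ℝ) - q.totient * S * T / (q : ℝ) ^ 2| ≤
      K * 2 ^ q.primeFactors.card * q.divisors.card *
        ((1 + Real.log q) * ((S : ℝ) + T) / Real.sqrt q + (1 + Real.log q) ^ 2 * Real.sqrt q) := by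
  obtain ⟨K, hK1, hK⟩ := Kl_gcd
  refine ⟨K, hK1, ?_⟩
  intro q _ u s₀ t₀ S T
  have hq0 : 0 < q := Nat.pos_of_ne_zero (NeZero.ne q)
  have hq : (0 : ℝ) < q := by exact_mod_cast hq0
  have hq1 : (1 : ℝ) ≤ q := by exact_mod_cast hq0
  have hlog : 0 ≤ Real.log q := Real.log_nonneg hq1
  set l := 1 + Real.log q with hl
  have hl1 : 1 ≤ l := by linarith
  set M := K * 2 ^ q.primeFactors.card * Real.sqrt q with hM
  have hM0 : 0 ≤ M := by positivity
  have hsq : 0 < Real.sqrt q := Real.sqrt_pos.2 hq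
  have hss : Real.sqrt q * Real.sqrt q = q := Real.mul_self_sqrt hq.le
  have hS0 : (0 : ℝ) ≤ S := Nat.cast_nonneg _
  have hT0 : (0 : ℝ) ≤ T := Nat.cast_nonneg _
  have h1 : ∀ w h : ZMod q, ‖Kl q w h‖ ≤ M * WW q w h := by
    intro w h
    have h2 := hK q (w.val : ℤ) (h.val : ℤ)
    rw [Int.cast_natCast, Int.cast_natCast, ZMod.natCast_zmod_val, ZMod.natCast_zmod_val] at h2
    exact h2.trans (mul_le_mul_of_nonneg_left (sqrt_G_le q w h) hM0)
  have h2 := NA_sub q M hM0 h1 u s₀ t₀ S T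
  have h3 : ∑ w : ZMod q, ∑ h : ZMod q, M * WW q w h * (Gs q S (w * u) * Gs q T (h * u)) =
      ∑ e ∈ q.divisors, M * (Real.sqrt e *
        ((∑ w ∈ univ.filter (fun w : ZMod q => e ∣ w.val), Gs q S (w * u)) *
          (∑ h ∈ univ.filter (fun h : ZMod q => e ∣ h.val), Gs q T (h * u)))) := by
    have e1 : ∀ w h : ZMod q, M * WW q w h * (Gs q S (w * u) * Gs q T (h * u)) =
        ∑ e ∈ q.divisors, M * ((if (e ∣ w.val ∧ e ∣ h.val) then Real.sqrt e else 0) *
          (Gs q S (w * u) * Gs q T (h * u))) := by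
      intro w h
      rw [WW, mul_assoc, Finset.sum_mul, Finset.mul_sum]
    simp only [e1]
    calc ∑ w : ZMod q, ∑ h : ZMod q, ∑ e ∈ q.divisors,
          M * ((if (e ∣ w.val ∧ e ∣ h.val) then Real.sqrt e else 0) *
            (Gs q S (w * u) * Gs q T (h * u))) =
        ∑ w : ZMod q, ∑ e ∈ q.divisors, ∑ h : ZMod q,
          M * ((if (e ∣ w.val ∧ e ∣ h.val) then Real.sqrt e else 0) *
            (Gs q S (w * u) * Gs q T (h * u))) :=
          Finset.sum_congr rfl fun w _ => Finset.sum_comm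
      _ = ∑ e ∈ q.divisors, ∑ w : ZMod q, ∑ h : ZMod q,
          M * ((if (e ∣ w.val ∧ e ∣ h.val) then Real.sqrt e else 0) *
            (Gs q S (w * u) * Gs q T (h * u))) := Finset.sum_comm
      _ = _ := by
          refine Finset.sum_congr rfl fun e _ => ?_
          rw [Finset.sum_mul_sum, Finset.mul_sum, Finset.mul_sum, Finset.sum_filter]
          refine Finset.sum_congr rfl fun w _ => ?_
          rw [Finset.mul_sum, Finset.sum_filter, Finset.mul_sum]
          by_cases hw : e ∣ w.val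
          · rw [if_pos hw]
            refine Finset.sum_congr rfl fun h _ => ?_
            by_cases hh : e ∣ h.val
            · rw [if_pos ⟨hw, hh⟩, if_pos hh]
            · rw [if_neg (fun h => hh h.2), if_neg hh]
              ring
          · rw [if_neg hw]
            apply Finset.sum_eq_zero
            intro h _
            rw [if_neg (fun h => hw h.1)]
            ring
  have h4 : M * WW q 0 0 * ((S : ℝ) * T) = ∑ e ∈ q.divisors, M * (Real.sqrt e * (S * T)) := by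
    rw [WW, mul_assoc, Finset.sum_mul, Finset.mul_sum]
    refine Finset.sum_congr rfl fun e _ => ?_
    rw [if_pos]
    rw [ZMod.val_zero]
    exact ⟨dvd_zero _, dvd_zero _⟩
  rw [h3, h4, ← Finset.sum_sub_distrib] at h2
  have h5 : ∀ e ∈ q.divisors, M * (Real.sqrt e *
        ((∑ w ∈ univ.filter (fun w : ZMod q => e ∣ w.val), Gs q S (w * u)) *
          (∑ h ∈ univ.filter (fun h : ZMod q => e ∣ h.val), Gs q T (h * u)))) -
          M * (Real.sqrt e * (S * T)) ≤ M * (q * l * (S + T) + (q : ℝ) ^ 2 * l ^ 2) := by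
    intro e he
    have hed : e ∣ q := Nat.dvd_of_mem_divisors he
    have he0 : 0 < e := Nat.pos_of_mem_divisors he
    have he1 : (1 : ℝ) ≤ e := by exact_mod_cast he0
    have hse : Real.sqrt e ≤ e := by
      rw [Real.sqrt_le_left (by linarith)]
      nlinarith
    have hE := sum_Gs_unit q e S hed u
    have hE' := sum_Gs_unit q e T hed u
    rw [← hl] at hE hE'
    set E : ℝ := (q : ℝ) / e * l with hEd
    have hE0 : 0 ≤ E := by positivity
    have hA0 : 0 ≤ ∑ w ∈ univ.filter (fun w : ZMod q => e ∣ w.val), Gs q S (w * u) :=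
      sum_nonneg fun _ _ => Gs_nonneg _ _ _
    have hB0 : 0 ≤ ∑ h ∈ univ.filter (fun h : ZMod q => e ∣ h.val), Gs q T (h * u) :=
      sum_nonneg fun _ _ => Gs_nonneg _ _ _
    have h6 : (∑ w ∈ univ.filter (fun w : ZMod q => e ∣ w.val), Gs q S (w * u)) *
          (∑ h ∈ univ.filter (fun h : ZMod q => e ∣ h.val), Gs q T (h * u)) ≤
        (S + E) * (T + E) := mul_le_mul hE hE' hB0 (by positivity)
    have h7 : Real.sqrt e * E ≤ q * l := by
      rw [hEd]
      calc Real.sqrt e * ((q : ℝ) / e * l) = (Real.sqrt e / e) * (q * l) := by ring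
        _ ≤ 1 * (q * l) := by
          gcongr
          rw [div_le_one (by linarith)]
          exact hse
        _ = q * l := one_mul _
    have h8 : E ≤ q * l := by
      rw [hEd]
      gcongr
      exact div_le_self hq.le he1
    have h9 : Real.sqrt e * E ^ 2 ≤ (q : ℝ) ^ 2 * l ^ 2 := by
      calc Real.sqrt e * E ^ 2 = (Real.sqrt e * E) * E := by ring
        _ ≤ (q * l) * (q * l) := mul_le_mul h7 h8 hE0 (by positivity)
        _ = _ := by ring
    rw [← mul_sub, ← mul_sub]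
    apply mul_le_mul_of_nonneg_left _ hM0
    calc Real.sqrt e * ((∑ w ∈ univ.filter (fun w : ZMod q => e ∣ w.val), Gs q S (w * u)) *
          (∑ h ∈ univ.filter (fun h : ZMod q => e ∣ h.val), Gs q T (h * u)) - S * T)
        ≤ Real.sqrt e * ((S + E) * (T + E) - S * T) := by
          apply mul_le_mul_of_nonneg_left _ (Real.sqrt_nonneg _)
          linarith
      _ = (Real.sqrt e * E) * (S + T) + Real.sqrt e * E ^ 2 := by ring
      _ ≤ (q * l) * (S + T) + (q : ℝ) ^ 2 * l ^ 2 := by gcongr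
  have h6 := h2.trans (Finset.sum_le_sum h5)
  rw [Finset.sum_const, nsmul_eq_mul] at h6
  have h7 : |(NA q u s₀ t₀ S T : ℝ) - q.totient * S * T / (q : ℝ) ^ 2| =
      |(q : ℝ) ^ 2 * (NA q u s₀ t₀ S T : ℝ) - q.totient * S * T| / (q : ℝ) ^ 2 := by
    have h8 : (NA q u s₀ t₀ S T : ℝ) - q.totient * S * T / (q : ℝ) ^ 2 =
        ((q : ℝ) ^ 2 * (NA q u s₀ t₀ S T : ℝ) - q.totient * S * T) / (q : ℝ) ^ 2 := by
      field_simp
    rw [h8, abs_div, abs_of_pos (by positivity : (0 : ℝ) < (q : ℝ) ^ 2)]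
  rw [h7, div_le_iff₀ (by positivity)]
  refine h6.trans (le_of_eq ?_)
  rw [hM]
  have h9 : (q : ℝ) = Real.sqrt q * Real.sqrt q := hss.symm
  have h10 : (1 + Real.log q) * ((S : ℝ) + T) / Real.sqrt q * (q : ℝ) =
      l * (S + T) * Real.sqrt q := by
    rw [← hl]
    have : (q : ℝ) / Real.sqrt q = Real.sqrt q := by
      rw [div_eq_iff hsq.ne']
      exact h9
    calc l * ((S : ℝ) + T) / Real.sqrt q * (q : ℝ) = l * ((S : ℝ) + T) * (q / Real.sqrt q) := by
          ring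
      _ = _ := by rw [this]
  calc (q.divisors.card : ℝ) * (K * 2 ^ q.primeFactors.card * Real.sqrt q *
        (q * l * (S + T) + (q : ℝ) ^ 2 * l ^ 2)) =
      K * 2 ^ q.primeFactors.card * q.divisors.card *
        ((l * (S + T) * Real.sqrt q) * q + l ^ 2 * Real.sqrt q * (q : ℝ) ^ 2) := by ring
    _ = K * 2 ^ q.primeFactors.card * q.divisors.card *
        (((1 + Real.log q) * ((S : ℝ) + T) / Real.sqrt q * q) * q +
          l ^ 2 * Real.sqrt q * (q : ℝ) ^ 2) := by rw [h10]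
    _ = _ := by ring

/-- an arithmetic progression in an interval -/
theorem ap_interval (a b y0 : ℤ) (hab : a ≤ b) (D : ℕ) (hD : 1 ≤ D) : ∃ (y1 : ℤ) (S : ℕ),
    (∀ y : ℤ, (a < y ∧ y ≤ b ∧ y ≡ y0 [ZMOD D]) ↔ ∃ i : ℕ, i < S ∧ y = y1 + D * i) ∧
    |(S : ℝ) - ((b : ℝ) - a) / D| ≤ 1 := by
  have hDz : (0 : ℤ) < D := by exact_mod_cast hD
  have hDr : (0 : ℝ) < D := by exact_mod_cast hD
  set y1 : ℤ := a + 1 + (y0 - a - 1) % D with hy1
  have hm0 : 0 ≤ (y0 - a - 1) % (D : ℤ) := Int.emod_nonneg _ hDz.ne'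
  have hm1 : (y0 - a - 1) % (D : ℤ) < D := Int.emod_lt_of_pos _ hDz
  have hy1a : a + 1 ≤ y1 := by omega
  have hy1b : y1 ≤ a + D := by omega
  have hmod : y1 ≡ y0 [ZMOD D] := by
    have h1 : (y0 - a - 1) % (D : ℤ) ≡ y0 - a - 1 [ZMOD D] := Int.mod_modEq _ _
    have h2 := h1.add_left (a + 1)
    have h3 : a + 1 + (y0 - a - 1) = y0 := by ring
    rw [h3] at h2
    exact h2
  have hfl : -1 ≤ (b - y1) / (D : ℤ) := by
    rw [Int.le_ediv_iff_mul_le hDz]
    linarith
  set S : ℕ := ((b - y1) / (D : ℤ) + 1).toNat with hS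
  have hSz : (S : ℤ) = (b - y1) / (D : ℤ) + 1 := Int.toNat_of_nonneg (by linarith)
  refine ⟨y1, S, ?_, ?_⟩
  · intro y
    constructor
    · rintro ⟨h1, h2, h3⟩
      have h4 : (D : ℤ) ∣ y - y1 := (hmod.trans h3.symm).dvd
      obtain ⟨k, hk⟩ := h4
      have hk0 : 0 ≤ k := by
        by_contra hc
        push Not at hc
        have : (D : ℤ) * k ≤ D * (-1) := by
          apply mul_le_mul_of_nonneg_left _ hDz.le
          omega
        linarith
      obtain ⟨i, rfl⟩ := Int.eq_ofNat_of_zero_le hk0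
      refine ⟨i, ?_, by linarith⟩
      have h5 : (i : ℤ) ≤ (b - y1) / (D : ℤ) := by
        rw [Int.le_ediv_iff_mul_le hDz]
        linarith
      have h6 : (i : ℤ) < S := by
        rw [hSz]
        linarith
      exact_mod_cast h6
    · rintro ⟨i, hi, rfl⟩
      have hi0 : (0 : ℤ) ≤ D * i := by positivity
      refine ⟨by linarith, ?_, ?_⟩
      · have h5 : (i : ℤ) ≤ (b - y1) / (D : ℤ) := by
          have : (i : ℤ) < S := by exact_mod_cast hi
          rw [hSz] at this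
          linarith
        rw [Int.le_ediv_iff_mul_le hDz] at h5
        linarith
      · have h6 : y1 + D * (i : ℤ) ≡ y1 [ZMOD D] := by
          rw [Int.modEq_iff_dvd]
          exact ⟨-i, by ring⟩
        exact h6.trans hmod
  · have h1 : (S : ℝ) = (((b - y1) / (D : ℤ) : ℤ) : ℝ) + 1 := by
      have : ((S : ℤ) : ℝ) = (((b - y1) / (D : ℤ) + 1 : ℤ) : ℝ) := by rw [hSz]
      push_cast at this
      exact this
    have h2 : (((b - y1) / (D : ℤ) : ℤ) : ℝ) * D ≤ (b : ℝ) - y1 := by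
      have : (b - y1) / (D : ℤ) * D ≤ b - y1 := Int.ediv_mul_le _ hDz.ne'
      exact_mod_cast this
    have h3 : (b : ℝ) - y1 < ((((b - y1) / (D : ℤ) : ℤ) : ℝ) + 1) * D := by
      have : b - y1 < ((b - y1) / (D : ℤ) + 1) * D := Int.lt_ediv_add_one_mul_self _ hDz
      exact_mod_cast this
    have h4 : (a : ℝ) + 1 ≤ y1 := by exact_mod_cast hy1a
    have h5 : (y1 : ℝ) ≤ a + D := by exact_mod_cast hy1b
    rw [h1, abs_le]
    constructor
    · rw [neg_le_sub_iff_le_add, div_le_iff₀ hDr]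
      linarith
    · rw [sub_le_iff_le_add, ← sub_le_iff_le_add', add_sub_cancel_right, le_div_iff₀ hDr]
      linarith

theorem kl : S_KL := by
  classical
  intro ε hε
  obtain ⟨K, hK1, hK⟩ := NA_bound
  obtain ⟨Cd, hCd, hdiv⟩ := Pool.Agent.Helper112.divisor_bound (ε / 4) (by positivity)
  set E : ℝ := 1 + 1 / (ε / 4) with hE
  have hE1 : 1 ≤ E := by
    rw [hE]
    have : 0 < 1 / (ε / 4) := by positivity
    linarith
  set C : ℝ := K * (Cd ^ 2) * E ^ 2 * 3 + 2 with hC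
  refine ⟨C, by rw [hC]; have : 0 ≤ K * (Cd ^ 2) * E ^ 2 * 3 := by positivity
                linarith, ?_⟩
  intro x D hx hD hcop a b a' b' y0 r0 hab hab'
  have : NeZero x := ⟨by omega⟩
  have hx0 : (0 : ℝ) < x := by exact_mod_cast hx
  have hx1 : (1 : ℝ) ≤ x := by exact_mod_cast hx
  have hDr : (0 : ℝ) < D := by exact_mod_cast hD
  have hD1 : (1 : ℝ) ≤ D := by exact_mod_cast hD
  have hsx : 1 ≤ Real.sqrt x := by rw [Real.one_le_sqrt]; exact hx1
  have hsx2 : Real.sqrt x * Real.sqrt x = x := Real.mul_self_sqrt hx0.le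
  obtain ⟨y1, S, hy, hSb⟩ := ap_interval a b y0 hab D hD
  obtain ⟨r1, T, hr, hTb⟩ := ap_interval a' b' r0 hab' D hD
  set u : (ZMod x)ˣ := ZMod.unitOfCoprime D hcop.symm with hu
  have huD : (u : ZMod x) = (D : ZMod x) := ZMod.coe_unitOfCoprime D hcop.symm
  have hcard : ((Ioc a b ×ˢ Ioc a' b').filter (fun t : ℤ × ℤ => t.1 ≡ y0 [ZMOD D] ∧
      t.2 ≡ r0 [ZMOD D] ∧ (x : ℤ) ∣ t.1 * t.2 - 1)).card =
      NA x u (y1 : ZMod x) (r1 : ZMod x) S T := by
    symm
    unfold NA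
    apply card_bij (fun ij _ => (y1 + (D : ℤ) * (ij.1 : ℤ), r1 + (D : ℤ) * (ij.2 : ℤ)))
    · intro ij hij
      rw [mem_filter, mem_product, mem_range, mem_range] at hij
      obtain ⟨⟨h1, h2⟩, h3⟩ := hij
      obtain ⟨h4, h5, h6⟩ := (hy (y1 + D * (ij.1 : ℤ))).2 ⟨ij.1, h1, rfl⟩
      obtain ⟨h7, h8, h9⟩ := (hr (r1 + D * (ij.2 : ℤ))).2 ⟨ij.2, h2, rfl⟩
      rw [mem_filter, mem_product, mem_Ioc, mem_Ioc]
      refine ⟨⟨⟨h4, h5⟩, ⟨h7, h8⟩⟩, h6, h9, ?_⟩
      rw [← ZMod.intCast_zmod_eq_zero_iff_dvd]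
      push_cast
      rw [← huD, h3, sub_self]
    · intro ij _ ij' _ h
      rw [Prod.mk.injEq] at h
      have h1 := h.1
      have h2 := h.2
      have hDz : (D : ℤ) ≠ 0 := by exact_mod_cast (by omega : D ≠ 0)
      have h3 : (ij.1 : ℤ) = ij'.1 := mul_left_cancel₀ hDz (by linarith)
      have h4 : (ij.2 : ℤ) = ij'.2 := mul_left_cancel₀ hDz (by linarith)
      ext
      · exact_mod_cast h3
      · exact_mod_cast h4
    · intro t ht
      rw [mem_filter, mem_product, mem_Ioc, mem_Ioc] at ht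
      obtain ⟨⟨⟨h1, h2⟩, ⟨h3, h4⟩⟩, h5, h6, h7⟩ := ht
      obtain ⟨i, hi, hyi⟩ := (hy t.1).1 ⟨h1, h2, h5⟩
      obtain ⟨j, hj, hrj⟩ := (hr t.2).1 ⟨h3, h4, h6⟩
      refine ⟨(i, j), ?_, ?_⟩
      · rw [mem_filter, mem_product, mem_range, mem_range]
        refine ⟨⟨hi, hj⟩, ?_⟩
        rw [← ZMod.intCast_zmod_eq_zero_iff_dvd, hyi, hrj] at h7
        push_cast at h7
        rw [← huD, sub_eq_zero] at h7
        exact h7
      · ext
        · exact hyi.symm
        · exact hrj.symm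
  have hNA := hK x u (y1 : ZMod x) (r1 : ZMod x) S T
  set α : ℝ := ((b : ℝ) - a) / D with hα
  set β : ℝ := ((b' : ℝ) - a') / D with hβ
  have hba : 0 ≤ (b : ℝ) - a := by
    have : (a : ℝ) ≤ b := by exact_mod_cast hab
    linarith
  have hba' : 0 ≤ (b' : ℝ) - a' := by
    have : (a' : ℝ) ≤ b' := by exact_mod_cast hab'
    linarith
  have hα0 : 0 ≤ α := by positivity
  have hβ0 : 0 ≤ β := by positivity
  have hα1 : α ≤ (b : ℝ) - a := div_le_self hba hD1
  have hβ1 : β ≤ (b' : ℝ) - a' := div_le_self hba' hD1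
  set W : ℝ := ((b : ℝ) - a) + ((b' : ℝ) - a') with hW
  have hW0 : 0 ≤ W := by positivity
  have hS1 := abs_le.1 hSb
  have hT1 := abs_le.1 hTb
  have hS0 : (0 : ℝ) ≤ S := Nat.cast_nonneg _
  have hT0 : (0 : ℝ) ≤ T := Nat.cast_nonneg _
  have hlog : 0 ≤ Real.log x := Real.log_nonneg hx1
  -- the main terms
  have hmain : |(x.totient : ℝ) * S * T / (x : ℝ) ^ 2 -
      ((b : ℝ) - a) * ((b' : ℝ) - a') * x.totient / ((x : ℝ) ^ 2 * (D : ℝ) ^ 2)| ≤
      W / Real.sqrt x + Real.sqrt x := by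
    have h1 : ((b : ℝ) - a) * ((b' : ℝ) - a') * x.totient / ((x : ℝ) ^ 2 * (D : ℝ) ^ 2) =
        (x.totient : ℝ) * (α * β) / (x : ℝ) ^ 2 := by
      rw [hα, hβ]
      field_simp
    have h2 : (x.totient : ℝ) * S * T / (x : ℝ) ^ 2 - (x.totient : ℝ) * (α * β) / (x : ℝ) ^ 2 =
        (x.totient : ℝ) / (x : ℝ) ^ 2 * (S * T - α * β) := by ring
    rw [h1, h2, abs_mul, abs_of_nonneg (by positivity)]
    have h3 : |(S : ℝ) * T - α * β| ≤ W + 1 := by
      have h4 : (S : ℝ) * T - α * β = (S - α) * (T - β) + (S - α) * β + α * (T - β) := by ring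
      rw [h4]
      have h5 : |((S : ℝ) - α) * (T - β)| ≤ 1 := by
        rw [abs_mul]
        calc |(S : ℝ) - α| * |(T : ℝ) - β| ≤ 1 * 1 :=
              mul_le_mul hSb hTb (abs_nonneg _) zero_le_one
          _ = 1 := one_mul 1
      have h6 : |((S : ℝ) - α) * β| ≤ β := by
        rw [abs_mul, abs_of_nonneg hβ0]
        calc |(S : ℝ) - α| * β ≤ 1 * β := mul_le_mul_of_nonneg_right hSb hβ0
          _ = β := one_mul β
      have h7 : |α * ((T : ℝ) - β)| ≤ α := by
        rw [abs_mul, abs_of_nonneg hα0]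
        calc α * |(T : ℝ) - β| ≤ α * 1 := mul_le_mul_of_nonneg_left hTb hα0
          _ = α := mul_one α
      calc _ ≤ |((S : ℝ) - α) * (T - β) + (S - α) * β| + |α * ((T : ℝ) - β)| := abs_add_le _ _
        _ ≤ |((S : ℝ) - α) * (T - β)| + |((S : ℝ) - α) * β| + |α * ((T : ℝ) - β)| := by
            gcongr
            exact abs_add_le _ _
        _ ≤ 1 + β + α := by gcongr
        _ ≤ W + 1 := by linarith
    have h8 : (x.totient : ℝ) / (x : ℝ) ^ 2 ≤ 1 / Real.sqrt x := by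
      have h9 : (x.totient : ℝ) ≤ x := by exact_mod_cast Nat.totient_le x
      calc (x.totient : ℝ) / (x : ℝ) ^ 2 ≤ (x : ℝ) / (x : ℝ) ^ 2 := by gcongr
        _ = 1 / (x : ℝ) := by field_simp
        _ ≤ 1 / Real.sqrt x := by
            apply one_div_le_one_div_of_le (by linarith)
            have h10 := le_mul_of_one_le_left (zero_le_one.trans hsx) hsx
            linarith
    calc (x.totient : ℝ) / (x : ℝ) ^ 2 * |(S : ℝ) * T - α * β| ≤ 1 / Real.sqrt x * (W + 1) := by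
          gcongr
      _ = W / Real.sqrt x + 1 / Real.sqrt x := by ring
      _ ≤ W / Real.sqrt x + Real.sqrt x := by
          gcongr
          rw [div_le_iff₀ (by linarith)]
          rw [hsx2]
          exact hx1
  -- the error term
  have hL := one_add_log_le (ε / 4) (by positivity) x hx1
  rw [← hE] at hL
  have hτ := hdiv x hx
  have hω : (2 : ℝ) ^ x.primeFactors.card ≤ Cd * (x : ℝ) ^ (ε / 4) := by
    refine le_trans ?_ hτ
    exact_mod_cast Pool.Agent.H95R2.Leh.Omega.two_pow_le_divisors x (by omega)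
  set P : ℝ := (x : ℝ) ^ (ε / 4) with hP
  have hP1 : 1 ≤ P := Real.one_le_rpow hx1 (by positivity)
  have hP4 : P * P * (P * P) = (x : ℝ) ^ ε := by
    rw [hP, ← Real.rpow_add hx0, ← Real.rpow_add hx0]
    congr 1
    ring
  have hl0 : 0 ≤ 1 + Real.log x := by linarith
  have hST : (S : ℝ) + T ≤ W + 2 := by linarith
  have hbr : (1 + Real.log x) * ((S : ℝ) + T) / Real.sqrt x +
      (1 + Real.log x) ^ 2 * Real.sqrt x ≤ (E * P) ^ 2 * (3 * (Real.sqrt x + W / Real.sqrt x)) := by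
    have hEP : 1 ≤ E * P := one_le_mul_of_one_le_of_one_le hE1 hP1
    have h1 : (1 + Real.log x) * ((S : ℝ) + T) / Real.sqrt x ≤
        (E * P) ^ 2 * ((W + 2) / Real.sqrt x) := by
      rw [mul_div_assoc]
      apply mul_le_mul _ (by gcongr) (by positivity) (by positivity)
      exact hL.trans (le_self_pow₀ hEP two_ne_zero)
    have h2 : (1 + Real.log x) ^ 2 * Real.sqrt x ≤ (E * P) ^ 2 * Real.sqrt x := by gcongr
    have h3 : (W + 2) / Real.sqrt x + Real.sqrt x ≤ 3 * (Real.sqrt x + W / Real.sqrt x) := by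
      have h4 : (W + 2) / Real.sqrt x = W / Real.sqrt x + 2 / Real.sqrt x := by ring
      have h5 : 2 / Real.sqrt x ≤ 2 * Real.sqrt x := by
        rw [div_le_iff₀ (by linarith)]
        rw [mul_assoc, hsx2]
        linarith
      have h6 : 0 ≤ W / Real.sqrt x := by positivity
      linarith
    calc _ ≤ (E * P) ^ 2 * ((W + 2) / Real.sqrt x) + (E * P) ^ 2 * Real.sqrt x := add_le_add h1 h2
      _ = (E * P) ^ 2 * ((W + 2) / Real.sqrt x + Real.sqrt x) := by ring
      _ ≤ _ := by gcongr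
  have herr : K * 2 ^ x.primeFactors.card * x.divisors.card *
      ((1 + Real.log x) * ((S : ℝ) + T) / Real.sqrt x + (1 + Real.log x) ^ 2 * Real.sqrt x) ≤
      (K * (Cd ^ 2) * E ^ 2 * 3) * (x : ℝ) ^ ε * (Real.sqrt x + W / Real.sqrt x) := by
    calc _ ≤ K * (Cd * P) * (Cd * P) * ((E * P) ^ 2 * (3 * (Real.sqrt x + W / Real.sqrt x))) := by
          gcongr
      _ = (K * (Cd ^ 2) * E ^ 2 * 3) * (P * P * (P * P)) * (Real.sqrt x + W / Real.sqrt x) := by
          ring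
      _ = _ := by rw [hP4]
  have hPe : 1 ≤ (x : ℝ) ^ ε := Real.one_le_rpow hx1 hε.le
  have hcard' : (((Ioc a b ×ˢ Ioc a' b').filter (fun t : ℤ × ℤ => t.1 ≡ y0 [ZMOD D] ∧
      t.2 ≡ r0 [ZMOD D] ∧ (x : ℤ) ∣ t.1 * t.2 - 1)).card : ℝ) =
      (NA x u (y1 : ZMod x) (r1 : ZMod x) S T : ℝ) := by
    rw [← hcard]
  have hcomb : |(NA x u (y1 : ZMod x) (r1 : ZMod x) S T : ℝ) -
      ((b : ℝ) - a) * ((b' : ℝ) - a') * x.totient / ((x : ℝ) ^ 2 * (D : ℝ) ^ 2)| ≤
      C * (x : ℝ) ^ ε * (Real.sqrt x + W / Real.sqrt x) := by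
    have h1 := abs_sub_le (NA x u (y1 : ZMod x) (r1 : ZMod x) S T : ℝ)
      ((x.totient : ℝ) * S * T / (x : ℝ) ^ 2)
      (((b : ℝ) - a) * ((b' : ℝ) - a') * x.totient / ((x : ℝ) ^ 2 * (D : ℝ) ^ 2))
    have h2 : W / Real.sqrt x + Real.sqrt x ≤
        2 * (x : ℝ) ^ ε * (Real.sqrt x + W / Real.sqrt x) := by
      have h3 : 0 ≤ Real.sqrt x + W / Real.sqrt x := by positivity
      have h4 := le_mul_of_one_le_left h3 hPe
      linarith
    calc _ ≤ _ := h1
      _ ≤ (K * (Cd ^ 2) * E ^ 2 * 3) * (x : ℝ) ^ ε * (Real.sqrt x + W / Real.sqrt x) +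
          2 * (x : ℝ) ^ ε * (Real.sqrt x + W / Real.sqrt x) :=
          add_le_add (hNA.trans herr) (hmain.trans h2)
      _ = _ := by rw [hC]; ring
  refine le_trans (le_of_eq ?_) hcomb
  rw [← hcard']

end Pool.Agent.Y346.PA
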