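import Pool.Agent.Y346.PA.Stm

set_option autoImplicit false

/-!
# Project PA: tools for counting functions
-/

namespace Pool.Agent.Y346.PA

open Finset Filter Topology
open scoped Classical

/-- eventually at most `ε X / log X` elements -/
def LE (A : ℕ → Set ℕ) (ε : ℝ) : Prop :=
  ∀ᶠ X : ℕ in atTop, ((A X).ncard : ℝ) * Real.log X / X ≤ ε

/-- subsets of `[1, X]` -/
def Sub (A : ℕ → Set ℕ) : Prop := ∀ X : ℕ, ∀ n ∈ A X, 1 ≤ n ∧ n ≤ X

theorem Sub.finite {A : ℕ → Set ℕ} (h : Sub A) (X : ℕ) : (A X).Finite :=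
  (Set.finite_Icc 1 X).subset fun n hn => h X n hn

theorem Small.le {A : ℕ → Set ℕ} (h : Small A) {ε : ℝ} (hε : 0 < ε) : LE A ε :=
  (h.eventually (gt_mem_nhds hε)).mono fun _ hX => le_of_lt hX

theorem small_of_LE {A : ℕ → Set ℕ} (h : ∀ ε : ℝ, 0 < ε → LE A ε) : Small A := by
  unfold Small
  rw [Metric.tendsto_atTop]
  intro ε hε
  obtain ⟨N, hN⟩ := eventually_atTop.1 (h (ε / 2) (by linarith))
  refine ⟨N, fun X hX => ?_⟩
  have h1 := hN X hX
  have h0 : 0 ≤ ((A X).ncard : ℝ) * Real.log X / X := by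
    have := Real.log_natCast_nonneg X
    positivity
  rw [Real.dist_eq, sub_zero, abs_of_nonneg h0]
  linarith

theorem LE.mono {A B : ℕ → Set ℕ} {ε : ℝ} (h : LE B ε) (hB : Sub B)
    (hAB : ∀ᶠ X : ℕ in atTop, A X ⊆ B X) : LE A ε := by
  filter_upwards [h, hAB] with X h1 h2
  refine le_trans ?_ h1
  have h3 := Set.ncard_le_ncard h2 (hB.finite X)
  have := Real.log_natCast_nonneg X
  have h4 : ((A X).ncard : ℝ) ≤ (B X).ncard := by exact_mod_cast h3
  gcongr

theorem LE.weaken {A : ℕ → Set ℕ} {a b : ℝ} (h : LE A a) (hab : a ≤ b) : LE A b :=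
  Filter.Eventually.mono h fun _ hX => le_trans hX hab

theorem LE.union {A B : ℕ → Set ℕ} {a b : ℝ} (hA : LE A a) (hB : LE B b) :
    LE (fun X => A X ∪ B X) (a + b) := by
  filter_upwards [hA, hB] with X h1 h2
  refine le_trans ?_ (add_le_add h1 h2)
  have h3 := Set.ncard_union_le (A X) (B X)
  have := Real.log_natCast_nonneg X
  rw [← add_div, ← add_mul]
  have h4 : ((A X ∪ B X).ncard : ℝ) ≤ (A X).ncard + (B X).ncard := by exact_mod_cast h3
  gcongr

theorem Sub.union {A B : ℕ → Set ℕ} (hA : Sub A) (hB : Sub B) : Sub (fun X => A X ∪ B X) := by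
  rintro X n (h | h)
  · exact hA X n h
  · exact hB X n h

/-- finite unions -/
theorem LE.iUnion {A : ℕ → ℕ → Set ℕ} {a : ℕ → ℝ} (h : ∀ s, LE (A s) (a s)) (S : ℕ) :
    LE (fun X => {n | ∃ s < S, n ∈ A s X}) (∑ s ∈ range S, a s) := by
  induction S with
  | zero =>
    refine Eventually.of_forall fun X => ?_
    have : {n | ∃ s < 0, n ∈ A s X} = (∅ : Set ℕ) := by
      ext n; simp
    show (({n | ∃ s < 0, n ∈ A s X} : Set ℕ).ncard : ℝ) * Real.log X / X ≤ _
    rw [this]
    simp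
  | succ S ih =>
    have h1 := ih.union (h S)
    rw [sum_range_succ]
    refine Filter.Eventually.mono h1 fun X hX => ?_
    have : {n | ∃ s < S + 1, n ∈ A s X} = {n | ∃ s < S, n ∈ A s X} ∪ A S X := by
      ext n
      simp only [Set.mem_ofPred_eq, Set.mem_union]
      constructor
      · rintro ⟨s, hs, hn⟩
        rcases Nat.lt_succ_iff_lt_or_eq.1 hs with h2 | rfl
        · exact Or.inl ⟨s, h2, hn⟩
        · exact Or.inr hn
      · rintro (⟨s, hs, hn⟩ | hn)
        · exact ⟨s, by omega, hn⟩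
        · exact ⟨S, by omega, hn⟩
    show (({n | ∃ s < S + 1, n ∈ A s X} : Set ℕ).ncard : ℝ) * Real.log X / X ≤ _
    rw [this]
    exact hX

theorem Sub.iUnion {A : ℕ → ℕ → Set ℕ} (h : ∀ s, Sub (A s)) (S : ℕ) :
    Sub (fun X => {n | ∃ s < S, n ∈ A s X}) := by
  rintro X n ⟨s, _, hn⟩
  exact h s X n hn

/-- `log X / X → 0` -/
theorem tendsto_logdiv : Tendsto (fun X : ℕ => Real.log X / X) atTop (𝓝 0) := by
  have h1 : Tendsto (fun x : ℝ => Real.log x / x) atTop (𝓝 0) :=
    Real.isLittleO_log_id_atTop.tendsto_div_nhds_zero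
  exact h1.comp tendsto_natCast_atTop_atTop

/-- boundedly many elements -/
theorem small_bdd (A : ℕ → Set ℕ) (K : ℕ) (h : ∀ X, (A X).ncard ≤ K) : Small A := by
  have h1 : Tendsto (fun X : ℕ => (K : ℝ) * (Real.log X / X)) atTop (𝓝 0) := by
    have := tendsto_logdiv.const_mul (K : ℝ)
    rwa [mul_zero] at this
  refine squeeze_zero (fun X => ?_) (fun X => ?_) h1
  · have := Real.log_natCast_nonneg X
    positivity
  · have := Real.log_natCast_nonneg X
    have h2 : ((A X).ncard : ℝ) ≤ K := by exact_mod_cast h X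
    rw [mul_div_assoc]
    gcongr

theorem Small.mono {A B : ℕ → Set ℕ} (h : Small B) (hB : Sub B)
    (hAB : ∀ᶠ X : ℕ in atTop, A X ⊆ B X) : Small A :=
  small_of_LE fun _ hε => (h.le hε).mono hB hAB

theorem Small.union {A B : ℕ → Set ℕ} (hA : Small A) (hB : Small B) :
    Small (fun X => A X ∪ B X) :=
  small_of_LE fun ε hε => by
    have := (hA.le (half_pos hε)).union (hB.le (half_pos hε))
    rwa [add_halves] at this

end Pool.Agent.Y346.PA
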