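import Pool.Agent.Y346.PA.CI
import Pool.Agent.W298.PQ.A
import Pool.Agent.Y346.PA.Lim

set_option autoImplicit false

/-!
# Project PA, task R1
-/

namespace Pool.Agent.Y346.PA

open Finset Filter Topology
open Pool.Agent.H951R4.OD (ch PI Ex)
open Pool.Agent.W114.PQ (Dat Ax Pass EP wX datP)
open scoped Classical

/-- the covering -/
theorem cover_R1 (w zq X : ℕ) :
    ({n : ℕ | 1 ≤ n ∧ n ≤ X ∧ Pass datQ n ∧ 3 ≤ (EP 6 w n).card ∧
      ∃ q : ℕ, TT q n ∧ q ≤ zq}.ncard : ℝ) ≤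
      ∑ ps ∈ (PI 0 w).powersetCard 3, ∑ q0 ∈ PI 3 zq, ((AA X q0 ps).ncard : ℝ) := by
  have hcov : {n : ℕ | 1 ≤ n ∧ n ≤ X ∧ Pass datQ n ∧ 3 ≤ (EP 6 w n).card ∧
      ∃ q : ℕ, TT q n ∧ q ≤ zq} ⊆
      ⋃ ps ∈ (PI 0 w).powersetCard 3, ⋃ q0 ∈ PI 3 zq, AA X q0 ps := by
    rintro n ⟨hn1, hn2, hn3, hn4, q, hq, hqz⟩
    have hT : ∀ p ∈ EP 6 w n, Ex 6 n p ∧ 1 ≤ p ∧ p ≤ w := by
      intro p hp
      simp only [EP, mem_filter, mem_Icc] at hp
      exact ⟨hp.2, hp.1⟩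
    have h0 : 0 ∉ EP 6 w n := fun h => by
      have := (hT 0 h).2.1
      omega
    obtain ⟨ps, hps, hcard, hdown⟩ := Pool.Agent.H951R4.OD.d3_smallest _ h0 3 hn4
    have hex : ∃ q : ℕ, TT q n := ⟨q, hq⟩
    have hspec := Nat.find_spec hex
    rw [Set.mem_iUnion₂]
    refine ⟨ps, mem_powersetCard.2 ⟨?_, hcard⟩, ?_⟩
    · intro p hp
      have := hT p (hps hp)
      simp only [PI, mem_filter, mem_Ioc]
      exact ⟨⟨this.2.1, this.2.2⟩, this.1.1⟩
    · rw [Set.mem_iUnion₂]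
      refine ⟨Nat.find hex, ?_, hn1, hn2, hn3, fun p hp => (hT p (hps hp)).1,
        fun p hp hle => hdown p ?_ hle, hspec, fun q' hq' => Nat.find_min' hex hq'⟩
      · simp only [PI, mem_filter, mem_Ioc]
        exact ⟨⟨hspec.2.1, (Nat.find_min' hex hq).trans hqz⟩, hspec.1⟩
      · simp only [EP, mem_filter, mem_Icc]
        refine ⟨⟨hp.1.one_lt.le, hle.trans (Finset.sup_le fun q hq => ?_)⟩, hp⟩
        exact (hT q (hps hq)).2.2
  have hfin : (⋃ ps ∈ (PI 0 w).powersetCard 3, ⋃ q0 ∈ PI 3 zq, AA X q0 ps).Finite := by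
    apply (Set.finite_Icc 1 X).subset
    intro n hn
    rw [Set.mem_iUnion₂] at hn
    obtain ⟨ps, _, hn⟩ := hn
    rw [Set.mem_iUnion₂] at hn
    obtain ⟨q0, _, hn⟩ := hn
    exact ⟨hn.1, hn.2.1⟩
  have h1 := Set.ncard_le_ncard hcov hfin
  have h2 := h1.trans (Finset.set_ncard_biUnion_le _ _)
  have h3 := h2.trans (Finset.sum_le_sum fun ps _ => Finset.set_ncard_biUnion_le _ _)
  exact_mod_cast h3

theorem term_R1 (C : ℝ) (hC : 1 ≤ C) (X q0 P : ℕ) (Pr lz B : ℝ) (hPr : 0 < Pr) (hq : 0 < (q0 : ℝ))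
    (hlz : 0 < lz) (hP : LL P ≤ B) (hq0 : LL q0 ≤ B) :
    C * (X / (q0 * Pr)) / (LL P * LL q0) * (max (LL P) (LL q0) / lz) ^ (5 / 4 : ℝ) ≤
      C * X * (B ^ (1 / 4 : ℝ) * lz ^ (-(5 / 4) : ℝ)) * (1 / q0 * (1 / Pr)) := by
  have h1 := LL_ge P
  have h2 := LL_ge q0
  set M : ℝ := max (LL P) (LL q0) with hM
  have hM1 : 1 ≤ M := le_trans h1 (le_max_left _ _)
  have hMB : M ≤ B := max_le hP hq0
  have hprod : M ≤ LL P * LL q0 := by
    apply max_le <;> nlinarith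
  have h3 : 1 / (LL P * LL q0) * M ^ (5 / 4 : ℝ) ≤ B ^ (1 / 4 : ℝ) := by
    calc 1 / (LL P * LL q0) * M ^ (5 / 4 : ℝ) ≤ 1 / M * M ^ (5 / 4 : ℝ) := by gcongr
      _ = M ^ (1 / 4 : ℝ) := by
        rw [one_div, ← Real.rpow_neg_one, ← Real.rpow_add (by linarith)]
        norm_num
      _ ≤ B ^ (1 / 4 : ℝ) := by gcongr
  rw [Real.div_rpow (by linarith) hlz.le]
  calc C * (X / (q0 * Pr)) / (LL P * LL q0) * (M ^ (5 / 4 : ℝ) / lz ^ (5 / 4 : ℝ))
      = C * X * ((1 / (LL P * LL q0) * M ^ (5 / 4 : ℝ)) * lz ^ (-(5 / 4) : ℝ)) *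
        (1 / q0 * (1 / Pr)) := by
        rw [Real.rpow_neg hlz.le]
        field_simp
    _ ≤ _ := by
        gcongr

theorem r1 : S_R1 := by
  obtain ⟨C, hC, hci⟩ := ci
  obtain ⟨C3, hC3, hsum3⟩ := Pool.Agent.H951R4.OD.sum_inv_prod 3
  obtain ⟨C1, hC1, hsum1⟩ := Pool.Agent.H951R4.OD.sum_inv_prod 1
  set b : ℝ := 1 / 420 with hb
  have hb0 : 0 < b := by rw [hb]; norm_num
  set M : ℝ := C * C1 * C3 * (2 * C) ^ (5 / 4 : ℝ) * (1 + 1 / b) ^ (21 / 4 : ℝ) with hM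
  have hM0 : 0 ≤ M := by positivity
  -- the limit of the bound
  have hlim : Tendsto (fun X : ℕ => M * (Real.log X) ^ (-(3 / 80) : ℝ)) atTop (𝓝 0) := by
    have h1 : Tendsto (fun X : ℕ => Real.log (X : ℝ)) atTop atTop :=
      Real.tendsto_log_atTop.comp tendsto_natCast_atTop_atTop
    have h2 := (tendsto_rpow_neg_atTop (by norm_num : (0 : ℝ) < 3 / 80)).comp h1
    have h3 := h2.const_mul M
    simpa using h3
  have hev : ∀ᶠ X : ℕ in atTop, (11 * C) ^ (10 : ℕ) ≤ Real.log X := by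
    have h1 : Tendsto (fun X : ℕ => Real.log (X : ℝ)) atTop atTop :=
      Real.tendsto_log_atTop.comp tendsto_natCast_atTop_atTop
    exact h1.eventually_ge_atTop _
  refine squeeze_zero' (Eventually.of_forall fun X => ?_) ?_ hlim
  · have : 0 ≤ Real.log (X : ℝ) := Real.log_natCast_nonneg X
    positivity
  filter_upwards [hev, eventually_ge_atTop 1] with X hL hX1
  set L : ℝ := Real.log X with hLd
  have hXpos : (0 : ℝ) < X := by exact_mod_cast hX1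
  have h9 : (11 : ℝ) ≤ 11 * C := by linarith
  have h9' : (1 : ℝ) ≤ (11 * C) ^ (10 : ℕ) := one_le_pow₀ (by linarith)
  have hL1 : 1 ≤ L := h9'.trans hL
  have hL0 : 0 < L := by linarith
  have hlogL : 0 ≤ Real.log L := Real.log_nonneg hL1
  have hL8 : 11 * C ≤ L ^ (1 / 10 : ℝ) := by
    have h1 : ((11 * C) ^ (10 : ℕ) : ℝ) ^ (1 / 10 : ℝ) ≤ L ^ (1 / 10 : ℝ) :=
      Real.rpow_le_rpow (by positivity) hL (by norm_num)
    rw [← Real.rpow_natCast, ← Real.rpow_mul (by positivity)] at h1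
    norm_num at h1
    exact h1
  set s : ℝ := L / (C * (1 + Real.log L)) with hs
  have hden : 0 < C * (1 + Real.log L) := by positivity
  have h45 : L ^ (4 / 5 : ℝ) ≤ s := by
    rw [hs, le_div_iff₀ hden]
    have h1 := Pool.Agent.W298.PQ.one_add_log_le' (1 / 10) L (by norm_num) hL1
    have h2 : C * (1 + Real.log L) ≤ L ^ (1 / 10 : ℝ) * L ^ (1 / 10 : ℝ) := by
      calc C * (1 + Real.log L) ≤ C * ((1 + 1 / (1 / 10)) * L ^ (1 / 10 : ℝ)) := by gcongr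
        _ = 11 * C * L ^ (1 / 10 : ℝ) := by ring
        _ ≤ L ^ (1 / 10 : ℝ) * L ^ (1 / 10 : ℝ) := by gcongr
    calc L ^ (4 / 5 : ℝ) * (C * (1 + Real.log L)) ≤
          L ^ (4 / 5 : ℝ) * (L ^ (1 / 10 : ℝ) * L ^ (1 / 10 : ℝ)) := by gcongr
      _ = L := by
        rw [← Real.rpow_add hL0, ← Real.rpow_add hL0]
        norm_num
  have h3445 : L ^ (3 / 4 : ℝ) ≤ L ^ (4 / 5 : ℝ) :=
    Real.rpow_le_rpow_of_exponent_le hL1 (by norm_num)
  have h34' : (11 : ℝ) ≤ L ^ (3 / 4 : ℝ) := by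
    have h1 : L ^ (1 / 10 : ℝ) ≤ L ^ (3 / 4 : ℝ) :=
      Real.rpow_le_rpow_of_exponent_le hL1 (by norm_num)
    linarith
  have hs9 : 11 ≤ s := h34'.trans (h3445.trans h45)
  set w : ℕ := wX X with hw
  set zq : ℕ := zX X with hzq
  set z : ℕ := ⌊Real.exp s⌋₊ with hz
  have hzqz : zq ≤ z := Nat.floor_mono (Real.exp_le_exp.2 h45)
  have hwzq : w ≤ zq := Nat.floor_mono (Real.exp_le_exp.2 h3445)
  have hwz : w ≤ z := hwzq.trans hzqz
  have hexp9 : (3 : ℝ) ≤ Real.exp (L ^ (3 / 4 : ℝ)) := by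
    have := Real.add_one_le_exp (L ^ (3 / 4 : ℝ))
    linarith
  have hw3 : 3 ≤ w := Nat.le_floor (by exact_mod_cast hexp9)
  have hzq3 : 3 ≤ zq := hw3.trans hwzq
  have hz3 : 3 ≤ z := hw3.trans hwz
  have hw3r : (3 : ℝ) ≤ w := by exact_mod_cast hw3
  have hzq3r : (3 : ℝ) ≤ zq := by exact_mod_cast hzq3
  have hz3r : (3 : ℝ) ≤ z := by exact_mod_cast hz3
  have hexp1 : Real.exp 1 < 3 := by
    have := Real.exp_one_lt_d9
    linarith
  have hlw1 : 1 ≤ Real.log w := by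
    rw [Real.le_log_iff_exp_le (by linarith)]; linarith
  have hlzq1 : 1 ≤ Real.log zq := by
    rw [Real.le_log_iff_exp_le (by linarith)]; linarith
  have hlz1 : 1 ≤ Real.log z := by
    rw [Real.le_log_iff_exp_le (by linarith)]; linarith
  have hlzq : Real.log zq ≤ L ^ (4 / 5 : ℝ) := by
    rw [Real.log_le_iff_le_exp (by linarith)]
    exact Nat.floor_le (Real.exp_pos _).le
  have hlw : Real.log w ≤ L ^ (4 / 5 : ℝ) :=
    (Real.log_le_log (by linarith) (by exact_mod_cast hwzq)).trans hlzq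
  have hlz : Real.log z ≤ s := by
    rw [Real.log_le_iff_le_exp (by linarith)]
    exact Nat.floor_le (Real.exp_pos _).le
  have hlz' : s / 2 ≤ Real.log z := by
    have h1 : Real.exp s < z + 1 := Nat.lt_floor_add_one _
    have h2 : Real.exp (s / 2) ≤ z := by
      have h3 : Real.exp s = Real.exp (s / 2) * Real.exp (s / 2) := by
        rw [← Real.exp_add]
        congr 1
        ring
      have h4 : 2 ≤ Real.exp (s / 2) := by
        have := Real.add_one_le_exp (s / 2)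
        linarith
      nlinarith
    rw [Real.le_log_iff_exp_le (by linarith)]
    exact h2
  have hsL : s ≤ L := by
    rw [hs, div_le_iff₀ hden]
    have : 1 ≤ C * (1 + Real.log L) := by nlinarith
    nlinarith
  have hllz : Real.log (Real.log z) ≤ Real.log L :=
    Real.log_le_log (by linarith) (hlz.trans hsL)
  have hcond : C * Real.log z * (1 + Real.log (Real.log z)) ≤ Real.log X := by
    calc C * Real.log z * (1 + Real.log (Real.log z)) ≤ C * s * (1 + Real.log L) := by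
          have : 0 ≤ Real.log (Real.log z) := Real.log_nonneg hlz1
          gcongr
      _ = L := by
        rw [hs]
        field_simp
  -- the sum
  have hLLle : ∀ t : ℕ, t ≤ zq → LL t ≤ L ^ (4 / 5 : ℝ) := by
    intro t ht
    refine le_trans ?_ hlzq
    unfold LL
    apply Real.log_le_log (by positivity)
    exact_mod_cast max_le ht hzq3
  set G : ℝ := (L ^ (4 / 5 : ℝ)) ^ (1 / 4 : ℝ) * (Real.log z) ^ (-(5 / 4) : ℝ) with hG
  have hG0 : 0 ≤ G := by positivity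
  have h1 := cover_R1 w zq X
  have h2 : ∀ ps ∈ (PI 0 w).powersetCard 3, ∀ q0 ∈ PI 3 zq, ((AA X q0 ps).ncard : ℝ) ≤
      (C * X * G) * (1 / q0 * (1 / ∏ p ∈ ps, (p : ℝ))) := by
    intro ps hps q0 hq0
    obtain ⟨hc, hpp⟩ := Pool.Agent.H951R4.OD.d3_ps hps
    simp only [PI, mem_filter, mem_Ioc] at hq0
    have h3 := hci w z X q0 hw3 hwz hcond hq0.2 hq0.1.1 (hq0.1.2.trans hzqz) ps hc hpp
    have hsup : ps.sup id ≤ w := Finset.sup_le fun p hp => (hpp p hp).2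
    have h4 := term_R1 C hC X q0 (ps.sup id) (∏ p ∈ ps, (p : ℝ)) (Real.log z)
      (L ^ (4 / 5 : ℝ)) (prod_pos fun p hp => by exact_mod_cast (hpp p hp).1.pos)
      (by exact_mod_cast hq0.2.pos) (by linarith) (hLLle _ (hsup.trans hwzq))
      (hLLle _ hq0.1.2)
    exact h3.trans h4
  have h3 := h1.trans (sum_le_sum fun ps hps => sum_le_sum fun q0 hq0 => h2 ps hps q0 hq0)
  have h4 : ∑ ps ∈ (PI 0 w).powersetCard 3, ∑ q0 ∈ PI 3 zq,
      (C * X * G) * (1 / (q0 : ℝ) * (1 / ∏ p ∈ ps, (p : ℝ))) =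
      (C * X * G) * ((∑ q0 ∈ PI 3 zq, 1 / (q0 : ℝ)) *
        ∑ ps ∈ (PI 0 w).powersetCard 3, 1 / ∏ p ∈ ps, (p : ℝ)) := by
    rw [sum_mul_sum, sum_comm, mul_sum]
    apply sum_congr rfl
    intro q0 _
    rw [mul_sum]
  rw [h4] at h3
  have hll : ∀ t : ℕ, 3 ≤ t → t ≤ zq → 1 + Real.log (Real.log t) ≤ 1 + Real.log L := by
    intro t ht htz
    have ht3 : (3 : ℝ) ≤ t := by exact_mod_cast ht
    have h5 : Real.log (Real.log t) ≤ Real.log L := by
      apply Real.log_le_log (Real.log_pos (by linarith))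
      refine (Real.log_le_log (by linarith) (by exact_mod_cast htz)).trans (hlzq.trans ?_)
      exact (h45.trans hsL)
    linarith
  have hll0 : ∀ t : ℕ, 3 ≤ t → 0 ≤ 1 + Real.log (Real.log t) := by
    intro t ht
    have ht3 : (3 : ℝ) ≤ t := by exact_mod_cast ht
    have h6 : 1 ≤ Real.log t := by
      rw [Real.le_log_iff_exp_le (by linarith)]; linarith
    have := Real.log_nonneg h6
    linarith
  have h5 : ∑ ps ∈ (PI 0 w).powersetCard 3, 1 / ∏ p ∈ ps, (p : ℝ) ≤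
      C3 * (1 + Real.log L) ^ 3 := by
    refine (hsum3 w hw3).trans ?_
    have := hll w hw3 hwzq
    have := hll0 w hw3
    gcongr
  have h6 : ∑ q0 ∈ PI 3 zq, 1 / (q0 : ℝ) ≤ C1 * (1 + Real.log L) := by
    have h7 := hsum1 zq hzq3
    have h8 : ∑ q0 ∈ PI 3 zq, 1 / (q0 : ℝ) ≤
        ∑ ps ∈ (PI 0 zq).powersetCard 1, 1 / ∏ p ∈ ps, (p : ℝ) := by
      rw [powersetCard_one, sum_map]
      simp only [Function.Embedding.coeFn_mk, prod_singleton]
      apply sum_le_sum_of_subset_of_nonneg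
      · intro p hp
        simp only [PI, mem_filter, mem_Ioc] at hp ⊢
        exact ⟨⟨by omega, hp.1.2⟩, hp.2⟩
      · intro p _ _
        positivity
    rw [pow_one] at h7
    refine h8.trans (h7.trans ?_)
    have := hll zq hzq3 le_rfl
    gcongr
  have h7 : (Real.log z) ^ (-(5 / 4) : ℝ) ≤
      (2 * C) ^ (5 / 4 : ℝ) * (1 + Real.log L) ^ (5 / 4 : ℝ) * L ^ (-(5 / 4) : ℝ) := by
    have h8 : (Real.log z) ^ (-(5 / 4) : ℝ) ≤ (s / 2) ^ (-(5 / 4) : ℝ) :=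
      Real.rpow_le_rpow_of_nonpos (by linarith) hlz' (by norm_num)
    refine h8.trans (le_of_eq ?_)
    have h9 : s / 2 = (2 * C * (1 + Real.log L))⁻¹ * L := by
      rw [hs]
      field_simp
    rw [h9, Real.mul_rpow (by positivity) hL0.le, Real.inv_rpow (by positivity),
      Real.rpow_neg (by positivity), inv_inv, Real.mul_rpow (by positivity) (by positivity)]
  have h8 : (1 + Real.log L) ^ (21 / 4 : ℝ) ≤ (1 + 1 / b) ^ (21 / 4 : ℝ) * L ^ (1 / 80 : ℝ) := by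
    have h9 := Pool.Agent.W298.PQ.one_add_log_le' b L hb0 hL1
    calc (1 + Real.log L) ^ (21 / 4 : ℝ) ≤ ((1 + 1 / b) * L ^ b) ^ (21 / 4 : ℝ) :=
          Real.rpow_le_rpow (by positivity) h9 (by norm_num)
      _ = (1 + 1 / b) ^ (21 / 4 : ℝ) * L ^ (1 / 80 : ℝ) := by
        rw [Real.mul_rpow (by positivity) (by positivity), ← Real.rpow_mul hL0.le, hb]
        norm_num
  set l : ℝ := 1 + Real.log L with hl
  have hl0 : 0 < l := by positivity
  have hsum0 : 0 ≤ ∑ ps ∈ (PI 0 w).powersetCard 3, 1 / ∏ p ∈ ps, (p : ℝ) :=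
    sum_nonneg fun ps _ => by
      have : (0 : ℝ) ≤ ∏ p ∈ ps, (p : ℝ) := prod_nonneg fun p _ => Nat.cast_nonneg p
      positivity
  calc _ ≤ ((C * X * G) * ((∑ q0 ∈ PI 3 zq, 1 / (q0 : ℝ)) *
        ∑ ps ∈ (PI 0 w).powersetCard 3, 1 / ∏ p ∈ ps, (p : ℝ))) * L / X := by gcongr
    _ ≤ ((C * X * ((L ^ (4 / 5 : ℝ)) ^ (1 / 4 : ℝ) *
          ((2 * C) ^ (5 / 4 : ℝ) * l ^ (5 / 4 : ℝ) * L ^ (-(5 / 4) : ℝ)))) *
          ((C1 * l) * (C3 * l ^ 3))) * L / X := by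
        rw [hG]
        gcongr
    _ = C * C1 * C3 * (2 * C) ^ (5 / 4 : ℝ) * (l ^ (5 / 4 : ℝ) * l * l ^ 3) *
          ((L ^ (4 / 5 : ℝ)) ^ (1 / 4 : ℝ) * L ^ (-(5 / 4) : ℝ) * L) := by
        field_simp
    _ = C * C1 * C3 * (2 * C) ^ (5 / 4 : ℝ) * l ^ (21 / 4 : ℝ) * L ^ (-(1 / 20) : ℝ) := by
        have e1 : l ^ (5 / 4 : ℝ) * l * l ^ 3 = l ^ (21 / 4 : ℝ) := by
          have e2 : l ^ (5 / 4 : ℝ) * l * l ^ 3 = l ^ (5 / 4 : ℝ) * l ^ (4 : ℕ) := by ring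
          rw [e2, ← Real.rpow_natCast l 4, ← Real.rpow_add hl0]
          norm_num
        have e3 : (L ^ (4 / 5 : ℝ)) ^ (1 / 4 : ℝ) * L ^ (-(5 / 4) : ℝ) * L =
            L ^ (-(1 / 20) : ℝ) := by
          rw [← Real.rpow_mul hL0.le]
          nth_rewrite 3 [← Real.rpow_one L]
          rw [← Real.rpow_add hL0, ← Real.rpow_add hL0]
          norm_num
        rw [e1, e3]
    _ ≤ C * C1 * C3 * (2 * C) ^ (5 / 4 : ℝ) *
          ((1 + 1 / b) ^ (21 / 4 : ℝ) * L ^ (1 / 80 : ℝ)) * L ^ (-(1 / 20) : ℝ) := by gcongr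
    _ = M * (L ^ (1 / 80 : ℝ) * L ^ (-(1 / 20) : ℝ)) := by rw [hM]; ring
    _ = M * L ^ (-(3 / 80) : ℝ) := by
        rw [← Real.rpow_add hL0]
        norm_num

end Pool.Agent.Y346.PA
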