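import Pool.Agent.Y346.PA.R2b
import Pool.Agent.W298.PQ.A

set_option autoImplicit false

/-!
# Project PA, task R2
-/

namespace Pool.Agent.Y346.PA

open Finset Filter Topology
open Pool.Agent.H951R4.OD (ch PI Ex)
open Pool.Agent.W114.PQ (Dat Ax Pass EP wX datP)
open scoped Classical

theorem cover_R2 (Y Q zq N0 X : ℕ) (hN0 : N0 ≤ X) (hQz : Q ≤ zq) (B : Set ℕ)
    (hB : ∀ n ∈ B, 1 ≤ n ∧ n ≤ X ∧ Pass datQ n ∧ (∃ q : ℕ, TT q n ∧ q ≤ N0) ∧
      ∀ q : ℕ, TT q n → zq < q) :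
    (B.ncard : ℝ) ≤ ∑ q ∈ (Ioc zq X).filter (fun q : ℕ => q.Prime ∧ Exc Y Q q),
        (((Icc 1 X).filter (fun n : ℕ => q ∣ n ^ 2 + n + 1)).card : ℝ) +
      ∑ q ∈ (Ioc zq N0).filter (fun q : ℕ => q.Prime ∧ ¬ Exc Y Q q),
        (({n : ℕ | 1 ≤ n ∧ n ≤ X ∧ Pass datQ n ∧ TT q n ∧ ∀ q' : ℕ, TT q' n → Q < q'}).ncard :
          ℝ) := by
  set E1 := (Ioc zq X).filter (fun q : ℕ => q.Prime ∧ Exc Y Q q) with hE1
  set E2 := (Ioc zq N0).filter (fun q : ℕ => q.Prime ∧ ¬ Exc Y Q q) with hE2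
  have hsub : B ⊆ (⋃ q ∈ E1, (((Icc 1 X).filter (fun n : ℕ => q ∣ n ^ 2 + n + 1) : Finset ℕ) :
      Set ℕ)) ∪ (⋃ q ∈ E2, {n : ℕ | 1 ≤ n ∧ n ≤ X ∧ Pass datQ n ∧ TT q n ∧
        ∀ q' : ℕ, TT q' n → Q < q'}) := by
    intro n hn
    obtain ⟨h1, h2, h3, ⟨q, hq, hqN⟩, h4⟩ := hB n hn
    by_cases hexc : Exc Y Q q
    · left
      rw [Set.mem_iUnion₂]
      refine ⟨q, ?_, ?_⟩
      · rw [hE1, mem_filter, mem_Ioc]
        exact ⟨⟨h4 q hq, hqN.trans hN0⟩, hq.1, hexc⟩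
      · rw [mem_coe, mem_filter, mem_Icc]
        exact ⟨⟨h1, h2⟩, hq.2.2.1⟩
    · right
      rw [Set.mem_iUnion₂]
      refine ⟨q, ?_, h1, h2, h3, hq, fun q' hq' => lt_of_le_of_lt hQz (h4 q' hq')⟩
      rw [hE2, mem_filter, mem_Ioc]
      exact ⟨⟨h4 q hq, hqN⟩, hq.1, hexc⟩
  have hfin : ((⋃ q ∈ E1, (((Icc 1 X).filter (fun n : ℕ => q ∣ n ^ 2 + n + 1) : Finset ℕ) :
      Set ℕ)) ∪ (⋃ q ∈ E2, {n : ℕ | 1 ≤ n ∧ n ≤ X ∧ Pass datQ n ∧ TT q n ∧
        ∀ q' : ℕ, TT q' n → Q < q'})).Finite := by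
    apply (Set.finite_Icc 1 X).subset
    rintro n (hn | hn)
    · rw [Set.mem_iUnion₂] at hn
      obtain ⟨q, _, hn⟩ := hn
      rw [mem_coe, mem_filter, mem_Icc] at hn
      exact hn.1
    · rw [Set.mem_iUnion₂] at hn
      obtain ⟨q, _, hn⟩ := hn
      exact ⟨hn.1, hn.2.1⟩
  have h1 := (Set.ncard_le_ncard hsub hfin).trans (Set.ncard_union_le _ _)
  have h2 : (⋃ q ∈ E1, (((Icc 1 X).filter (fun n : ℕ => q ∣ n ^ 2 + n + 1) : Finset ℕ) :
      Set ℕ)).ncard ≤ ∑ q ∈ E1, ((Icc 1 X).filter (fun n : ℕ => q ∣ n ^ 2 + n + 1)).card := by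
    refine (Finset.set_ncard_biUnion_le _ _).trans (le_of_eq ?_)
    apply sum_congr rfl
    intro q _
    rw [Set.ncard_coe_finset]
  have h3 := Finset.set_ncard_biUnion_le E2 (fun q => {n : ℕ | 1 ≤ n ∧ n ≤ X ∧ Pass datQ n ∧
    TT q n ∧ ∀ q' : ℕ, TT q' n → Q < q'})
  have h4 := h1.trans (add_le_add h2 h3)
  exact_mod_cast h4

theorem exp_large : ∀ᶠ t : ℝ in atTop, 2 * t ^ 3 + 1 ≤ Real.exp (t ^ (4 / 5 : ℝ) / 8) := by
  have h1 := Real.tendsto_pow_mul_exp_neg_atTop_nhds_zero 4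
  have h2 : Tendsto (fun t : ℝ => t ^ (4 / 5 : ℝ) / 8) atTop atTop :=
    (tendsto_rpow_atTop (by norm_num)).atTop_div_const (by norm_num)
  have h3 := h1.comp h2
  filter_upwards [h3.eventually (gt_mem_nhds (show (0 : ℝ) < 1 / (3 * 8 ^ 4) by norm_num)),
    eventually_ge_atTop 1] with t ht1 ht2
  simp only [Function.comp] at ht1
  set s : ℝ := t ^ (4 / 5 : ℝ) with hs
  have hs1 : 1 ≤ s := Real.one_le_rpow ht2 (by norm_num)
  have ht0 : 0 < t := by linarith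
  have h4 : t ^ 3 ≤ s ^ 4 := by
    rw [hs, ← Real.rpow_natCast, ← Real.rpow_natCast, ← Real.rpow_mul ht0.le]
    apply Real.rpow_le_rpow_of_exponent_le ht2
    norm_num
  have h5 : 1 ≤ t ^ 3 := one_le_pow₀ ht2
  have h6 : 0 < Real.exp (-(s / 8)) := Real.exp_pos _
  have h7 : (s / 8) ^ 4 < 1 / (3 * 8 ^ 4) * Real.exp (s / 8) := by
    have h8 : (s / 8) ^ 4 * Real.exp (-(s / 8)) * Real.exp (s / 8) = (s / 8) ^ 4 := by
      rw [mul_assoc, ← Real.exp_add]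
      simp
    rw [← h8]
    exact mul_lt_mul_of_pos_right ht1 (Real.exp_pos _)
  have h8 : (s / 8) ^ 4 = s ^ 4 / 8 ^ 4 := by ring
  rw [h8] at h7
  have h9 : 3 * s ^ 4 ≤ Real.exp (s / 8) := by
    have h10 : s ^ 4 / 8 ^ 4 * (3 * 8 ^ 4) ≤ 1 / (3 * 8 ^ 4) * Real.exp (s / 8) * (3 * 8 ^ 4) := by
      gcongr
    have h11 : s ^ 4 / 8 ^ 4 * (3 * 8 ^ 4) = 3 * s ^ 4 := by ring
    have h12 : 1 / (3 * 8 ^ 4) * Real.exp (s / 8) * (3 * 8 ^ 4) = Real.exp (s / 8) := by ring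
    linarith
  linarith

theorem r2 : S_R2 := by
  intro δ hδ hδ1
  obtain ⟨Cs, C, hCs, hC, hcount⟩ := r2_count
  obtain ⟨C1, hC1, hsum1⟩ := Pool.Agent.H951R4.OD.sum_inv_prod 1
  have htl : Tendsto (fun X : ℕ => Real.log (X : ℝ)) atTop atTop :=
    Real.tendsto_log_atTop.comp tendsto_natCast_atTop_atTop
  -- the limit of the bound
  set M : ℝ := 256 * C * C1 * 21 ^ 2 with hM
  have hlim : Tendsto (fun X : ℕ => 192 * (Real.log X) ^ (-1 : ℝ) +
      M * (Real.log X) ^ (-(1 / 10) : ℝ)) atTop (𝓝 0) := by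
    have h2 := ((tendsto_rpow_neg_atTop (by norm_num : (0 : ℝ) < 1 / 10)).comp htl).const_mul M
    have h3 := ((tendsto_rpow_neg_atTop (by norm_num : (0 : ℝ) < 1)).comp htl).const_mul 192
    have h4 := h3.add h2
    simpa using h4
  have hev1 : ∀ᶠ X : ℕ in atTop, (11 * Cs / δ + 100) ^ (10 : ℕ) ≤ Real.log X :=
    htl.eventually_ge_atTop _
  have hev2 := htl.eventually exp_large
  refine squeeze_zero' (Eventually.of_forall fun X => ?_) ?_ hlim
  · have : 0 ≤ Real.log (X : ℝ) := Real.log_natCast_nonneg X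
    positivity
  filter_upwards [hev1, hev2, eventually_ge_atTop 1] with X hL hE hX1
  set L : ℝ := Real.log X with hLd
  have hXpos : (0 : ℝ) < X := by exact_mod_cast hX1
  have hXone : (1 : ℝ) ≤ X := by exact_mod_cast hX1
  have h9 : (100 : ℝ) ≤ 11 * Cs / δ + 100 := by
    have : 0 < 11 * Cs / δ := by positivity
    linarith
  have h9' : (100 : ℝ) ≤ (11 * Cs / δ + 100) ^ (10 : ℕ) :=
    le_trans h9 (le_self_pow₀ (by linarith) (by norm_num))
  have hL100 : 100 ≤ L := h9'.trans hL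
  have hL1 : 1 ≤ L := by linarith
  have hL0 : 0 < L := by linarith
  have hlogL : 0 ≤ Real.log L := Real.log_nonneg hL1
  have hL10 : 11 * Cs / δ + 100 ≤ L ^ (1 / 10 : ℝ) := by
    have h1 : ((11 * Cs / δ + 100) ^ (10 : ℕ) : ℝ) ^ (1 / 10 : ℝ) ≤ L ^ (1 / 10 : ℝ) :=
      Real.rpow_le_rpow (by positivity) hL (by norm_num)
    rw [← Real.rpow_natCast, ← Real.rpow_mul (by linarith)] at h1
    norm_num at h1
    exact h1
  set S : ℝ := L ^ (4 / 5 : ℝ) with hS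
  have hS100 : 100 ≤ S := by
    have h1 : L ^ (1 / 10 : ℝ) ≤ S := Real.rpow_le_rpow_of_exponent_le hL1 (by norm_num)
    have : 0 < 11 * Cs / δ := by positivity
    linarith
  set Q : ℕ := ⌊Real.exp (S / 8)⌋₊ with hQ
  set Y : ℕ := ⌈L ^ 3⌉₊ with hY
  set zq : ℕ := zX X with hzq
  set N0 : ℕ := ⌊(X : ℝ) ^ (1 - δ)⌋₊ with hN0
  have hQle : (Q : ℝ) ≤ Real.exp (S / 8) := Nat.floor_le (Real.exp_pos _).le
  have hQge : Real.exp (S / 8) < Q + 1 := Nat.lt_floor_add_one _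
  have hYge : L ^ 3 ≤ Y := Nat.le_ceil _
  have hYle : (Y : ℝ) < L ^ 3 + 1 := Nat.ceil_lt_add_one (by positivity)
  have hL3 : (100 : ℝ) ≤ L ^ 3 := le_trans hL100 (le_self_pow₀ hL1 (by norm_num))
  have hY3 : 3 ≤ Y := by
    have : (3 : ℝ) ≤ Y := by linarith
    exact_mod_cast this
  have hYQ : Y ≤ Q := by
    have h1 : (Y : ℝ) < Q + 1 := by linarith
    have h2 : Y < Q + 1 := by exact_mod_cast h1
    omega
  have hYr : (3 : ℝ) ≤ Y := by exact_mod_cast hY3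
  have hQr : (3 : ℝ) ≤ Q := le_trans hYr (by exact_mod_cast hYQ)
  set u : ℝ := Real.exp (S / 2) with hu
  have hu3 : 3 ≤ u := by
    have := Real.add_one_le_exp (S / 2)
    linarith
  have hQ4 : 2 * Q ^ 4 ≤ zq := by
    have h1 : (Q : ℝ) ^ 4 ≤ u := by
      calc (Q : ℝ) ^ 4 ≤ (Real.exp (S / 8)) ^ 4 := by gcongr
        _ = u := by
          rw [hu, ← Real.exp_nat_mul]
          congr 1
          push_cast
          ring
    have h2 : u * u < (zq : ℝ) + 1 := by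
      have h3 : u * u = Real.exp S := by
        rw [hu, ← Real.exp_add]
        congr 1
        ring
      rw [h3]
      exact Nat.lt_floor_add_one _
    have h3 : 2 * (Q : ℝ) ^ 4 ≤ zq := by nlinarith
    exact_mod_cast h3
  have hQ1 : 1 ≤ Q := by
    have : (1 : ℝ) ≤ Q := by linarith
    exact_mod_cast this
  have hQz : Q ≤ zq := by
    have h1 : Q ≤ Q ^ 4 := Nat.le_self_pow (by norm_num) Q
    omega
  have hN0X : N0 ≤ X := by
    have h1 : (N0 : ℝ) ≤ (X : ℝ) ^ (1 - δ) := Nat.floor_le (by positivity)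
    have h2 : (X : ℝ) ^ (1 - δ) ≤ (X : ℝ) ^ (1 : ℝ) :=
      Real.rpow_le_rpow_of_exponent_le hXone (by linarith)
    rw [Real.rpow_one] at h2
    exact_mod_cast h1.trans h2
  have hQ3n : 3 ≤ Q := hY3.trans hYQ
  -- logarithms
  have hlQ1 : S / 16 ≤ Real.log Q := by
    rw [Real.le_log_iff_exp_le (by linarith)]
    have h1 : Real.exp (S / 8) = Real.exp (S / 16) * Real.exp (S / 16) := by
      rw [← Real.exp_add]
      congr 1
      ring
    have h2 : 2 ≤ Real.exp (S / 16) := by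
      have := Real.add_one_le_exp (S / 16)
      linarith
    nlinarith
  have hlQ2 : Real.log Q ≤ S := by
    rw [Real.log_le_iff_le_exp (by linarith)]
    refine hQle.trans (Real.exp_le_exp.2 (by linarith))
  have hSL : S ≤ L := by
    calc S ≤ L ^ (1 : ℝ) := Real.rpow_le_rpow_of_exponent_le hL1 (by norm_num)
      _ = L := Real.rpow_one L
  have hlQpos : 1 ≤ Real.log Q := by linarith
  have hllQ : Real.log (Real.log Q) ≤ Real.log L :=
    Real.log_le_log (by linarith) (hlQ2.trans hSL)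
  have hlY : Real.log Y ≤ 4 * (1 + Real.log L) := by
    have h1 : (Y : ℝ) ≤ 2 * L ^ 3 := by linarith
    have h2 := Real.log_le_log (by linarith) h1
    rw [Real.log_mul (by norm_num) (by positivity), Real.log_pow] at h2
    have h3 := Real.log_two_lt_d9
    push_cast at h2
    linarith
  have hlY1 : 1 ≤ Real.log Y := by
    rw [Real.le_log_iff_exp_le (by linarith)]
    have := Real.exp_one_lt_d9
    linarith
  -- the covering
  have hcov := cover_R2 Y Q zq N0 X hN0X hQz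
    {n : ℕ | 1 ≤ n ∧ n ≤ X ∧ Pass datQ n ∧ (∃ q : ℕ, TT q n ∧ (q : ℝ) ≤ (X : ℝ) ^ (1 - δ)) ∧
      ∀ q : ℕ, TT q n → zX X < q} (by
      rintro n ⟨h1, h2, h3, ⟨q, hq, hqX⟩, h4⟩
      exact ⟨h1, h2, h3, ⟨q, hq, Nat.le_floor hqX⟩, h4⟩)
  have hz2 : 3 ≤ zq := hQ3n.trans hQz
  -- the first part
  have hpart1 : ∑ q ∈ (Ioc zq X).filter (fun q : ℕ => q.Prime ∧ Exc Y Q q),
        (((Icc 1 X).filter (fun n : ℕ => q ∣ n ^ 2 + n + 1)).card : ℝ) ≤
      192 * X * L ^ (-2 : ℝ) := by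
    have h1 : ∀ q ∈ (Ioc zq X).filter (fun q : ℕ => q.Prime ∧ Exc Y Q q),
        (((Icc 1 X).filter (fun n : ℕ => q ∣ n ^ 2 + n + 1)).card : ℝ) ≤ 4 * X * (1 / q) := by
      intro q hq
      rw [mem_filter, mem_Ioc] at hq
      exact card_dvd q X hq.2.1 (by omega) hq.1.2
    have h2 := exc_sum Y Q zq X (by omega) hX1 hQ4 (by omega)
    have h3 : ((Nat.log 2 X : ℕ) : ℝ) ≤ 2 * L := by
      have h4 : (2 : ℝ) ^ (Nat.log 2 X) ≤ X := by
        exact_mod_cast Nat.pow_log_le_self 2 (by omega)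
      have h5 := Real.log_le_log (by positivity) h4
      rw [Real.log_pow] at h5
      have h6 := Real.log_two_gt_d9
      have h7 : (0 : ℝ) ≤ (Nat.log 2 X : ℕ) := Nat.cast_nonneg _
      nlinarith
    have hYr0 : (0 : ℝ) < Y := by linarith
    calc _ ≤ ∑ q ∈ (Ioc zq X).filter (fun q : ℕ => q.Prime ∧ Exc Y Q q), 4 * X * (1 / (q : ℝ)) :=
          sum_le_sum h1
      _ = 4 * X * ∑ q ∈ (Ioc zq X).filter (fun q : ℕ => q.Prime ∧ Exc Y Q q), 1 / (q : ℝ) := by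
          rw [mul_sum]
      _ ≤ 4 * X * ((Nat.log 2 X + 1) * (16 / Y)) := by gcongr
      _ ≤ 4 * X * ((2 * L + 1) * (16 / L ^ 3)) := by gcongr
      _ ≤ 4 * X * ((3 * L) * (16 / L ^ 3)) := by
          gcongr
          linarith
      _ = 192 * X * L ^ (-2 : ℝ) := by
          rw [Real.rpow_neg hL0.le]
          norm_num
          field_simp
          norm_num
  -- the second part
  set G : ℝ := (Real.log Q) ^ (-(3 / 2) : ℝ) * (Real.log Y) ^ (1 / 2 : ℝ) with hG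
  have hG0 : 0 ≤ G := by positivity
  have hpart2 : ∑ q ∈ (Ioc zq N0).filter (fun q : ℕ => q.Prime ∧ ¬ Exc Y Q q),
        (({n : ℕ | 1 ≤ n ∧ n ≤ X ∧ Pass datQ n ∧ TT q n ∧ ∀ q' : ℕ, TT q' n → Q < q'}).ncard :
          ℝ) ≤ C * X * G * (C1 * (1 + Real.log L)) := by
    have h1 : ∀ q ∈ (Ioc zq N0).filter (fun q : ℕ => q.Prime ∧ ¬ Exc Y Q q),
        (({n : ℕ | 1 ≤ n ∧ n ≤ X ∧ Pass datQ n ∧ TT q n ∧ ∀ q' : ℕ, TT q' n → Q < q'}).ncard :
          ℝ) ≤ C * X * G * (1 / q) := by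
      intro q hq
      rw [mem_filter, mem_Ioc] at hq
      obtain ⟨⟨h2, h3⟩, h4, h5⟩ := hq
      have hq0 : (0 : ℝ) < q := by exact_mod_cast h4.pos
      have hqN : (q : ℝ) ≤ (X : ℝ) ^ (1 - δ) := by
        have h6 : (N0 : ℝ) ≤ (X : ℝ) ^ (1 - δ) := Nat.floor_le (by positivity)
        have h7 : (q : ℝ) ≤ N0 := by exact_mod_cast h3
        linarith
      have hXq : δ * L ≤ Real.log ((X : ℝ) / q) := by
        rw [Real.log_div hXpos.ne' hq0.ne']
        have h8 := Real.log_le_log hq0 hqN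
        rw [Real.log_rpow hXpos] at h8
        linarith
      have hcond : Cs * Real.log Q * (1 + Real.log (Real.log Q)) ≤ Real.log ((X : ℝ) / q) := by
        refine le_trans ?_ hXq
        have h8 := Pool.Agent.W298.PQ.one_add_log_le' (1 / 10) L (by norm_num) hL1
        have h10 : 0 ≤ Real.log (Real.log Q) := Real.log_nonneg hlQpos
        calc Cs * Real.log Q * (1 + Real.log (Real.log Q)) ≤ Cs * S * (1 + Real.log L) := by
              gcongr
          _ ≤ Cs * S * ((1 + 1 / (1 / 10)) * L ^ (1 / 10 : ℝ)) := by gcongr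
          _ = δ * (11 * Cs / δ) * S * L ^ (1 / 10 : ℝ) := by
              field_simp
              norm_num
          _ ≤ δ * L ^ (1 / 10 : ℝ) * S * L ^ (1 / 10 : ℝ) := by
              gcongr
              linarith
          _ = δ * (S * L ^ (1 / 10 : ℝ) * L ^ (1 / 10 : ℝ)) := by ring
          _ = δ * L := by
              rw [hS, ← Real.rpow_add hL0, ← Real.rpow_add hL0]
              norm_num
      have h11 := hcount X Y Q q hY3 hYQ (by omega) h4 (h3.trans hN0X) h5 hcond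
      refine h11.trans (le_of_eq ?_)
      rw [hG]
      ring
    have h2 : ∑ q ∈ (Ioc zq N0).filter (fun q : ℕ => q.Prime ∧ ¬ Exc Y Q q), 1 / (q : ℝ) ≤
        C1 * (1 + Real.log L) := by
      have hX3 : 3 ≤ X := by
        have h12 : (3 : ℝ) ≤ X := by
          have h13 := Real.add_one_le_exp L
          rw [hLd, Real.exp_log hXpos] at h13
          linarith
        exact_mod_cast h12
      have h7 := hsum1 X hX3
      have h8 : ∑ q ∈ (Ioc zq N0).filter (fun q : ℕ => q.Prime ∧ ¬ Exc Y Q q), 1 / (q : ℝ) ≤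
          ∑ ps ∈ (PI 0 X).powersetCard 1, 1 / ∏ p ∈ ps, (p : ℝ) := by
        rw [powersetCard_one, sum_map]
        simp only [Function.Embedding.coeFn_mk, prod_singleton]
        apply sum_le_sum_of_subset_of_nonneg
        · intro p hp
          simp only [PI, mem_filter, mem_Ioc] at hp ⊢
          exact ⟨⟨by omega, hp.1.2.trans hN0X⟩, hp.2.1⟩
        · intro p _ _
          positivity
      rw [pow_one] at h7
      exact h8.trans h7
    calc _ ≤ ∑ q ∈ (Ioc zq N0).filter (fun q : ℕ => q.Prime ∧ ¬ Exc Y Q q),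
          C * X * G * (1 / (q : ℝ)) := sum_le_sum h1
      _ = C * X * G * ∑ q ∈ (Ioc zq N0).filter (fun q : ℕ => q.Prime ∧ ¬ Exc Y Q q),
          1 / (q : ℝ) := by rw [mul_sum]
      _ ≤ _ := by gcongr
  have hGb : G ≤ 256 * (1 + Real.log L) * L ^ (-(6 / 5) : ℝ) := by
    have h1 : (Real.log Q) ^ (-(3 / 2) : ℝ) ≤ 64 * L ^ (-(6 / 5) : ℝ) := by
      have h2 : (Real.log Q) ^ (-(3 / 2) : ℝ) ≤ (S / 16) ^ (-(3 / 2) : ℝ) :=
        Real.rpow_le_rpow_of_nonpos (by positivity) hlQ1 (by norm_num)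
      refine h2.trans (le_of_eq ?_)
      have h3 : (16 : ℝ) = 4 ^ (2 : ℝ) := by norm_num
      rw [Real.div_rpow (by positivity) (by norm_num), hS, ← Real.rpow_mul hL0.le, h3,
        ← Real.rpow_mul (by norm_num)]
      have h4 : (4 : ℝ) ^ ((2 : ℝ) * (-(3 / 2))) = (64 : ℝ)⁻¹ := by
        rw [show (2 : ℝ) * (-(3 / 2)) = -(3 : ℝ) by norm_num, Real.rpow_neg (by norm_num)]
        norm_num
      rw [h4, div_inv_eq_mul]
      norm_num
      ring
    have h2 : (Real.log Y) ^ (1 / 2 : ℝ) ≤ 4 * (1 + Real.log L) := by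
      calc (Real.log Y) ^ (1 / 2 : ℝ) ≤ (Real.log Y) ^ (1 : ℝ) :=
            Real.rpow_le_rpow_of_exponent_le hlY1 (by norm_num)
        _ = Real.log Y := Real.rpow_one _
        _ ≤ _ := hlY
    calc G ≤ (64 * L ^ (-(6 / 5) : ℝ)) * (4 * (1 + Real.log L)) := by
          rw [hG]
          gcongr
      _ = _ := by ring
  have hl21 := Pool.Agent.W298.PQ.one_add_log_le' (1 / 20) L (by norm_num) hL1
  have hl21' : (1 + Real.log L) ≤ 21 * L ^ (1 / 20 : ℝ) := by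
    refine hl21.trans (le_of_eq ?_)
    norm_num
  set B := {n : ℕ | 1 ≤ n ∧ n ≤ X ∧ Pass datQ n ∧
    (∃ q : ℕ, TT q n ∧ (q : ℝ) ≤ (X : ℝ) ^ (1 - δ)) ∧ ∀ q : ℕ, TT q n → zX X < q} with hB
  calc (B.ncard : ℝ) * L / X ≤
        (192 * X * L ^ (-2 : ℝ) + C * X * G * (C1 * (1 + Real.log L))) * L / X := by
        gcongr
        exact hcov.trans (add_le_add hpart1 hpart2)
    _ ≤ (192 * X * L ^ (-2 : ℝ) + C * X * (256 * (21 * L ^ (1 / 20 : ℝ)) * L ^ (-(6 / 5) : ℝ)) *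
          (C1 * (21 * L ^ (1 / 20 : ℝ)))) * L / X := by
        have h1 : G ≤ 256 * (21 * L ^ (1 / 20 : ℝ)) * L ^ (-(6 / 5) : ℝ) := by
          refine hGb.trans ?_
          gcongr
        gcongr
    _ = 192 * (L ^ (-2 : ℝ) * L) + M * (L ^ (1 / 20 : ℝ) * L ^ (1 / 20 : ℝ) *
          L ^ (-(6 / 5) : ℝ) * L) := by
        rw [hM]
        field_simp
    _ = 192 * L ^ (-1 : ℝ) + M * L ^ (-(1 / 10) : ℝ) := by
        have e1 : L ^ (-2 : ℝ) * L = L ^ (-1 : ℝ) := by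
          nth_rewrite 2 [← Real.rpow_one L]
          rw [← Real.rpow_add hL0]
          norm_num
        have e2 : L ^ (1 / 20 : ℝ) * L ^ (1 / 20 : ℝ) * L ^ (-(6 / 5) : ℝ) * L =
            L ^ (-(1 / 10) : ℝ) := by
          nth_rewrite 4 [← Real.rpow_one L]
          rw [← Real.rpow_add hL0, ← Real.rpow_add hL0, ← Real.rpow_add hL0]
          norm_num
        rw [e1, e2]

end Pool.Agent.Y346.PA
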