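import Pool.Agent.Y346.PA.Lim

set_option autoImplicit false

/-!
# Project PA: task R3 from E, H1b, H1, H2, and the main theorem from R1, R2, R3
-/

namespace Pool.Agent.Y346.PA

open Finset Filter Topology
open Pool.Agent.H951R4.OD (ch PI Ex)
open Pool.Agent.W114.PQ (Dat Ax Pass EP wX datP)
open scoped Classical

theorem axQ (dp : Ax datP) : Ax datQ where
  c0_pos := dp.c0_pos
  two := dp.two
  m_odd := dp.m_odd
  e01 := dp.e01
  neg := dp.neg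
  κ1 := dp.κ1
  τ1 := dp.τ1
  β01 := Or.inl rfl
  rho_low := dp.rho_low
  rho_up := dp.rho_up
  per := dp.per
  ord := dp.ord
  cnt := dp.cnt
  mert := dp.mert

theorem r3 (te : S_E) (h1b : S_H1b) (h1 : S_H1) (h2 : S_H2) : S_R3 := by
  intro ε hε
  obtain ⟨S, hS⟩ := te (ε / 4) (by linarith)
  choose! C hC0 hC using h2
  -- the sum of the constants
  obtain ⟨K, hK⟩ : ∃ K : ℝ, K = ∑ s ∈ range (S + 1), |C s| + 1 := ⟨_, rfl⟩
  have hK1 : 1 ≤ K := by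
    rw [hK]
    have : 0 ≤ ∑ s ∈ range (S + 1), |C s| := Finset.sum_nonneg fun s _ => abs_nonneg _
    linarith
  obtain ⟨δ, hδ⟩ : ∃ δ : ℝ, δ = min (1 / 20) (ε / (4 * K)) := ⟨_, rfl⟩
  have hδ0 : 0 < δ := by
    rw [hδ]
    exact lt_min (by norm_num) (by positivity)
  have hδ20 : δ ≤ 1 / 20 := by rw [hδ]; exact min_le_left _ _
  have hδK : δ * K ≤ ε / 4 := by
    have : δ ≤ ε / (4 * K) := by rw [hδ]; exact min_le_right _ _
    calc δ * K ≤ ε / (4 * K) * K := by gcongr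
      _ = ε / 4 := by field_simp
  refine ⟨δ, hδ0, by linarith, ?_⟩
  -- the parts
  let A1 : ℕ → Set ℕ := fun X => {n : ℕ | 1 ≤ n ∧ n ≤ X ∧ (∀ q : ℕ, TT q n → X < q ^ 2) ∧
    ¬ ∃ s m : ℕ, n ^ 2 + n + 1 = s * m ∧ s ≤ S ∧ Squarefree m ∧
      ∀ q : ℕ, q.Prime → q ∣ m → TT q n}
  let A2 : ℕ → Set ℕ := fun X => {n : ℕ | 1 ≤ n ∧ n ≤ X ∧ n ≤ S}
  let A3 : ℕ → ℕ → Set ℕ := fun s X => {n : ℕ | 1 ≤ n ∧ n ≤ X ∧ Pass datQ n ∧
    (n % 4 = 0 ∨ n % 4 = 3) ∧ ¬ IsSquare s ∧ ∃ q : ℕ, TT q n ∧ n ^ 2 + n + 1 = s * q}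
  let A4 : ℕ → ℕ → Set ℕ := fun t X => {n : ℕ | 1 ≤ n ∧ n ≤ X ∧ Pass datQ n ∧
    (n % 4 = 0 ∨ n % 4 = 3) ∧ 1 ≤ t ∧ ∃ q : ℕ, TT q n ∧ n ^ 2 + n + 1 = t ^ 2 * q}
  let A5 : ℕ → ℕ → Set ℕ := fun s X => {n : ℕ | 1 ≤ n ∧ n ≤ X ∧ 1 ≤ s ∧ ∃ q1 q2 : ℕ, q1.Prime ∧
    q2.Prime ∧ (X : ℝ) ^ (1 - δ) < q1 ∧ q1 ≤ q2 ∧ n ^ 2 + n + 1 = s * (q1 * q2)}
  have s1 : Sub A1 := fun X n hn => ⟨hn.1, hn.2.1⟩
  have s2 : Sub A2 := fun X n hn => ⟨hn.1, hn.2.1⟩
  have s3 : ∀ s, Sub (A3 s) := fun s X n hn => ⟨hn.1, hn.2.1⟩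
  have s4 : ∀ s, Sub (A4 s) := fun s X n hn => ⟨hn.1, hn.2.1⟩
  have s5 : ∀ s, Sub (A5 s) := fun s X n hn => ⟨hn.1, hn.2.1⟩
  have e1 : LE A1 (ε / 4) := hS
  have hη : 0 < ε / (16 * (S + 1)) := by positivity
  have e2 : LE A2 (ε / 4) := by
    refine Small.le (small_bdd A2 S fun X => ?_) (by linarith)
    have h3 : A2 X ⊆ (Finset.Icc 1 S : Finset ℕ) := by
      rintro n ⟨h4, _, h5⟩
      rw [Finset.mem_coe, Finset.mem_Icc]
      exact ⟨h4, h5⟩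
    have h4 := Set.ncard_le_ncard h3 (Finset.finite_toSet _)
    rw [Set.ncard_coe_finset, Nat.card_Icc] at h4
    simpa using h4
  have e3 : ∀ s, LE (A3 s) (ε / (16 * (S + 1))) := by
    intro s
    by_cases hs : IsSquare s
    · refine Small.le (small_bdd (A3 s) 0 fun X => ?_) hη
      have : A3 s X = ∅ := by
        ext n
        simp only [A3, Set.mem_ofPred_eq, Set.mem_empty_iff_false, iff_false]
        rintro ⟨_, _, _, _, h, _⟩
        exact h hs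
      rw [this]
      simp
    · refine (Small.le (h1b s hs) hη).mono (fun X n hn => ⟨hn.1, hn.2.1⟩) (Eventually.of_forall ?_)
      rintro X n ⟨h3, h4, h5, h6, _, h7⟩
      exact ⟨h3, h4, h5, h6, h7⟩
  have e4 : ∀ s, LE (A4 s) (ε / (16 * (S + 1))) := by
    intro s
    rcases Nat.eq_zero_or_pos s with hs | hs
    · refine Small.le (small_bdd (A4 s) 0 fun X => ?_) hη
      have : A4 s X = ∅ := by
        ext n
        simp only [A4, Set.mem_ofPred_eq, Set.mem_empty_iff_false, iff_false]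
        rintro ⟨_, _, _, _, h, _⟩
        omega
      rw [this]
      simp
    · refine (Small.le (h1 s hs) hη).mono (fun X n hn => ⟨hn.1, hn.2.1⟩) (Eventually.of_forall ?_)
      rintro X n ⟨h3, h4, h5, h6, _, h7⟩
      exact ⟨h3, h4, h5, h6, h7⟩
  have e5 : ∀ s, LE (A5 s) (|C s| * δ) := by
    intro s
    rcases Nat.eq_zero_or_pos s with hs | hs
    · refine Eventually.of_forall fun X => ?_
      have : A5 s X = ∅ := by
        ext n
        simp only [A5, Set.mem_ofPred_eq, Set.mem_empty_iff_false, iff_false]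
        rintro ⟨_, _, h, _⟩
        omega
      rw [this]
      simp only [Set.ncard_empty, Nat.cast_zero, zero_mul, zero_div]
      positivity
    · have h3 := hC s hs δ hδ0 (by linarith)
      have h4 : LE (A5 s) (C s * δ) := by
        refine LE.mono (B := fun X => {n : ℕ | 1 ≤ n ∧ n ≤ X ∧ ∃ q1 q2 : ℕ, q1.Prime ∧ q2.Prime ∧
          (X : ℝ) ^ (1 - δ) < q1 ∧ q1 ≤ q2 ∧ n ^ 2 + n + 1 = s * (q1 * q2)}) h3
          (fun X n hn => ⟨hn.1, hn.2.1⟩) (Eventually.of_forall ?_)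
        rintro X n ⟨h3, h4, _, h7⟩
        exact ⟨h3, h4, h7⟩
      exact h4.weaken (by gcongr; exact le_abs_self _)
  have htot := ((((e1.union e2).union (LE.iUnion e3 (S + 1))).union
    (LE.iUnion e4 (S + 1))).union (LE.iUnion e5 (S + 1)))
  have hsub := ((((s1.union s2).union (Sub.iUnion s3 (S + 1))).union
    (Sub.iUnion s4 (S + 1))).union (Sub.iUnion s5 (S + 1)))
  have hval : ε / 4 + ε / 4 + ∑ _s ∈ range (S + 1), ε / (16 * ((S : ℝ) + 1)) +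
      ∑ _s ∈ range (S + 1), ε / (16 * ((S : ℝ) + 1)) + ∑ s ∈ range (S + 1), |C s| * δ ≤ ε := by
    rw [← Finset.sum_mul, Finset.sum_const, Finset.card_range, nsmul_eq_mul]
    have h3 : ((S + 1 : ℕ) : ℝ) * (ε / (16 * ((S : ℝ) + 1))) = ε / 16 := by
      push_cast
      field_simp
    rw [h3]
    have h4 : (∑ s ∈ range (S + 1), |C s|) * δ ≤ ε / 4 := by
      have : (∑ s ∈ range (S + 1), |C s|) = K - 1 := by rw [hK]; ring
      rw [this]
      nlinarith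
    linarith
  refine LE.weaken (LE.mono htot hsub ?_) hval
  -- the inclusion
  have hbig : ∀ᶠ X : ℕ in atTop, (3 : ℝ) * (X : ℝ) ^ 2 < ((X : ℝ) ^ (1 - δ)) ^ 3 := by
    have h5 : Tendsto (fun x : ℝ => x ^ (1 / 2 : ℝ)) atTop atTop :=
      tendsto_rpow_atTop (by norm_num)
    have h6 := (h5.comp tendsto_natCast_atTop_atTop).eventually (eventually_gt_atTop (3 : ℝ))
    filter_upwards [h6, eventually_ge_atTop 1] with X h7 h8
    have hX : (1 : ℝ) ≤ X := by exact_mod_cast h8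
    have h9 : ((X : ℝ) ^ (1 - δ)) ^ 3 = (X : ℝ) ^ (3 * (1 - δ)) := by
      rw [← Real.rpow_natCast, ← Real.rpow_mul (by linarith)]
      norm_num
      ring_nf
    rw [h9]
    simp only [Function.comp_apply] at h7
    calc (3 : ℝ) * (X : ℝ) ^ 2 < (X : ℝ) ^ (1 / 2 : ℝ) * (X : ℝ) ^ 2 := by gcongr
      _ = (X : ℝ) ^ ((1 / 2 : ℝ) + 2) := by
          rw [Real.rpow_add (by linarith)]
          norm_num
      _ ≤ _ := Real.rpow_le_rpow_of_exponent_le hX (by linarith)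
  filter_upwards [hbig, eventually_ge_atTop 1] with X hbX hX1
  have hXr : (1 : ℝ) ≤ X := by exact_mod_cast hX1
  rintro n ⟨hn1, hnX, hP, h4, hT⟩
  have hT2 : ∀ q : ℕ, TT q n → X < q ^ 2 := by
    intro q hq
    have h5 := hT q hq
    have h6 : (X : ℝ) ≤ ((X : ℝ) ^ (1 - δ)) ^ 2 := by
      have : ((X : ℝ) ^ (1 - δ)) ^ 2 = (X : ℝ) ^ (2 * (1 - δ)) := by
        rw [← Real.rpow_natCast, ← Real.rpow_mul (by linarith)]
        norm_num
        ring_nf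
      rw [this]
      calc (X : ℝ) = (X : ℝ) ^ (1 : ℝ) := (Real.rpow_one _).symm
        _ ≤ _ := Real.rpow_le_rpow_of_exponent_le hXr (by linarith)
    have h7 : (0 : ℝ) < (X : ℝ) ^ (1 - δ) := Real.rpow_pos_of_pos (by linarith) _
    have h8 : (X : ℝ) < (q : ℝ) ^ 2 := lt_of_le_of_lt h6 (by gcongr)
    exact_mod_cast h8
  by_cases hex : ∃ s m : ℕ, n ^ 2 + n + 1 = s * m ∧ s ≤ S ∧ Squarefree m ∧
      ∀ q : ℕ, q.Prime → q ∣ m → TT q n
  swap
  · exact Or.inl (Or.inl (Or.inl (Or.inl ⟨hn1, hnX, hT2, hex⟩)))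
  obtain ⟨s, m, hsm, hsS, hsq, hm⟩ := hex
  have hs1 : 1 ≤ s := by
    rcases Nat.eq_zero_or_pos s with h | h
    · rw [h] at hsm; omega
    · exact h
  by_cases hm1 : m = 1
  · refine Or.inl (Or.inl (Or.inl (Or.inr ⟨hn1, hnX, ?_⟩)))
    rw [hm1, mul_one] at hsm
    nlinarith
  have hq1 : m.minFac.Prime := Nat.minFac_prime hm1
  obtain ⟨q1, hq1d⟩ : ∃ q1, q1 = m.minFac := ⟨_, rfl⟩
  rw [← hq1d] at hq1
  obtain ⟨m', hm'⟩ : q1 ∣ m := hq1d ▸ Nat.minFac_dvd m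
  have hTq1 : TT q1 n := hm q1 hq1 ⟨m', hm'⟩
  by_cases hm'1 : m' = 1
  · -- one prime
    rw [hm'1, mul_one] at hm'
    rw [hm'] at hsm
    by_cases hs : IsSquare s
    · obtain ⟨t, ht⟩ := hs
      refine Or.inl (Or.inr ⟨t, ?_, hn1, hnX, hP, h4, ?_, q1, hTq1, ?_⟩)
      · have : t ≤ s := by rw [ht]; exact Nat.le_mul_self t
        omega
      · rcases Nat.eq_zero_or_pos t with h | h
        · rw [h] at ht; omega
        · exact h
      · rw [hsm, ht]; ring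
    · exact Or.inl (Or.inl (Or.inr ⟨s, by omega, hn1, hnX, hP, h4, hs, q1, hTq1, hsm⟩))
  · have hq2 : m'.minFac.Prime := Nat.minFac_prime hm'1
    obtain ⟨q2, hq2d⟩ : ∃ q2, q2 = m'.minFac := ⟨_, rfl⟩
    rw [← hq2d] at hq2
    obtain ⟨m'', hm''⟩ : q2 ∣ m' := hq2d ▸ Nat.minFac_dvd m'
    have hq2m : q2 ∣ m := by rw [hm', hm'']; exact ⟨q1 * m'', by ring⟩
    have hTq2 : TT q2 n := hm q2 hq2 hq2m
    have hq12 : q1 ≤ q2 := by
      rw [hq1d]
      exact Nat.minFac_le_of_dvd hq2.two_le hq2m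
    by_cases hm''1 : m'' = 1
    · rw [hm''1, mul_one] at hm''
      refine Or.inr ⟨s, by omega, hn1, hnX, hs1, q1, q2, hq1, hq2, hT q1 hTq1, hq12, ?_⟩
      rw [hsm, hm', hm'']
    · exfalso
      have hq3 : m''.minFac.Prime := Nat.minFac_prime hm''1
      obtain ⟨q3, hq3d⟩ : ∃ q3, q3 = m''.minFac := ⟨_, rfl⟩
      rw [← hq3d] at hq3
      obtain ⟨k, hk⟩ : q3 ∣ m'' := hq3d ▸ Nat.minFac_dvd m''
      have hq3m : q3 ∣ m := by rw [hm', hm'', hk]; exact ⟨q1 * q2 * k, by ring⟩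
      have hTq3 : TT q3 n := hm q3 hq3 hq3m
      have hk1 : 1 ≤ k := by
        rcases Nat.eq_zero_or_pos k with h | h
        · rw [hm', hm'', hk, h] at hsm
          simp at hsm
        · exact h
      have hle : q1 * q2 * q3 ≤ n ^ 2 + n + 1 := by
        rw [hsm, hm', hm'', hk]
        calc q1 * q2 * q3 ≤ (q1 * q2 * q3) * (s * k) := Nat.le_mul_of_pos_right _ (by positivity)
          _ = _ := by ring
      have hle2 : n ^ 2 + n + 1 ≤ 3 * X ^ 2 := by nlinarith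
      have hle3 : ((q1 : ℝ) * q2 * q3) ≤ 3 * (X : ℝ) ^ 2 := by exact_mod_cast hle.trans hle2
      have h7 : (0 : ℝ) < (X : ℝ) ^ (1 - δ) := Real.rpow_pos_of_pos (by linarith) _
      have h8 : ((X : ℝ) ^ (1 - δ)) ^ 3 ≤ (q1 : ℝ) * q2 * q3 := by
        have a1 := (hT q1 hTq1).le
        have a2 := (hT q2 hTq2).le
        have a3 := (hT q3 hTq3).le
        calc ((X : ℝ) ^ (1 - δ)) ^ 3 = (X : ℝ) ^ (1 - δ) * (X : ℝ) ^ (1 - δ) *
            (X : ℝ) ^ (1 - δ) := by ring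
          _ ≤ _ := by gcongr
      linarith

/-- the main theorem -/
theorem mainq (r1 : S_R1) (r2 : S_R2) (r3 : S_R3) (dp : Pool.Agent.W114.PQ.S_DP)
    (b : Pool.Agent.W114.PQ.S_B) (c1 : Pool.Agent.W114.PQ.S_C1) (c2 : Pool.Agent.W114.PQ.S_C2)
    (e : Pool.Agent.W114.PQ.S_E) : S_MAINQ := by
  have hD : Ax datQ := axQ dp
  have hc0 : datQ.c0 = 6 := rfl
  -- many small exact primes
  have hA : Small (fun X => {n : ℕ | 1 ≤ n ∧ n ≤ X ∧ Pass datQ n ∧ (n % 4 = 0 ∨ n % 4 = 3) ∧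
      3 ≤ (EP 6 (wX X) n).card}) := by
    refine small_of_LE fun ε hε => ?_
    obtain ⟨δ, hδ0, hδ1, h3⟩ := r3 (ε / 3) (by linarith)
    have k1 := r1.le (ε := ε / 3) (by linarith)
    have k2 := (r2 δ hδ0 (by linarith)).le (ε := ε / 3) (by linarith)
    have k3 : LE (fun X => {n : ℕ | 1 ≤ n ∧ n ≤ X ∧ Pass datQ n ∧ (n % 4 = 0 ∨ n % 4 = 3) ∧
      ∀ q : ℕ, TT q n → (X : ℝ) ^ (1 - δ) < q}) (ε / 3) := h3
    have s1 : Sub (fun X => {n : ℕ | 1 ≤ n ∧ n ≤ X ∧ Pass datQ n ∧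
        3 ≤ (EP 6 (wX X) n).card ∧ ∃ q : ℕ, TT q n ∧ q ≤ zX X}) :=
      fun X n hn => ⟨hn.1, hn.2.1⟩
    have s2 : Sub (fun X => {n : ℕ | 1 ≤ n ∧ n ≤ X ∧
        Pass datQ n ∧ (∃ q : ℕ, TT q n ∧ (q : ℝ) ≤ (X : ℝ) ^ (1 - δ)) ∧
        ∀ q : ℕ, TT q n → zX X < q}) := fun X n hn => ⟨hn.1, hn.2.1⟩
    have s3 : Sub (fun X => {n : ℕ | 1 ≤ n ∧ n ≤ X ∧ Pass datQ n ∧ (n % 4 = 0 ∨ n % 4 = 3) ∧
        ∀ q : ℕ, TT q n → (X : ℝ) ^ (1 - δ) < q}) := fun X n hn => ⟨hn.1, hn.2.1⟩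
    have hall := (k1.union k2).union k3
    refine LE.weaken (LE.mono hall ((s1.union s2).union s3) (Eventually.of_forall ?_))
      (by linarith)
    rintro X n ⟨h4, h5, h6, h7, h8⟩
    by_cases h9 : ∃ q : ℕ, TT q n ∧ q ≤ zX X
    · exact Or.inl (Or.inl ⟨h4, h5, h6, h8, h9⟩)
    push Not at h9
    by_cases h10 : ∃ q : ℕ, TT q n ∧ (q : ℝ) ≤ (X : ℝ) ^ (1 - δ)
    · exact Or.inl (Or.inr ⟨h4, h5, h6, h10, h9⟩)
    push Not at h10
    exact Or.inr ⟨h4, h5, h6, h7, h10⟩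
  have hB : Small _ := b datQ hD 3
  have hC1 : Small _ := c1 datQ hD 3
  have hC2 : Small _ := c2 datQ hD
  have hE : Small _ := e datQ.c0 hD.c0_pos 3
  have hsum := (((hA.union hB).union hC1).union hC2).union hE
  refine hsum.mono ?_ (Eventually.of_forall ?_)
  · rintro X n ((((h | h) | h) | h) | h) <;> exact ⟨h.1, h.2.1⟩
  · rintro X n ⟨h1n, hnX, hP, h4, hnp⟩
    by_cases hcard : 3 ≤ (EP datQ.c0 (wX X) n).card
    · exact Or.inl (Or.inl (Or.inl (Or.inl ⟨h1n, hnX, hP, h4, hcard⟩)))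
    · have hcard' : (EP datQ.c0 (wX X) n).card < 3 := by omega
      by_cases hex : ∃ r : ℕ, wX X < r ∧ Ex datQ.c0 n r
      · obtain ⟨r, hr, hrE⟩ := hex
        by_cases huniq : ∀ r' : ℕ, wX X < r' → Ex datQ.c0 n r' → r' = r
        · by_cases hne : (EP datQ.c0 (wX X) n).Nonempty
          · exact Or.inl (Or.inl (Or.inr ⟨h1n, hnX, hP, hcard', hne, r, hr, hrE, huniq⟩))
          · refine Or.inl (Or.inr ⟨h1n, hnX, hP, hnp, r, hrE, ?_⟩)
            intro r' hr'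
            apply huniq r' _ hr'
            by_contra hle
            apply hne
            refine ⟨r', ?_⟩
            unfold EP
            rw [Finset.mem_filter, Finset.mem_Icc]
            exact ⟨⟨hr'.1.one_lt.le, by omega⟩, hr'⟩
        · push Not at huniq
          obtain ⟨r', hr', hr'E, hne⟩ := huniq
          rcases lt_or_gt_of_ne hne with hlt | hgt
          · exact Or.inl (Or.inl (Or.inl (Or.inr
              ⟨h1n, hnX, hP, hcard', r', r, hr', hlt, hr'E, hrE⟩)))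
          · exact Or.inl (Or.inl (Or.inl (Or.inr
              ⟨h1n, hnX, hP, hcard', r, r', hr, hgt, hrE, hr'E⟩)))
      · push Not at hex
        exact Or.inr ⟨h1n, hnX, hcard', hex⟩

end Pool.Agent.Y346.PA
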