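import Pool.Agent.W114.PQ.Full
import Pool.Agent.W114.PQ.Trans
import Pool.Agent.Y241.PA.QR
import Pool.Agent.Y241.PA.TH
import Pool.Agent.Y241.PA.TH2
import Pool.Agent.Y241.PA.LD1
import Pool.Agent.Y241.PA.LD2
import Pool.Agent.Y241.PA.LD5
import Pool.Agent.Y809.PA.SH
import Pool.Agent.Y141.PA.SQ
import Pool.Agent.Y141.PA.E
import Pool.Agent.Y577.PA.SX
import Pool.Agent.Y577.PA.MM
import Pool.Agent.Y492.PA.H1b
import Pool.Agent.Y346.PA.KL
import Pool.Agent.Y346.PA.KS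
import Pool.Agent.Y346.PA.H1
import Pool.Agent.Y346.PA.H2
import Pool.Agent.Y346.PA.R1
import Pool.Agent.Y346.PA.R2
import Pool.Agent.Y346.PA.R3

set_option autoImplicit false

/-!
# Project PA: the main theorem and the application to point-transitive planes
-/

namespace Pool.Agent.Y346.PA

open Filter Topology Configuration Configuration.ProjectivePlane
open Pool.Agent.H951R4.OD (ch PI Ex)
open Pool.Agent.W114.PQ (Dat Ax Pass EP wX datP)
open Pool.Agent.H634R3.PPC Pool.Agent.H634R3.WG Pool.Agent.H634R3.WG.Final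

theorem ks_full : S_KS := ks kl

theorem h1_full : S_H1 :=
  h1 ks_full Pool.Agent.Y241.PA.th Pool.Agent.Y241.PA.qr Pool.Agent.Y241.PA.ld1
    Pool.Agent.Y241.PA.ld5 Pool.Agent.Y577.PA.t_SX Pool.Agent.Y577.PA.t_MM Pool.Agent.Y809.PA.sh

theorem h2_full : S_H2 :=
  h2 ks_full Pool.Agent.Y241.PA.th2 Pool.Agent.Y241.PA.ld2 Pool.Agent.Y577.PA.t_SX
    Pool.Agent.Y577.PA.t_MM

theorem r3_full : S_R3 :=
  r3 (Pool.Agent.Y141.PA.te Pool.Agent.Y809.PA.sh Pool.Agent.Y141.PA.S_SQ)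
    Pool.Agent.Y492.PA.h1b h1_full h2_full

/-- almost all integers `n = 0, 3 (mod 4)` which pass the tests are primes -/
theorem mainq_full : S_MAINQ :=
  mainq r1 r2 r3_full Pool.Agent.W114.PQ.dp Pool.Agent.W114.PQ.b Pool.Agent.W114.PQ.c1
    Pool.Agent.W114.PQ.c2 Pool.Agent.W114.PQ.e

/-- solvable groups, all residue classes -/
theorem pass_solvQ {n : ℕ} (h : HasSolvTrans n) : Pass datQ n := by
  classical
  have hc : datQ.c0 = 6 := rfl
  obtain ⟨P, L, _, _, _, _, G, _, _, _, _, hsol, hn, hinc, htr⟩ := h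
  have : Fintype P := Fintype.ofFinite P
  have : Fintype L := Fintype.ofFinite L
  have : Fintype G := Fintype.ofFinite G
  have hcard := card_points P L
  rw [hn] at hcard
  refine ⟨?_, ?_⟩
  · intro r q j hE hq hqc hT hj
    have hsp := Pool.Agent.W114.PQ.ex_split hE
    have hq2 : q ≠ 2 := by
      rintro rfl
      exact hqc (by rw [hc]; decide)
    refine solv_test hsol (plane_des (P := P) (L := L)) hinc htr hq
      (lt_of_le_of_ne hq.two_le (Ne.symm hq2)) ?_ ?_ ?_ hE.1 (j := j) hj odd_one (u := n / r)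
      hsp.2 (hn.trans hsp.1)
    · rw [hcard]
      exact hT.1
    · rw [hcard]
      exact hT.2
    · rw [hcard]
      have : n ^ 2 + n = n * (n + 1) := by ring
      rw [this]
      exact (Nat.even_mul_succ_self _).add_one
  · intro h0
    exfalso
    have : datQ.β = 0 := rfl
    rw [this] at h0
    norm_num at h0

theorem trans_all :
    Tendsto (fun X : ℕ => ({n : ℕ | n ≤ X ∧ ¬ IsPrimePow n ∧ HasTrans n}.ncard : ℝ) *
      Real.log X / X) atTop (𝓝 0) := by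
  have hb := Pool.Agent.W114.PQ.trans_app Pool.Agent.W114.PQ.main Pool.Agent.W114.PQ.dp
  have hq : Tendsto (fun X : ℕ => ({n : ℕ | 1 ≤ n ∧ n ≤ X ∧ Pass datQ n ∧
      (n % 4 = 0 ∨ n % 4 = 3) ∧ ¬ n.Prime}.ncard : ℝ) * Real.log X / X) atTop (𝓝 0) := mainq_full
  have h5 := (hb.add hq).add Pool.Agent.W114.PQ.squares_small
  rw [add_zero, add_zero] at h5
  refine squeeze_zero (fun X => ?_) (fun X => ?_) h5
  · have := Real.log_natCast_nonneg X
    positivity
  · have h6 := Real.log_natCast_nonneg X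
    have h7 : {n : ℕ | n ≤ X ∧ ¬ IsPrimePow n ∧ HasTrans n} ⊆
        ({n : ℕ | n ≤ X ∧ (n % 4 = 1 ∨ n % 4 = 2) ∧ ¬ IsPrimePow n ∧ HasTrans n} ∪
        {n : ℕ | 1 ≤ n ∧ n ≤ X ∧ Pass datQ n ∧ (n % 4 = 0 ∨ n % 4 = 3) ∧ ¬ n.Prime}) ∪
          {n : ℕ | 1 ≤ n ∧ n ≤ X ∧ IsSquare n} := by
      rintro n ⟨hnX, hnp, hT⟩
      by_cases h4 : n % 4 = 1 ∨ n % 4 = 2
      · exact Or.inl (Or.inl ⟨hnX, h4, hnp, hT⟩)
      · have hn1 : 1 ≤ n := by
          obtain ⟨P, L, _, _, _, _, G, _, _, _, _, _, hn, _⟩ := hT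
          have : Fintype P := Fintype.ofFinite P
          have : Fintype L := Fintype.ofFinite L
          rw [← hn]
          exact (one_lt_order P L).le
        rcases cases main_step hT with h | h | h
        · exact Or.inl (Or.inr ⟨hn1, hnX, pass_solvQ h, by omega, fun hp => hnp hp.isPrimePow⟩)
        · exact Or.inr ⟨hn1, hnX, h⟩
        · exact absurd h hnp
    have hf1 : {n : ℕ | n ≤ X ∧ (n % 4 = 1 ∨ n % 4 = 2) ∧ ¬ IsPrimePow n ∧ HasTrans n}.Finite :=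
      (Set.finite_Iic X).subset fun n hn => hn.1
    have h8 : (({n : ℕ | n ≤ X ∧ ¬ IsPrimePow n ∧ HasTrans n}.ncard : ℕ) : ℝ) ≤
        ({n : ℕ | n ≤ X ∧ (n % 4 = 1 ∨ n % 4 = 2) ∧ ¬ IsPrimePow n ∧ HasTrans n}.ncard : ℝ) +
        ({n : ℕ | 1 ≤ n ∧ n ≤ X ∧ Pass datQ n ∧ (n % 4 = 0 ∨ n % 4 = 3) ∧ ¬ n.Prime}.ncard : ℝ) +
          ({n : ℕ | 1 ≤ n ∧ n ≤ X ∧ IsSquare n}.ncard : ℝ) := by
      have h9 := (Set.ncard_le_ncard h7 ((hf1.union (Pool.Agent.W114.PQ.finX _ X)).union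
        (Pool.Agent.W114.PQ.finX _ X))).trans (Set.ncard_union_le _ _)
      have h10 := h9.trans (Nat.add_le_add_right (Set.ncard_union_le _ _) _)
      exact_mod_cast h10
    rw [← add_div, ← add_mul, ← add_div, ← add_mul]
    gcongr

end Pool.Agent.Y346.PA
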