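import Pool.Agent.Y346.PA.CIb

/-!
# Project PA: counting in classes
-/

set_option autoImplicit false

namespace Pool.Agent.Y346.PA

open Finset
open Pool.Agent.H951R4.OD (ch PI Ex)
open Pool.Agent.W114.PQ (Dat Ax Pass EP wX datP)
open scoped Classical

/-- at most two roots -/
theorem roots_le (q a : ℕ) (hq : q.Prime) (h6 : ¬ q ∣ 6) (ha : ¬ q ∣ a) :
    ((range q).filter (fun ν : ℕ => q ∣ (a * ν) ^ 2 + a * ν + 1)).card ≤ 2 := by
  have h1 := Pool.Agent.W613.PQDp.card_q q hq h6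
  have h2 : (((range q).filter (fun n : ℕ => q ∣ n ^ 2 + n + 1)).card : ℝ) ≤ 2 := by
    rw [h1]
    have h3 := axQ'.rho_up q
    exact h3.2
  have h3 : ((range q).filter (fun n : ℕ => q ∣ n ^ 2 + n + 1)).card ≤ 2 := by exact_mod_cast h2
  refine le_trans ?_ h3
  have hcop : Nat.Coprime a q := by
    rw [Nat.coprime_comm]
    exact (hq.coprime_iff_not_dvd).2 ha
  apply card_le_card_of_injOn (fun ν => (a * ν) % q)
  · intro ν hν
    rw [mem_coe, mem_filter, mem_range] at hν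
    rw [mem_coe, mem_filter, mem_range]
    refine ⟨Nat.mod_lt _ hq.pos, ?_⟩
    have h4 := Nat.div_add_mod (a * ν) q
    have h5 := (Pool.Agent.W613.PQDp.dvd_add_mul q ((a * ν) % q) ((a * ν) / q)).1
    apply h5
    have h6 : (a * ν) % q + q * ((a * ν) / q) = a * ν := by omega
    rw [h6]
    exact hν.2
  · intro ν hν ν' hν' h
    rw [mem_coe, mem_filter, mem_range] at hν hν'
    have h4 : a * ν ≡ a * ν' [MOD q] := h
    have h5 : ν ≡ ν' [MOD q] := Nat.ModEq.cancel_left_of_coprime (by rwa [Nat.gcd_comm]) h4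
    exact Nat.ModEq.eq_of_lt_of_lt h5 hν.1 hν'.1

/-- the logarithmic saving of the sieve -/
noncomputable def sg (S : Finset ℕ) (c1 c2 : ℕ → Prop) : ℝ :=
  ∑ p ∈ S, (if c1 p then 1 / (p : ℝ) else 0) + ∑ p ∈ S, (if c2 p then datQ.ρ p / p else 0)

theorem count_classes (Cs : ℝ) (hCs : 1 ≤ Cs) (hs : SieveAP Cs) (A : Set ℕ) (X Pr q0 z : ℕ)
    (S : Finset ℕ) (c1 c2 : ℕ → Prop) (hPr0 : 0 < Pr) (hq0 : q0.Prime) (h6 : ¬ q0 ∣ 6)
    (hq0Pr : ¬ q0 ∣ Pr) (hz : 3 ≤ z) (hXa : Pr * q0 ≤ X)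
    (hlog : Cs * Real.log z * (1 + Real.log (Real.log z)) ≤
      Real.log ((X : ℝ) / ((Pr * q0 : ℕ) : ℝ)))
    (hA : ∀ n ∈ A, 1 ≤ n ∧ n ≤ X ∧ Pr ∣ n ∧ q0 ∣ n ^ 2 + n + 1)
    (hzero : ∀ n ∈ A, ∀ p ∈ S, GG c1 c2 p n = 0)
    (hS : ∀ p ∈ S, p.Prime ∧ p ≤ z ∧ ¬ p ∣ 6 ∧ ¬ p ∣ Pr * q0) :
    (A.ncard : ℝ) ≤ 4 * Cs * ((X : ℝ) / ((Pr * q0 : ℕ) : ℝ)) * Real.exp (-sg S c1 c2) := by
  set a : ℕ := Pr * q0 with ha
  have ha0 : 0 < a := Nat.mul_pos hPr0 hq0.pos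
  have har : (1 : ℝ) ≤ a := by exact_mod_cast ha0
  have hXr : (a : ℝ) ≤ X := by exact_mod_cast hXa
  set N : ℕ := X / a with hN
  have hN1 : (X : ℝ) / a < ((N + 1 : ℕ) : ℝ) := by
    rw [div_lt_iff₀ (by linarith)]
    have := Nat.lt_mul_div_succ X ha0
    rw [mul_comm]
    exact_mod_cast this
  have hlogN : Cs * Real.log z * (1 + Real.log (Real.log z)) ≤ Real.log ((N + 1 : ℕ) : ℝ) :=
    hlog.trans (Real.log_le_log (div_pos (by linarith) (by linarith)) hN1.le)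
  have hN2 : ((N + 1 : ℕ) : ℝ) ≤ 2 * (X / a) := by
    have h1 : ((N : ℕ) : ℝ) ≤ X / a := Nat.cast_div_le
    have h2 : (1 : ℝ) ≤ X / a := by
      rw [le_div_iff₀ (by linarith), one_mul]
      exact hXr
    push_cast
    linarith
  set Rt : Finset ℕ := (range q0).filter (fun ν : ℕ => q0 ∣ (Pr * ν) ^ 2 + Pr * ν + 1) with hRt
  set Fn : ℕ → Finset ℕ := fun ν => (range (N + 1)).filter
    (fun t => ∀ p ∈ S, GG c1 c2 p (a * t + Pr * ν) = 0) with hFn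
  have hsub : A ⊆ ((Rt.biUnion (fun ν => (Fn ν).image (fun t => a * t + Pr * ν)) : Finset ℕ) :
      Set ℕ) := by
    intro n hn
    obtain ⟨hn1, hnX, ⟨m, rfl⟩, hnq⟩ := hA n hn
    have hm : q0 * (m / q0) + m % q0 = m := Nat.div_add_mod m q0
    have hn' : a * (m / q0) + Pr * (m % q0) = Pr * m := by
      calc a * (m / q0) + Pr * (m % q0) = Pr * (q0 * (m / q0) + m % q0) := by
            rw [ha]
            ring
        _ = Pr * m := by rw [hm]
    rw [mem_coe, mem_biUnion]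
    refine ⟨m % q0, ?_, ?_⟩
    · rw [hRt, mem_filter, mem_range]
      refine ⟨Nat.mod_lt _ hq0.pos, ?_⟩
      apply (Pool.Agent.W613.PQDp.dvd_add_mul q0 (Pr * (m % q0)) (Pr * (m / q0))).1
      have h2 : Pr * (m % q0) + q0 * (Pr * (m / q0)) = Pr * m := by
        rw [← hn', ha]
        ring
      rw [h2]
      exact hnq
    · rw [mem_image]
      refine ⟨m / q0, ?_, hn'⟩
      rw [hFn]
      simp only
      rw [mem_filter, mem_range]
      refine ⟨?_, fun p hp => ?_⟩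
      · have h2 : m / q0 ≤ N := by
          rw [hN, Nat.le_div_iff_mul_le ha0]
          have h3 : a * (m / q0) ≤ Pr * m := by omega
          linarith
        omega
      · rw [hn']
        exact hzero _ hn p hp
  have hcard : (A.ncard : ℝ) ≤ ∑ ν ∈ Rt, ((Fn ν).card : ℝ) := by
    have h1 := Set.ncard_le_ncard hsub (finite_toSet _)
    rw [Set.ncard_coe_finset] at h1
    have h2 : A.ncard ≤ ∑ ν ∈ Rt, (Fn ν).card := by
      refine h1.trans (card_biUnion_le.trans (sum_le_sum fun ν _ => card_image_le))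
    exact_mod_cast h2
  have hRtc : (Rt.card : ℝ) ≤ 2 := by exact_mod_cast roots_le q0 Pr hq0 h6 hq0Pr
  have hFb : ∀ ν ∈ Rt, ((Fn ν).card : ℝ) ≤
      Cs * ((N + 1 : ℕ) : ℝ) * Real.exp (-sg S c1 c2) := fun ν _ =>
    hs z N a (Pr * ν) S c1 c2 hz hlogN hS
  have hCs0 : 0 ≤ Cs := by linarith
  calc (A.ncard : ℝ) ≤ ∑ ν ∈ Rt, ((Fn ν).card : ℝ) := hcard
    _ ≤ ∑ ν ∈ Rt, Cs * ((N + 1 : ℕ) : ℝ) * Real.exp (-sg S c1 c2) := sum_le_sum hFb
    _ = Rt.card * (Cs * ((N + 1 : ℕ) : ℝ) * Real.exp (-sg S c1 c2)) := by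
        rw [sum_const, nsmul_eq_mul]
    _ ≤ 2 * (Cs * (2 * (X / a)) * Real.exp (-sg S c1 c2)) := by gcongr
    _ = _ := by ring

theorem sum_sub_aux (f : ℕ → ℝ) (hf : ∀ p, 0 ≤ f p) (A B E S : Finset ℕ) (c : ℕ → Prop)
    (hAB : Disjoint A B) (hsub : ∀ p ∈ A ∪ B, (p ∈ S ∧ c p) ∨ p ∈ E) :
    ∑ p ∈ A, f p + ∑ p ∈ B, f p ≤ ∑ p ∈ S, (if c p then f p else 0) + ∑ p ∈ E, f p := by
  have hsub' : A ∪ B ⊆ S.filter c ∪ E := by
    intro p hp
    rw [mem_union, mem_filter]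
    exact hsub p hp
  rw [← sum_union hAB, ← sum_filter]
  refine le_trans (sum_le_sum_of_subset_of_nonneg hsub' fun p _ _ => hf p) ?_
  rw [← sum_union_inter]
  have : 0 ≤ ∑ p ∈ S.filter c ∩ E, f p := sum_nonneg fun p _ => hf p
  linarith

theorem not_dvd_six (p : ℕ) (hp : p.Prime) (h3 : 3 < p) : ¬ p ∣ 6 := by
  intro h
  have h1 := Nat.le_of_dvd (by norm_num) h
  have h4 : p = 4 ∨ p = 5 ∨ p = 6 := by omega
  rcases h4 with rfl | rfl | rfl
  · revert hp; decide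
  · revert h; decide
  · revert hp; decide

theorem three_lt (p : ℕ) (hp : p.Prime) (h6 : ¬ p ∣ 6) : 3 < p := by
  by_contra hc
  have h1 := hp.two_le
  have h4 : p = 2 ∨ p = 3 := by omega
  rcases h4 with rfl | rfl
  · exact h6 (by norm_num)
  · exact h6 (by norm_num)

theorem rho_nonneg (p : ℕ) : (0 : ℝ) ≤ datQ.ρ p / (p : ℝ) :=
  div_nonneg (axQ'.rho_up p).1 (Nat.cast_nonneg p)

theorem LL_ge (t : ℕ) : 1 ≤ LL t := by
  unfold LL
  rw [Real.le_log_iff_exp_le (by positivity)]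
  have h1 : (3 : ℝ) ≤ ((max t 3 : ℕ) : ℝ) := by exact_mod_cast le_max_right t 3
  have := Real.exp_one_lt_d9
  linarith

/-- all primes up to `q` -/
theorem rho_small : ∃ C : ℝ, 0 ≤ C ∧ ∀ q : ℕ, 3 < q →
    Real.log (LL q) - C ≤ ∑ p ∈ PI 3 (q - 1), datQ.ρ p / (p : ℝ) := by
  obtain ⟨Cm, hmert⟩ := axQ'.mert
  have hτ : datQ.τ = 1 := rfl
  have hCm0 : 0 ≤ Cm := le_trans (abs_nonneg _) (hmert 2 2 le_rfl le_rfl)
  refine ⟨Cm + 2, by linarith, ?_⟩
  intro q hq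
  have h1 := (abs_le.1 (hmert 3 (q - 1) (by norm_num) (by omega))).1
  rw [hτ, one_mul] at h1
  have hq05 : (4 : ℝ) ≤ q := by exact_mod_cast (by omega : 4 ≤ q)
  have h2 : ((q - 1 : ℕ) : ℝ) = q - 1 := by
    rw [Nat.cast_sub (by omega)]
    simp
  have h3 : LL q = Real.log q := by
    unfold LL
    rw [max_eq_left (by omega)]
  have h4 : Real.log q ≤ 2 * Real.log ((q - 1 : ℕ) : ℝ) := by
    rw [h2]
    have h5 : (q : ℝ) ≤ ((q : ℝ) - 1) ^ 2 := by nlinarith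
    have h6 := Real.log_le_log (by linarith) h5
    rw [Real.log_pow] at h6
    exact_mod_cast h6
  have hl3 : 0 < Real.log ((3 : ℕ) : ℝ) := Real.log_pos (by norm_num)
  have hl3' : Real.log ((3 : ℕ) : ℝ) ≤ 2 := by
    have := Real.log_le_sub_one_of_pos (show (0 : ℝ) < ((3 : ℕ) : ℝ) by norm_num)
    norm_num at this ⊢
    linarith
  have hlq : 1 ≤ Real.log q := by rw [← h3]; exact LL_ge q
  have h7 : Real.log q / 4 ≤ Real.log ((q - 1 : ℕ) : ℝ) / Real.log ((3 : ℕ) : ℝ) := by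
    rw [div_le_div_iff₀ (by norm_num) hl3]
    nlinarith
  have h8 := Real.log_le_log (by positivity) h7
  rw [Real.log_div (by linarith) (by norm_num)] at h8
  have h9 : Real.log 4 ≤ 2 := by
    have h10 : Real.log 4 = 2 * Real.log 2 := by
      rw [show (4 : ℝ) = 2 ^ 2 by norm_num, Real.log_pow]
      norm_num
    have := Real.log_two_lt_d9
    linarith
  rw [h3]
  linarith

end Pool.Agent.Y346.PA
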