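import Pool.Agent.Y346.PA.CId

/-!
# Project PA, task CI
-/

set_option autoImplicit false

namespace Pool.Agent.Y346.PA

open Finset
open Pool.Agent.H951R4.OD (ch PI Ex)
open Pool.Agent.W114.PQ (Dat Ax Pass EP wX datP)
open scoped Classical

/-- the set of task CI -/
def AA (X q0 : ℕ) (ps : Finset ℕ) : Set ℕ :=
  {n : ℕ | 1 ≤ n ∧ n ≤ X ∧ Pass datQ n ∧ (∀ p ∈ ps, Ex 6 n p) ∧
      (∀ p : ℕ, Ex 6 n p → p ≤ ps.sup id → p ∈ ps) ∧ TT q0 n ∧ ∀ q : ℕ, TT q n → q0 ≤ q}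

theorem ci_zero (X q0 z Y : ℕ) (ps : Finset ℕ) (hq0 : q0.Prime) (h6 : ¬ q0 ∣ 6) (n : ℕ)
    (hn : n ∈ AA X q0 ps) (p : ℕ) (hp : p ∈ SS ps q0 z) :
    GG (CC1 (ps.sup id) q0 Y) (CC2 ps q0 Y) p n = 0 := by
  rw [mem_SS] at hp
  obtain ⟨h1, h2, h3, h4, h5⟩ := hp
  obtain ⟨hn1, hnX, hpass, hex, hmin, hTT, hTTmin⟩ := hn
  have hp3 := three_lt p h1 h3
  unfold GG
  rw [if_neg]
  rintro (⟨hcc, h7, h8⟩ | ⟨hcc, h7⟩)
  · have hEx : Ex 6 n p := ⟨h1, h3, h7, h8⟩
    rcases hcc with h | ⟨-, h⟩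
    · exact h4 (hmin p hEx h)
    · have hq02 : q0 ≠ 2 := by
        rintro rfl
        exact h6 (by norm_num)
      exact hpass.1 p q0 ((q0 - 1) / 2) hEx hq0 h6 ⟨hTT.2.2.1, hTT.2.2.2⟩
        ((Pool.Agent.H951R4.OD.ch_eq_neg_one_iff p q0 hq0 hq02).1 h)
  · rcases hcc with h | ⟨-, r, hr, h⟩
    · have := hTTmin p ⟨h1, hp3, h7.1, h7.2⟩
      omega
    · exact hpass.1 r p ((p - 1) / 2) (hex r hr) h1 h3 h7
        ((Pool.Agent.H951R4.OD.ch_eq_neg_one_iff r p h1 (by omega)).1 h)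

theorem ci : S_CI := by
  obtain ⟨Cs, hCs, hsieve⟩ := sieve_ap
  obtain ⟨C', K, hC', hK, hlow⟩ := ci_low
  set C2 : ℝ := 4 * Cs * Real.exp C' * K ^ (5 / 4 : ℝ) with hC2
  have hC20 : 0 ≤ C2 := by positivity
  refine ⟨C2 + Cs + 4, by linarith, ?_⟩
  intro w z X q0 hw hwz hX hq0 hq03 hq0z ps hpk hps
  have hz : 3 ≤ z := hw.trans hwz
  have hz3 : (3 : ℝ) ≤ z := by exact_mod_cast hz
  have hps' : ∀ p ∈ ps, p.Prime ∧ p ≤ z := fun p hp => ⟨(hps p hp).1, (hps p hp).2.trans hwz⟩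
  obtain ⟨Y, hPY, hqY, hl⟩ := hlow z q0 hz hq0 hq03 hq0z ps hpk hps'
  set Pr : ℕ := ∏ p ∈ ps, p with hPr
  set P : ℕ := ps.sup id with hP
  have hlz : 1 ≤ Real.log z := by
    have hexp1 := Real.exp_one_lt_d9
    rw [Real.le_log_iff_exp_le (by linarith)]; linarith
  have hllz : 0 ≤ Real.log (Real.log z) := Real.log_nonneg hlz
  have hPr0 : 0 < Pr := prod_pos fun p hp => (hps p hp).1.pos
  have hprod : (∏ p ∈ ps, (p : ℝ)) = (Pr : ℝ) := by rw [hPr]; push_cast; rfl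
  have hPrr : (1 : ℝ) ≤ Pr := by exact_mod_cast hPr0
  have hq0r : (1 : ℝ) ≤ q0 := by exact_mod_cast hq0.pos
  have hLP := LL_ge P
  have hLq := LL_ge q0
  set M : ℝ := max (LL P) (LL q0) with hM
  have hM1 : 1 ≤ M := le_trans hLP (le_max_left _ _)
  have h6 : ¬ q0 ∣ 6 := not_dvd_six q0 hq0 hq03
  have hmain : ((AA X q0 ps).ncard : ℝ) ≤
      C2 * (X / (q0 * (Pr : ℝ))) / (LL P * LL q0) * (M / Real.log z) ^ (5 / 4 : ℝ) := by
    have hRHS : 0 ≤ C2 * (X / (q0 * (Pr : ℝ))) / (LL P * LL q0) *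
        (M / Real.log z) ^ (5 / 4 : ℝ) := by positivity
    by_cases hq0ps : q0 ∈ ps
    · have hAe : AA X q0 ps = ∅ := by
        rw [Set.eq_empty_iff_forall_notMem]
        intro n hn
        exact not_both q0 n hq0 (hn.2.2.2.1 q0 hq0ps).2.2.1
          ⟨hn.2.2.2.2.2.1.2.2.1, hn.2.2.2.2.2.1.2.2.2⟩
      rw [hAe, Set.ncard_empty, Nat.cast_zero]
      exact hRHS
    have hq0Pr : ¬ q0 ∣ Pr := by
      intro h
      obtain ⟨p, hp, hpq⟩ := (hq0.prime.dvd_finsetProd_iff _).1 h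
      exact hq0ps (((Nat.prime_dvd_prime_iff_eq hq0 (hps p hp).1).1 hpq) ▸ hp)
    -- sizes
    set LZ : ℝ := Real.log z * (1 + Real.log (Real.log z)) with hLZ
    have hL1 : Real.log z ≤ LZ := by nlinarith
    have hLZ1 : 1 ≤ LZ := hlz.trans hL1
    have hXLZ : (C2 + Cs + 4) * LZ ≤ Real.log X := by
      rw [hLZ, ← mul_assoc]
      exact hX
    have hC2LZ : 0 ≤ C2 * LZ := by positivity
    have hCsLZ : 0 ≤ Cs * LZ := by positivity
    have hXLZ' : C2 * LZ + Cs * LZ + 4 * LZ ≤ Real.log X := by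
      refine le_trans (le_of_eq ?_) hXLZ
      ring
    have hX0 : 0 < Real.log X := by linarith
    have hXpos : (1 : ℝ) < X := by
      by_contra hcon
      push Not at hcon
      have := Real.log_nonpos (Nat.cast_nonneg X) hcon
      linarith
    have haz : Pr * q0 ≤ z ^ 4 := by
      have hPrz : Pr ≤ z ^ 3 := by
        have := Finset.prod_le_pow_card ps (fun p => p) z (fun p hp => (hps' p hp).2)
        rw [hpk] at this
        exact this
      calc Pr * q0 ≤ z ^ 3 * z := Nat.mul_le_mul hPrz hq0z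
        _ = z ^ 4 := by ring
    have har : (1 : ℝ) ≤ ((Pr * q0 : ℕ) : ℝ) := by
      exact_mod_cast Nat.mul_pos hPr0 hq0.pos
    have hloga : Real.log ((Pr * q0 : ℕ) : ℝ) ≤ 4 * Real.log z := by
      have h1 : ((Pr * q0 : ℕ) : ℝ) ≤ (z : ℝ) ^ 4 := by exact_mod_cast haz
      have h2 := Real.log_le_log (by linarith) h1
      rw [Real.log_pow] at h2
      exact_mod_cast h2
    have hXa : Pr * q0 ≤ X := by
      have h1 : Real.log ((Pr * q0 : ℕ) : ℝ) ≤ Real.log X := by linarith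
      have h2 := (Real.log_le_log_iff (by linarith) (by linarith)).1 h1
      exact_mod_cast h2
    have hlog : Cs * Real.log z * (1 + Real.log (Real.log z)) ≤
        Real.log ((X : ℝ) / ((Pr * q0 : ℕ) : ℝ)) := by
      rw [Real.log_div (by linarith) (by linarith), mul_assoc, ← hLZ]
      linarith
    have hcc := count_classes Cs hCs hsieve (AA X q0 ps) X Pr q0 z (SS ps q0 z) (CC1 P q0 Y)
      (CC2 ps q0 Y) hPr0 hq0 h6 hq0Pr hz hXa hlog (by
        intro n hn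
        refine ⟨hn.1, hn.2.1, ?_, hn.2.2.2.2.2.1.2.2.1⟩
        rw [hPr]
        apply Finset.prod_primes_dvd
        · intro p hp; exact (hps p hp).1.prime
        · intro p hp; exact (hn.2.2.2.1 p hp).2.2.1) (by
        intro n hn p hp
        exact ci_zero X q0 z Y ps hq0 h6 n hn p hp) (by
        intro p hp
        rw [mem_SS] at hp
        obtain ⟨h1, h2, h3, h4, h5⟩ := hp
        refine ⟨h1, h2, h3, ?_⟩
        rw [h1.dvd_mul]
        rintro (h | h)
        · obtain ⟨r, hr, hpr⟩ := (h1.prime.dvd_finsetProd_iff _).1 h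
          exact h4 (((Nat.prime_dvd_prime_iff_eq h1 (hps r hr).1).1 hpr) ▸ hr)
        · exact h5 ((Nat.prime_dvd_prime_iff_eq h1 hq0).1 h))
    have hexp : Real.exp (-sg (SS ps q0 z) (CC1 P q0 Y) (CC2 ps q0 Y)) ≤
        Real.exp C' * K ^ (5 / 4 : ℝ) *
        (1 / (LL P * LL q0) * (M / Real.log z) ^ (5 / 4 : ℝ)) := by
      have hKM : 0 < K * M := by positivity
      have e1 : Real.exp C' * K ^ (5 / 4 : ℝ) * (1 / (LL P * LL q0) *
          (M / Real.log z) ^ (5 / 4 : ℝ)) = Real.exp (C' - Real.log (LL P) - Real.log (LL q0) -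
            5 / 4 * (Real.log (Real.log z) - Real.log (K * M))) := by
        have e2 : C' - Real.log (LL P) - Real.log (LL q0) -
            5 / 4 * (Real.log (Real.log z) - Real.log (K * M)) =
            C' + -Real.log (LL P) + -Real.log (LL q0) + Real.log (K * M) * (5 / 4) +
              -(Real.log (Real.log z) * (5 / 4)) := by ring
        rw [e2, Real.exp_add, Real.exp_add, Real.exp_add, Real.exp_add, Real.exp_neg,
          Real.exp_neg (Real.log (LL q0)), Real.exp_neg, Real.exp_log (by linarith),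
          Real.exp_log (by linarith), ← Real.rpow_def_of_pos hKM,
          ← Real.rpow_def_of_pos (by linarith : 0 < Real.log z),
          Real.mul_rpow (by positivity) (by positivity),
          Real.div_rpow (by positivity) (by positivity)]
        field_simp
      rw [e1]
      apply Real.exp_le_exp.2
      linarith
    have har' : ((Pr * q0 : ℕ) : ℝ) = q0 * Pr := by
      push_cast
      ring
    calc ((AA X q0 ps).ncard : ℝ) ≤ 4 * Cs * ((X : ℝ) / ((Pr * q0 : ℕ) : ℝ)) *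
          Real.exp (-sg (SS ps q0 z) (CC1 P q0 Y) (CC2 ps q0 Y)) := hcc
      _ ≤ 4 * Cs * ((X : ℝ) / ((Pr * q0 : ℕ) : ℝ)) * (Real.exp C' * K ^ (5 / 4 : ℝ) *
        (1 / (LL P * LL q0) * (M / Real.log z) ^ (5 / 4 : ℝ))) := by gcongr
      _ = _ := by
        rw [hC2, har']
        ring
  rw [hprod]
  refine le_trans hmain ?_
  gcongr
  linarith

end Pool.Agent.Y346.PA
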