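import Pool.Agent.Y346.PA.Stm2
import Pool.Agent.W114.PQ.Full

/-!
# Project PA: tools for the classical sieves
-/

set_option autoImplicit false

namespace Pool.Agent.Y346.PA

open Finset
open Pool.Agent.H951R4.OD (ch PI Ex)
open Pool.Agent.W114.PQ (Dat Ax Pass EP wX datP)
open scoped Classical

theorem axQ' : Ax datQ where
  c0_pos := Pool.Agent.W114.PQ.dp.c0_pos
  two := Pool.Agent.W114.PQ.dp.two
  m_odd := Pool.Agent.W114.PQ.dp.m_odd
  e01 := Pool.Agent.W114.PQ.dp.e01
  neg := Pool.Agent.W114.PQ.dp.neg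
  κ1 := Pool.Agent.W114.PQ.dp.κ1
  τ1 := Pool.Agent.W114.PQ.dp.τ1
  β01 := Or.inl rfl
  rho_low := Pool.Agent.W114.PQ.dp.rho_low
  rho_up := Pool.Agent.W114.PQ.dp.rho_up
  per := Pool.Agent.W114.PQ.dp.per
  ord := Pool.Agent.W114.PQ.dp.ord
  cnt := Pool.Agent.W114.PQ.dp.cnt
  mert := Pool.Agent.W114.PQ.dp.mert

/-- affine substitution in a complete sum -/
theorem affine_sum (M a b : ℕ) (hM : 0 < M) (ha : Nat.Coprime a M) (g : ℕ → ℝ)
    (hg : ∀ n, g (n + M) = g n) :
    ∑ t ∈ range M, g (a * t + b) = ∑ n ∈ range M, g n := by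
  have hper : Function.Periodic g M := hg
  have hinj : Set.InjOn (fun t => (a * t + b) % M) (range M : Set ℕ) := by
    intro t ht t' ht' h
    rw [coe_range, Set.mem_Iio] at ht ht'
    have h1 : a * t + b ≡ a * t' + b [MOD M] := h
    have h2 : a * t ≡ a * t' [MOD M] := Nat.ModEq.add_right_cancel' b h1
    have h3 : t ≡ t' [MOD M] := Nat.ModEq.cancel_left_of_coprime (by rwa [Nat.gcd_comm]) h2
    exact Nat.ModEq.eq_of_lt_of_lt h3 ht ht'
  have himg : (range M).image (fun t => (a * t + b) % M) = range M := by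
    apply eq_of_subset_of_card_le
    · intro n hn
      rw [mem_image] at hn
      obtain ⟨t, _, rfl⟩ := hn
      rw [mem_range]
      exact Nat.mod_lt _ hM
    · rw [card_image_of_injOn hinj]
  calc ∑ t ∈ range M, g (a * t + b) = ∑ t ∈ range M, g ((a * t + b) % M) := by
        apply sum_congr rfl
        intro t _
        rw [hper.map_mod_nat]
    _ = ∑ n ∈ (range M).image (fun t => (a * t + b) % M), g n := by
        rw [sum_image hinj]
    _ = _ := by rw [himg]

/-- reciprocity -/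
theorem ch_flip (q p : ℕ) (hq : q % 2 = 1) (hp : p % 2 = 1) :
    ch (p : ℤ) q = ch (if q % 4 = 1 then (q : ℤ) else -q) p := by
  have hqo : Odd q := Nat.odd_iff.2 hq
  have hpo : Odd p := Nat.odd_iff.2 hp
  unfold Pool.Agent.H951R4.OD.ch
  rw [if_pos hq, if_pos hp]
  congr 1
  have h4 : q % 4 = 1 ∨ q % 4 = 3 := by omega
  rcases h4 with h | h
  · rw [if_pos h]
    exact (jacobiSym.quadratic_reciprocity_one_mod_four h hpo).symm
  · rw [if_neg (by omega)]
    have hneg : jacobiSym (-(q : ℤ)) p = jacobiSym (-1) p * jacobiSym q p := by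
      rw [← jacobiSym.mul_left]
      congr 1
      ring
    rw [hneg, jacobiSym.at_neg_one hpo]
    have hp4 : p % 4 = 1 ∨ p % 4 = 3 := by omega
    rcases hp4 with hp' | hp'
    · rw [ZMod.χ₄_nat_one_mod_four hp', one_mul]
      exact jacobiSym.quadratic_reciprocity_one_mod_four hp' hqo
    · rw [ZMod.χ₄_nat_three_mod_four hp', jacobiSym.quadratic_reciprocity_three_mod_four hp' h]
      ring

/-- primes which are nonresidues modulo a given prime -/
theorem nonres_sum : ∃ C : ℝ, 3 ≤ C ∧ ∀ q : ℕ, q.Prime → q ≠ 2 → ∀ y z : ℕ,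
    C * (q : ℝ) ^ 2 ≤ y → y ≤ z → 1 / 2 * Real.log (Real.log z / Real.log y) - C ≤
      ∑ p ∈ (PI y z).filter (fun p : ℕ => ch (p : ℤ) q = -1), 1 / (p : ℝ) := by
  obtain ⟨C1, hC1, h1⟩ := Pool.Agent.H951R4.OD.mert_int
  obtain ⟨C2, hC2, h2⟩ := Pool.Agent.H951R4.OD.char_sum_le
  refine ⟨C1 + 16 * C2 + 1, by linarith, ?_⟩
  intro q hq hq2 y z hy hyz
  have hq1 : 1 ≤ q := hq.pos
  have hqr : (2 : ℝ) ≤ q := by exact_mod_cast hq.two_le
  have hqodd : q % 2 = 1 := by
    rcases hq.eq_two_or_odd with h | h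
    · exact absurd h hq2
    · exact h
  set D : ℤ := if q % 4 = 1 then (q : ℤ) else -q with hD
  have hDabs : |(D : ℝ)| = q := by
    rw [hD]
    split_ifs <;> simp
  have hDsq : ¬ IsSquare D := by
    rintro ⟨r, hr⟩
    have h5 : (q : ℤ) ∣ r * r := by
      rw [← hr, hD]
      split_ifs
      · exact dvd_refl _
      · exact (dvd_neg).2 (dvd_refl _)
    have h6 : (q : ℤ) ∣ r := by
      rcases (Nat.prime_iff_prime_int.1 hq).dvd_or_dvd h5 with h | h <;> exact h
    obtain ⟨s, rfl⟩ := h6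
    have h7 : D.natAbs = q := by
      rw [hD]
      split_ifs <;> simp
    rw [hr] at h7
    rw [Int.natAbs_mul, Int.natAbs_mul, Int.natAbs_natCast] at h7
    have h8 : q * (s.natAbs * (q * s.natAbs)) = q * 1 := by
      rw [mul_one]
      linarith
    have h9 := Nat.eq_of_mul_eq_mul_left hq.pos h8
    have h11 : q * (s.natAbs * s.natAbs) = 1 := by
      rw [← h9]
      ring
    have h10 : q ∣ 1 := Dvd.intro _ h11
    exact hq.one_lt.ne' (Nat.dvd_one.1 h10)
  have hchi := Pool.Agent.H951R4.OD.ch_chi D hDsq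
  rw [hDabs] at hchi
  have hy2 : C2 * (4 * (q : ℝ)) ^ 2 ≤ y := by
    refine le_trans ?_ hy
    have : (0 : ℝ) ≤ (q : ℝ) ^ 2 := by positivity
    nlinarith
  have hs := h2 (ch D) _ hchi y z hy2 hyz
  have hyq : (q : ℝ) < y := by nlinarith
  have hyq' : q < y := by exact_mod_cast hyq
  have hy2' : 2 ≤ y := by
    have := hq.two_le
    omega
  have hm := (abs_le.1 (h1 y z hy2' hyz)).1
  have hpt : ∀ p ∈ PI y z, (if ch ((p : ℕ) : ℤ) q = -1 then 1 / (p : ℝ) else 0) =
      1 / 2 * (1 / (p : ℝ)) - 1 / 2 * (ch D p / p) := by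
    intro p hp
    simp only [PI, mem_filter, mem_Ioc] at hp
    have hp2 : p % 2 = 1 := by
      rcases hp.2.eq_two_or_odd with h | h
      · omega
      · exact h
    rw [ch_flip q p hqodd hp2, ← hD]
    have hne0 : ch D p ≠ 0 := by
      unfold Pool.Agent.H951R4.OD.ch
      rw [if_pos hp2]
      have hDn : D.natAbs = q := by
        rw [hD]
        split_ifs <;> simp
      have : jacobiSym D p ≠ 0 := by
        apply jacobiSym.ne_zero
        rw [Int.gcd_eq_natAbs, hDn, Int.natAbs_natCast]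
        exact (Nat.coprime_primes hq hp.2).2 (by omega)
      exact_mod_cast this
    rcases hchi.val p with h | h | h
    · exact absurd h hne0
    · rw [h, if_neg (by norm_num)]
      ring
    · rw [h, if_pos rfl]
      ring
  rw [sum_filter, sum_congr rfl hpt, sum_sub_distrib, ← mul_sum, ← mul_sum]
  linarith

end Pool.Agent.Y346.PA
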