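import Pool.Agent.Y346.PA.CIa

/-!
# Project PA: the sieve in arithmetic progressions
-/

set_option autoImplicit false

namespace Pool.Agent.Y346.PA

open Finset
open Pool.Agent.H951R4.OD (ch PI Ex)
open Pool.Agent.W114.PQ (Dat Ax Pass EP wX datP)
open scoped Classical

/-- the tests at `p`: `c1` switches the test `p ∥ n`, and `c2` the test `p ∥ n² + n + 1` -/
noncomputable def GG (c1 c2 : ℕ → Prop) (p n : ℕ) : ℝ :=
  if (c1 p ∧ p ∣ n ∧ ¬ p ^ 2 ∣ n) ∨ (c2 p ∧ datQ.T p n) then 1 else 0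

theorem GG01 (c1 c2 : ℕ → Prop) (p n : ℕ) : GG c1 c2 p n = 0 ∨ GG c1 c2 p n = 1 := by
  unfold GG
  split_ifs <;> simp

theorem T_iff (p n : ℕ) : datQ.T p n ↔ (p ∣ n ^ 2 + n + 1 ∧ ¬ p ^ 2 ∣ n ^ 2 + n + 1) := Iff.rfl

theorem GG_per (c1 c2 : ℕ → Prop) (p n : ℕ) (hp : p.Prime) :
    GG c1 c2 p (n + p ^ 2) = GG c1 c2 p n := by
  have h1 : p ∣ n + p ^ 2 ↔ p ∣ n := (Nat.dvd_add_left (dvd_pow_self p (by norm_num)))
  have h2 : p ^ 2 ∣ n + p ^ 2 ↔ p ^ 2 ∣ n := (Nat.dvd_add_left (dvd_refl _))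
  have h3 : datQ.T p (n + p ^ 2) ↔ datQ.T p n := axQ'.per p n hp
  unfold GG
  simp only [h1, h2, h3]

theorem GG_per' (c1 c2 : ℕ → Prop) (p n k : ℕ) (hp : p.Prime) :
    GG c1 c2 p (n + p ^ 2 * k) = GG c1 c2 p n := by
  induction k with
  | zero => simp
  | succ k ih =>
    have e : n + p ^ 2 * (k + 1) = (n + p ^ 2 * k) + p ^ 2 := by ring
    rw [e, GG_per c1 c2 p _ hp, ih]

theorem not_both (p n : ℕ) (hp : p.Prime) (h1 : p ∣ n) (h2 : datQ.T p n) : False := by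
  have h3 : p ∣ n ^ 2 + n + 1 := h2.1
  have h4 : p ∣ n ^ 2 + n := dvd_add (dvd_pow h1 (by norm_num)) h1
  have h5 : p ∣ 1 := (Nat.dvd_add_right h4).1 h3
  exact hp.one_lt.ne' (Nat.dvd_one.1 h5)

theorem GG_mean (c1 c2 : ℕ → Prop) (p : ℕ) (hp : p.Prime) (h6 : ¬ p ∣ 6) :
    (if c1 p then 1 / (p : ℝ) else 0) + (if c2 p then datQ.ρ p / p else 0) - 3 / (p : ℝ) ^ 2 ≤
      (∑ n ∈ range (p ^ 2), GG c1 c2 p n) / (p : ℝ) ^ 2 ∧
    (∑ n ∈ range (p ^ 2), GG c1 c2 p n) / (p : ℝ) ^ 2 ≤ 5 / p := by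
  have hp0 : (0 : ℝ) < p := by exact_mod_cast hp.pos
  have hp1 : (1 : ℝ) ≤ p := by exact_mod_cast hp.one_lt.le
  have hcnt := axQ'.cnt p hp h6
  have hρ := axQ'.rho_up p
  have hκ : datQ.κ = 2 := rfl
  rw [hκ] at hcnt hρ
  have hsplit : ∑ n ∈ range (p ^ 2), GG c1 c2 p n =
      (if c1 p then ((p : ℝ) - 1) else 0) +
      (if c2 p then (((range (p ^ 2)).filter (fun n => datQ.T p n)).card : ℝ) else 0) := by
    have hterm : ∀ n ∈ range (p ^ 2), GG c1 c2 p n =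
        (if c1 p then (if (p ∣ n ∧ ¬ p ^ 2 ∣ n) then (1 : ℝ) else 0) else 0) +
        (if c2 p then (if datQ.T p n then (1 : ℝ) else 0) else 0) := by
      intro n _
      unfold GG
      by_cases hT : datQ.T p n
      · have hnd : ¬ p ∣ n := fun h => not_both p n hp h hT
        by_cases h1 : c1 p <;> by_cases h2 : c2 p <;> simp [hT, hnd, h1, h2]
      · by_cases h1 : c1 p <;> by_cases h2 : c2 p <;> simp [hT, h1, h2]
    rw [sum_congr rfl hterm, sum_add_distrib]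
    congr 1
    · by_cases h1 : c1 p
      · simp only [h1, if_true]
        rw [Pool.Agent.H951R4.OD.D2b_cnt1 hp]
      · simp only [h1, if_false, sum_const_zero]
    · by_cases h2 : c2 p
      · simp only [h2, if_true]
        rw [Finset.natCast_card_filter]
      · simp only [h2, if_false, sum_const_zero]
  have hc := abs_le.1 hcnt
  set N : ℝ := (((range (p ^ 2)).filter (fun n => datQ.T p n)).card : ℝ) with hN
  rw [hsplit]
  constructor
  · rw [le_div_iff₀ (by positivity)]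
    have e1 : ((if c1 p then 1 / (p : ℝ) else 0) + (if c2 p then datQ.ρ p / p else 0) -
        3 / (p : ℝ) ^ 2) * (p : ℝ) ^ 2 = (if c1 p then (p : ℝ) else 0) +
          (if c2 p then p * datQ.ρ p else 0) - 3 := by
      split_ifs <;> field_simp <;> ring
    rw [e1]
    split_ifs <;> linarith [hc.1]
  · rw [div_le_div_iff₀ (by positivity) hp0]
    have h7 : (p : ℝ) * datQ.ρ p ≤ p * 2 := mul_le_mul_of_nonneg_left hρ.2 hp0.le
    have h8 : (if c1 p then ((p : ℝ) - 1) else 0) + (if c2 p then N else 0) ≤ 5 * p := by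
      split_ifs <;> linarith [hc.2]
    nlinarith

/-- the statement of the sieve in an arithmetic progression -/
def SieveAP (C : ℝ) : Prop := ∀ (z N a b : ℕ) (S : Finset ℕ) (c1 c2 : ℕ → Prop), 3 ≤ z →
    C * Real.log z * (1 + Real.log (Real.log z)) ≤ Real.log ((N + 1 : ℕ) : ℝ) →
    (∀ p ∈ S, p.Prime ∧ p ≤ z ∧ ¬ p ∣ 6 ∧ ¬ p ∣ a) →
    (((range (N + 1)).filter (fun t => ∀ p ∈ S, GG c1 c2 p (a * t + b) = 0)).card : ℝ) ≤
      C * ((N + 1 : ℕ) : ℝ) * Real.exp (-(∑ p ∈ S, (if c1 p then 1 / (p : ℝ) else 0) +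
        ∑ p ∈ S, (if c2 p then datQ.ρ p / p else 0)))

/-- the sieve in an arithmetic progression -/
theorem sieve_ap : ∃ C : ℝ, 1 ≤ C ∧ SieveAP C := by
  obtain ⟨Cs, hCs, hsv⟩ := Pool.Agent.W114.PQ.sv 5 (by norm_num)
  obtain ⟨Cq, hCq, hsq⟩ := Pool.Agent.H951R4.OD.sum_sq_inv
  refine ⟨Cs * Real.exp (3 * Cq), ?_, ?_⟩
  · have h1 : 1 ≤ Real.exp (3 * Cq) := Real.one_le_exp (by positivity)
    nlinarith
  intro z N a b S c1 c2 hz hlog hS
  have hz3 : (3 : ℝ) ≤ z := by exact_mod_cast hz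
  have hlz : 0 ≤ Real.log z := Real.log_nonneg (by linarith)
  have hlz1 : 1 ≤ Real.log z := by
    rw [Real.le_log_iff_exp_le (by linarith)]
    have := Real.exp_one_lt_d9
    linarith
  have hllz : 0 ≤ Real.log (Real.log z) := Real.log_nonneg hlz1
  have hlog' : Cs * Real.log z * (1 + Real.log (Real.log z)) ≤ Real.log ((N + 1 : ℕ) : ℝ) := by
    refine le_trans ?_ hlog
    have h1 : 1 ≤ Real.exp (3 * Cq) := Real.one_le_exp (by positivity)
    have h2 : Cs ≤ Cs * Real.exp (3 * Cq) := by nlinarith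
    gcongr
  set h : ℕ → ℕ → ℝ := fun p t => GG c1 c2 p (a * t + (b + a * (p ^ 2 - 1))) with hh
  have hmean : ∀ p ∈ S, (∑ t ∈ range (p ^ 2), h p t) / (p : ℝ) ^ 2 =
      (∑ n ∈ range (p ^ 2), GG c1 c2 p n) / (p : ℝ) ^ 2 := by
    intro p hp
    obtain ⟨h1, h2, h3, h4⟩ := hS p hp
    congr 1
    rw [hh]
    simp only
    apply affine_sum (p ^ 2) a (b + a * (p ^ 2 - 1)) (pow_pos h1.pos 2)
    · apply Nat.Coprime.pow_right
      rw [Nat.coprime_comm]
      exact (h1.coprime_iff_not_dvd).2 h4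
    · intro n
      exact GG_per c1 c2 p n h1
  have hs := hsv z (N + 1) hz hlog' S h (fun p hp => ⟨(hS p hp).1, (hS p hp).2.1⟩)
    (fun p _ n => GG01 c1 c2 p _) (by
      intro p hp n
      rw [hh]
      simp only
      have e : a * (n + p ^ 2) + (b + a * (p ^ 2 - 1)) =
          (a * n + (b + a * (p ^ 2 - 1))) + p ^ 2 * a := by ring
      rw [e, GG_per' c1 c2 p _ _ (hS p hp).1]) (by
      intro p hp
      rw [hmean p hp]
      exact (GG_mean c1 c2 p (hS p hp).1 (hS p hp).2.2.1).2)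
  have hcard : (((range (N + 1)).filter (fun t => ∀ p ∈ S, GG c1 c2 p (a * t + b) = 0)).card : ℝ) ≤
      ∑ n ∈ Icc 1 (N + 1), ∏ p ∈ S, (1 - h p n) := by
    have h1 : ∑ n ∈ Icc 1 (N + 1), ∏ p ∈ S, (1 - h p n) =
        ∑ t ∈ range (N + 1), ∏ p ∈ S, (1 - h p (t + 1)) := by
      rw [Finset.range_eq_Ico, Finset.sum_Ico_add' (fun n => ∏ p ∈ S, (1 - h p n)) 0 (N + 1) 1]
      rfl
    rw [h1, Finset.natCast_card_filter]
    apply sum_le_sum
    intro t _
    have h2 : ∀ p ∈ S, h p (t + 1) = GG c1 c2 p (a * t + b) := by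
      intro p hp
      rw [hh]
      simp only
      have hp1 : 1 ≤ p ^ 2 := Nat.one_le_pow _ _ (hS p hp).1.pos
      obtain ⟨m, hm⟩ := Nat.exists_eq_add_of_le hp1
      have e : a * (t + 1) + (b + a * (p ^ 2 - 1)) = (a * t + b) + p ^ 2 * a := by
        rw [hm]
        have : 1 + m - 1 = m := by omega
        rw [this]
        ring
      rw [e, GG_per' c1 c2 p _ _ (hS p hp).1]
    rw [prod_congr rfl (fun p hp => by rw [h2 p hp])]
    split_ifs with h3
    · rw [prod_eq_one]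
      intro p hp
      rw [h3 p hp, sub_zero]
    · apply prod_nonneg
      intro p _
      rcases GG01 c1 c2 p (a * t + b) with h4 | h4 <;> rw [h4] <;> norm_num
  refine hcard.trans (hs.trans ?_)
  have hsum : (∑ p ∈ S, (if c1 p then 1 / (p : ℝ) else 0) +
        ∑ p ∈ S, (if c2 p then datQ.ρ p / p else 0)) - 3 * Cq ≤
      ∑ p ∈ S, (∑ n ∈ range (p ^ 2), h p n) / (p : ℝ) ^ 2 := by
    have h1 : ∀ p ∈ S, (if c1 p then 1 / (p : ℝ) else 0) +
        (if c2 p then datQ.ρ p / p else 0) - 3 * (1 / (p : ℝ) ^ 2) ≤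
          (∑ n ∈ range (p ^ 2), h p n) / (p : ℝ) ^ 2 := by
      intro p hp
      rw [hmean p hp]
      have h2 := (GG_mean c1 c2 p (hS p hp).1 (hS p hp).2.2.1).1
      have h3 : 3 * (1 / (p : ℝ) ^ 2) = 3 / (p : ℝ) ^ 2 := by ring
      rw [h3]
      exact h2
    have h2 := sum_le_sum h1
    rw [sum_sub_distrib, sum_add_distrib, ← mul_sum] at h2
    have h3 := hsq S
    linarith
  calc Cs * ((N + 1 : ℕ) : ℝ) * Real.exp (-∑ p ∈ S, (∑ n ∈ range (p ^ 2), h p n) / (p : ℝ) ^ 2)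
      ≤ Cs * ((N + 1 : ℕ) : ℝ) * Real.exp (3 * Cq +
        -(∑ p ∈ S, (if c1 p then 1 / (p : ℝ) else 0) +
        ∑ p ∈ S, (if c2 p then datQ.ρ p / p else 0))) := by
        gcongr
        linarith
    _ = _ := by
        rw [Real.exp_add]
        ring

end Pool.Agent.Y346.PA
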