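import Pool.Agent.Y346.PA.CIc

/-!
# Project PA, task CI: the lower bound for the saving
-/

set_option autoImplicit false

namespace Pool.Agent.Y346.PA

open Finset
open Pool.Agent.H951R4.OD (ch PI Ex)
open Pool.Agent.W114.PQ (Dat Ax Pass EP wX datP)
open scoped Classical

/-- the primes tested against `n` -/
def CC1 (P q0 Y p : ℕ) : Prop := p ≤ P ∨ (Y < p ∧ ch (p : ℤ) q0 = -1)

/-- the primes tested against `n² + n + 1` -/
def CC2 (ps : Finset ℕ) (q0 Y p : ℕ) : Prop := p < q0 ∨ (Y < p ∧ ∃ r ∈ ps, ch (r : ℤ) p = -1)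

/-- the sieving primes -/
noncomputable def SS (ps : Finset ℕ) (q0 z : ℕ) : Finset ℕ :=
  (PI 0 z).filter (fun p => ¬ p ∣ 6 ∧ p ∉ ps ∧ p ≠ q0)

theorem mem_SS (ps : Finset ℕ) (q0 z p : ℕ) :
    p ∈ SS ps q0 z ↔ p.Prime ∧ p ≤ z ∧ ¬ p ∣ 6 ∧ p ∉ ps ∧ p ≠ q0 := by
  simp only [SS, PI, mem_filter, mem_Ioc]
  constructor
  · rintro ⟨⟨⟨_, h2⟩, h3⟩, h4⟩
    exact ⟨h3, h2, h4⟩
  · rintro ⟨h1, h2, h3⟩
    exact ⟨⟨⟨h1.pos, h2⟩, h1⟩, h3⟩

theorem ci_s1 (ps : Finset ℕ) (P q0 z Y : ℕ) (hq0 : q0.Prime) (hPz : P ≤ z)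
    (hleP : ∀ p ∈ ps, p ≤ P) (hPY : P ≤ Y) (hqY : q0 ≤ Y) (hY : 3 ≤ Y) :
    ∑ p ∈ (PI 0 P).filter (fun r => ¬ r ∣ 6 ∧ r ∉ ps), 1 / (p : ℝ) +
      ∑ p ∈ (PI Y z).filter (fun p : ℕ => ch (p : ℤ) q0 = -1), 1 / (p : ℝ) ≤
      ∑ p ∈ SS ps q0 z, (if CC1 P q0 Y p then 1 / (p : ℝ) else 0) + 1 := by
  have hs1 := sum_sub_aux (fun p => 1 / (p : ℝ)) (fun p => by positivity)
    ((PI 0 P).filter (fun r => ¬ r ∣ 6 ∧ r ∉ ps))
    ((PI Y z).filter (fun p : ℕ => ch (p : ℤ) q0 = -1)) {q0} (SS ps q0 z) (CC1 P q0 Y) (by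
      rw [disjoint_left]
      intro p hp hp'
      simp only [PI, mem_filter, mem_Ioc] at hp hp'
      omega) (by
      intro p hp
      rw [mem_SS, mem_singleton]
      rcases mem_union.1 hp with hp | hp
      · simp only [PI, mem_filter, mem_Ioc] at hp
        by_cases h : p = q0
        · exact Or.inr h
        · left
          exact ⟨⟨hp.1.2, hp.1.1.2.trans hPz, hp.2.1, hp.2.2, h⟩, Or.inl hp.1.1.2⟩
      · simp only [PI, mem_filter, mem_Ioc] at hp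
        left
        refine ⟨⟨hp.1.2, hp.1.1.2, not_dvd_six p hp.1.2 (by omega), ?_, by omega⟩,
          Or.inr ⟨hp.1.1.1, hp.2⟩⟩
        intro h
        have := hleP p h
        omega)
  have hq01 : ∑ p ∈ ({q0} : Finset ℕ), 1 / (p : ℝ) ≤ 1 := by
    have : (1 : ℝ) ≤ q0 := by exact_mod_cast hq0.pos
    rw [sum_singleton, div_le_one (by linarith)]
    exact this
  linarith

theorem ci_s2 (ps : Finset ℕ) (P q0 z Y : ℕ) (hps : ∀ p ∈ ps, p.Prime) (hpk : ps.card = 3)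
    (hleP : ∀ p ∈ ps, p ≤ P) (hPY : P ≤ Y) (hqY : q0 ≤ Y) (hY : 3 ≤ Y) (hqz : q0 ≤ z) :
    ∑ p ∈ PI 3 (q0 - 1), datQ.ρ p / (p : ℝ) +
      ∑ q ∈ (PI Y z).filter (fun q => ¬ q ∣ datQ.c0 ∧ ∃ p ∈ ps, ch (p : ℤ) q = -1),
        datQ.ρ q / (q : ℝ) ≤
      ∑ p ∈ SS ps q0 z, (if CC2 ps q0 Y p then datQ.ρ p / (p : ℝ) else 0) + 3 := by
  have hs2 := sum_sub_aux (fun p => datQ.ρ p / (p : ℝ)) rho_nonneg (PI 3 (q0 - 1))
    ((PI Y z).filter (fun q => ¬ q ∣ datQ.c0 ∧ ∃ p ∈ ps, ch (p : ℤ) q = -1)) ps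
    (SS ps q0 z) (CC2 ps q0 Y) (by
      rw [disjoint_left]
      intro p hp hp'
      simp only [PI, mem_filter, mem_Ioc] at hp hp'
      omega) (by
      intro p hp
      rw [mem_SS]
      rcases mem_union.1 hp with hp | hp
      · simp only [PI, mem_filter, mem_Ioc] at hp
        by_cases h : p ∈ ps
        · exact Or.inr h
        · left
          exact ⟨⟨hp.2, by omega, not_dvd_six p hp.2 hp.1.1, h, by omega⟩, Or.inl (by omega)⟩
      · simp only [PI, mem_filter, mem_Ioc] at hp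
        left
        refine ⟨⟨hp.1.2, hp.1.1.2, not_dvd_six p hp.1.2 (by omega), ?_, by omega⟩,
          Or.inr ⟨hp.1.1.1, hp.2.2⟩⟩
        intro h
        have := hleP p h
        omega)
  have hκ : datQ.κ = 2 := rfl
  have hps3 : ∑ p ∈ ps, datQ.ρ p / (p : ℝ) ≤ 3 := by
    have h1 : ∀ p ∈ ps, datQ.ρ p / (p : ℝ) ≤ 1 := by
      intro p hp
      have h2 : (2 : ℝ) ≤ p := by exact_mod_cast (hps p hp).two_le
      rw [div_le_one (by linarith)]
      have h3 := (axQ'.rho_up p).2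
      rw [hκ] at h3
      linarith
    have h2 := sum_le_sum h1
    rw [sum_const, hpk] at h2
    norm_num at h2
    exact h2
  linarith

theorem ci_low : ∃ C' K : ℝ, 0 ≤ C' ∧ 1 ≤ K ∧ ∀ z q0 : ℕ, 3 ≤ z → q0.Prime → 3 < q0 → q0 ≤ z →
    ∀ ps : Finset ℕ, ps.card = 3 → (∀ p ∈ ps, p.Prime ∧ p ≤ z) →
      ∃ Y : ℕ, ps.sup id ≤ Y ∧ q0 ≤ Y ∧
        Real.log (LL (ps.sup id)) + Real.log (LL q0) + 5 / 4 * (Real.log (Real.log z) -
          Real.log (K * max (LL (ps.sup id)) (LL q0))) - C' ≤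
          sg (SS ps q0 z) (CC1 (ps.sup id) q0 Y) (CC2 ps q0 Y) := by
  obtain ⟨Cb, hCb, hbad⟩ := Pool.Agent.W114.PQ.bk datQ axQ' 3
  obtain ⟨Cn, hCn, hnon⟩ := nonres_sum
  obtain ⟨Ca, hCa, hsmall⟩ := Pool.Agent.H951R4.OD.D2b_small 6 (by norm_num) 3
  obtain ⟨Cm, hCm, hrho⟩ := rho_small
  have hτ : datQ.τ = 1 := rfl
  have hκ : datQ.κ = 2 := rfl
  set K : ℝ := Real.log (2 * (Cb + Cn)) + 6 with hK
  have hK6 : 6 ≤ K := by
    have : 0 ≤ Real.log (2 * (Cb + Cn)) := Real.log_nonneg (by linarith)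
    linarith
  refine ⟨Ca + 1 + Cn + (Cm + 3 + Cb), K, by positivity, by linarith, ?_⟩
  intro z q0 hz hq0 hq03 hq0z ps hpk hps
  have hz3 : (3 : ℝ) ≤ z := by exact_mod_cast hz
  set P : ℕ := ps.sup id with hP
  have hne : ps.Nonempty := by
    rw [← Finset.card_pos]; omega
  obtain ⟨P0, hP0, hP0'⟩ := Finset.exists_mem_eq_sup ps hne id
  have hPP0 : P = P0 := hP0'
  have hPmem : P ∈ ps := by rw [hPP0]; exact hP0
  have hPprime : P.Prime := (hps P hPmem).1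
  have hPz : P ≤ z := (hps P hPmem).2
  have hleP : ∀ p ∈ ps, p ≤ P := fun p hp => Finset.le_sup (f := id) hp
  have hexp1 : Real.exp 1 < 3 := by
    have := Real.exp_one_lt_d9
    linarith
  have hlz : 1 ≤ Real.log z := by
    rw [Real.le_log_iff_exp_le (by linarith)]; linarith
  have hPrP : ∏ p ∈ ps, p ≤ P ^ 3 := by
    have := Finset.prod_le_pow_card ps (fun p => p) P hleP
    rw [hpk] at this
    exact this
  set M : ℝ := max (LL P) (LL q0) with hM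
  have hM1 : 1 ≤ M := le_trans (LL_ge P) (le_max_left _ _)
  set M3 : ℕ := max (max P q0) 3 with hM3
  have hM3P : P ≤ M3 := le_trans (le_max_left _ _) (le_max_left _ _)
  have hM3q : q0 ≤ M3 := le_trans (le_max_right _ _) (le_max_left _ _)
  have hM33 : 3 ≤ M3 := le_max_right _ _
  have hM3r : (3 : ℝ) ≤ M3 := by exact_mod_cast hM33
  set Y : ℕ := ⌈(Cb + Cn) * (M3 : ℝ) ^ 6⌉₊ with hY
  have hY1 : (Cb + Cn) * (M3 : ℝ) ^ 6 ≤ Y := Nat.le_ceil _
  have hM36 : (M3 : ℝ) ≤ (M3 : ℝ) ^ 6 := le_self_pow₀ (by linarith) (by norm_num)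
  have hM360 : (0 : ℝ) ≤ (M3 : ℝ) ^ 6 := by positivity
  have hM3Y : M3 ≤ Y := by
    have h2 : (M3 : ℝ) ≤ Y := by nlinarith
    exact_mod_cast h2
  have hYb : Cb * (∏ p ∈ ps, (p : ℝ)) ^ 2 ≤ Y := by
    have h1 : (∏ p ∈ ps, (p : ℝ)) ≤ (M3 : ℝ) ^ 3 := by
      have : ((∏ p ∈ ps, p : ℕ) : ℝ) ≤ (M3 : ℝ) ^ 3 := by
        exact_mod_cast le_trans hPrP (Nat.pow_le_pow_left hM3P 3)
      push_cast at this
      exact this
    have h0 : (0 : ℝ) ≤ ∏ p ∈ ps, (p : ℝ) := prod_nonneg fun p _ => Nat.cast_nonneg p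
    have h2 : (∏ p ∈ ps, (p : ℝ)) ^ 2 ≤ (M3 : ℝ) ^ 6 := by
      calc (∏ p ∈ ps, (p : ℝ)) ^ 2 ≤ ((M3 : ℝ) ^ 3) ^ 2 := by gcongr
        _ = (M3 : ℝ) ^ 6 := by ring
    calc Cb * (∏ p ∈ ps, (p : ℝ)) ^ 2 ≤ Cb * (M3 : ℝ) ^ 6 := by gcongr
      _ ≤ (Cb + Cn) * (M3 : ℝ) ^ 6 := by
        gcongr
        linarith
      _ ≤ Y := hY1
  have hYn : Cn * (q0 : ℝ) ^ 2 ≤ Y := by
    have h1 : (q0 : ℝ) ≤ M3 := by exact_mod_cast hM3q
    have h2 : (q0 : ℝ) ^ 2 ≤ (M3 : ℝ) ^ 6 := by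
      calc (q0 : ℝ) ^ 2 ≤ (M3 : ℝ) ^ 2 := by gcongr
        _ ≤ (M3 : ℝ) ^ 6 := by
          apply pow_le_pow_right₀ (by linarith) (by norm_num)
    calc Cn * (q0 : ℝ) ^ 2 ≤ Cn * (M3 : ℝ) ^ 6 := by gcongr
      _ ≤ (Cb + Cn) * (M3 : ℝ) ^ 6 := by
        gcongr
        linarith
      _ ≤ Y := hY1
  have hlogM3 : Real.log M3 ≤ M := by
    have h1 : M3 ≤ max (max P 3) (max q0 3) := by
      rw [hM3]
      clear_value P
      omega
    rcases le_total (max P 3) (max q0 3) with h | h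
    · rw [max_eq_right h] at h1
      refine le_trans ?_ (le_max_right _ _)
      unfold LL
      exact Real.log_le_log (by linarith) (by exact_mod_cast h1)
    · rw [max_eq_left h] at h1
      refine le_trans ?_ (le_max_left _ _)
      unfold LL
      exact Real.log_le_log (by linarith) (by exact_mod_cast h1)
  have hY3 : 3 ≤ Y := le_trans hM33 hM3Y
  have hYr : (3 : ℝ) ≤ Y := by exact_mod_cast hY3
  have hlogY : Real.log Y ≤ K * M := by
    have h1 : (Y : ℝ) ≤ 2 * (Cb + Cn) * (M3 : ℝ) ^ 6 := by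
      have h2 : (Y : ℝ) < (Cb + Cn) * (M3 : ℝ) ^ 6 + 1 := Nat.ceil_lt_add_one (by positivity)
      have h3 : 1 ≤ (Cb + Cn) * (M3 : ℝ) ^ 6 := by
        have h4 : 1 ≤ (M3 : ℝ) ^ 6 := by linarith
        have h5 : 1 ≤ Cb + Cn := by linarith
        exact one_le_mul_of_one_le_of_one_le h5 h4
      linarith
    have h3 := Real.log_le_log (by linarith) h1
    rw [Real.log_mul (by positivity) (by positivity), Real.log_pow] at h3
    have h4 : 0 ≤ Real.log (2 * (Cb + Cn)) := Real.log_nonneg (by linarith)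
    push_cast at h3
    have h5 : Real.log (2 * (Cb + Cn)) ≤ Real.log (2 * (Cb + Cn)) * M :=
      le_mul_of_one_le_right h4 hM1
    calc Real.log Y ≤ Real.log (2 * (Cb + Cn)) + 6 * Real.log M3 := h3
      _ ≤ Real.log (2 * (Cb + Cn)) * M + 6 * M := by gcongr
      _ = K * M := by
        rw [hK]
        ring
  have hlogY0 : 0 < Real.log Y := Real.log_pos (by linarith)
  refine ⟨Y, hM3P.trans hM3Y, hM3q.trans hM3Y, ?_⟩
  have hs1 := ci_s1 ps P q0 z Y hq0 hPz hleP (hM3P.trans hM3Y) (hM3q.trans hM3Y) hY3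
  have hs2 := ci_s2 ps P q0 z Y (fun p hp => (hps p hp).1) hpk hleP (hM3P.trans hM3Y)
    (hM3q.trans hM3Y) hY3 hq0z
  have hA1s : Real.log (LL P) - Ca ≤
      ∑ p ∈ (PI 0 P).filter (fun r => ¬ r ∣ 6 ∧ r ∉ ps), 1 / (p : ℝ) := by
    refine le_trans (hsmall ps hpk P hPprime.two_le) ?_
    apply sum_le_sum
    intro p _
    have : (0 : ℝ) ≤ 1 / (p : ℝ) ^ 2 := by positivity
    linarith
  have hA2s := hrho q0 hq03
  have hgoal : Real.log (LL P) + Real.log (LL q0) + 5 / 4 * (Real.log (Real.log z) -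
      Real.log (K * M)) - (Ca + 1 + Cn + (Cm + 3 + Cb)) ≤
      ∑ p ∈ SS ps q0 z, (if CC1 P q0 Y p then 1 / (p : ℝ) else 0) +
        ∑ p ∈ SS ps q0 z, (if CC2 ps q0 Y p then datQ.ρ p / (p : ℝ) else 0) := by
    rcases Nat.lt_or_ge z Y with hzY | hYz
    · have hB1s : 0 ≤ ∑ p ∈ (PI Y z).filter (fun p : ℕ => ch (p : ℤ) q0 = -1), 1 / (p : ℝ) :=
        sum_nonneg fun p _ => by positivity
      have hB2s : 0 ≤ ∑ q ∈ (PI Y z).filter (fun q => ¬ q ∣ datQ.c0 ∧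
          ∃ p ∈ ps, ch (p : ℤ) q = -1), datQ.ρ q / (q : ℝ) :=
        sum_nonneg fun p _ => rho_nonneg p
      have h3 : Real.log (Real.log z) ≤ Real.log (K * M) := by
        apply Real.log_le_log (by linarith)
        refine le_trans ?_ hlogY
        apply Real.log_le_log (by linarith)
        exact_mod_cast hzY.le
      linarith
    · have h1 := hnon q0 hq0 (by omega) Y z hYn hYz
      have h2 := hbad ps hpk (fun p hp => (hps p hp).1) Y z hYb hYz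
      rw [hτ, hκ] at h2
      have h3 : Real.log (Real.log z / Real.log Y) = Real.log (Real.log z) -
          Real.log (Real.log Y) := Real.log_div (by linarith) hlogY0.ne'
      have h4 : Real.log (Real.log Y) ≤ Real.log (K * M) := Real.log_le_log hlogY0 hlogY
      rw [h3] at h1 h2
      have h2' : 3 / 4 * (Real.log (Real.log z) - Real.log (Real.log Y)) - Cb ≤
          ∑ q ∈ (PI Y z).filter (fun q => ¬ q ∣ datQ.c0 ∧ ∃ p ∈ ps, ch (p : ℤ) q = -1),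
            datQ.ρ q / (q : ℝ) := by
        refine le_trans (le_of_eq ?_) h2
        norm_num
      linarith
  exact hgoal

end Pool.Agent.Y346.PA
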