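import Pool.Agent.Y346.PA.Lim

set_option autoImplicit false

/-!
# Project PA: the sieve on one modular hyperbola, with explicit saving
-/

namespace Pool.Agent.Y346.PA

open Finset Filter Topology
open Pool.Agent.H951R4.OD (PI)
open scoped Classical

/-- `exp (Σ_{p | x} 4 / p) ≤ (x / φ(x)) ^ 4` -/
theorem exp_primeFactors_le {x : ℕ} (hx : 1 ≤ x) :
    Real.exp (∑ p ∈ x.primeFactors, 4 / (p : ℝ)) ≤ ((x : ℝ) / x.totient) ^ 4 := by
  have hx0 : (0 : ℝ) < x := by exact_mod_cast hx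
  have h1 : (x.totient : ℝ) = x * ∏ p ∈ x.primeFactors, (1 - (p : ℝ)⁻¹) := by
    have h := Nat.totient_eq_mul_prod_factors x
    have h2 : (((x.totient : ℚ)) : ℝ) = ((x * ∏ p ∈ x.primeFactors, (1 - (p : ℚ)⁻¹) : ℚ) : ℝ) := by
      rw [h]
    push_cast at h2
    exact h2
  have hp : ∀ p ∈ x.primeFactors, (0 : ℝ) < 1 - (p : ℝ)⁻¹ := by
    intro p hp
    have h2 : (2 : ℝ) ≤ p := by exact_mod_cast (Nat.prime_of_mem_primeFactors hp).two_le
    have h3 : (p : ℝ)⁻¹ ≤ 2⁻¹ := by gcongr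
    linarith
  have hprod : (0 : ℝ) < ∏ p ∈ x.primeFactors, (1 - (p : ℝ)⁻¹) := prod_pos hp
  have h2 : (x : ℝ) / x.totient = ∏ p ∈ x.primeFactors, (1 - (p : ℝ)⁻¹)⁻¹ := by
    rw [h1, prod_inv_distrib]
    field_simp
  rw [h2, ← prod_pow, Real.exp_sum]
  apply prod_le_prod (fun p _ => (Real.exp_pos _).le)
  intro p hpm
  have h3 := hp p hpm
  have h4 : Real.exp (4 / (p : ℝ)) = (Real.exp ((p : ℝ)⁻¹)) ^ 4 := by
    rw [← Real.exp_nat_mul]
    congr 1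
  rw [h4]
  have h5 : Real.exp ((p : ℝ)⁻¹) ≤ (1 - (p : ℝ)⁻¹)⁻¹ := by
    rw [le_inv_comm₀ (Real.exp_pos _) h3, ← Real.exp_neg]
    have := Real.add_one_le_exp (-(p : ℝ)⁻¹)
    linarith
  exact pow_le_pow_left₀ (Real.exp_pos _).le h5 4

theorem sum_inv_sq_le (s : Finset ℕ) (h : ∀ p ∈ s, 1 ≤ p) :
    ∑ p ∈ s, 16 / (p : ℝ) ^ 2 ≤ 32 := by
  have h1 : s ⊆ Ioo 0 (s.sup id + 1) := by
    intro p hp
    rw [mem_Ioo]
    exact ⟨h p hp, Nat.lt_succ_of_le (le_sup (f := id) hp)⟩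
  calc ∑ p ∈ s, 16 / (p : ℝ) ^ 2 ≤ ∑ p ∈ Ioo 0 (s.sup id + 1), 16 / (p : ℝ) ^ 2 :=
        sum_le_sum_of_subset_of_nonneg h1 fun _ _ _ => by positivity
    _ = 16 * ∑ p ∈ Ioo 0 (s.sup id + 1), ((p : ℝ) ^ 2)⁻¹ := by
        rw [mul_sum]
        rfl
    _ ≤ 16 * (2 / ((0 : ℕ) + 1)) := by
        gcongr
        exact sum_Ioo_inv_sq_le (α := ℝ) 0 (s.sup id + 1)
    _ = 32 := by norm_num

theorem sum_union_le_aux (s t : Finset ℕ) :
    ∑ p ∈ s ∪ t, 4 / (p : ℝ) ≤ ∑ p ∈ s, 4 / (p : ℝ) + ∑ p ∈ t, 4 / (p : ℝ) := by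
  rw [← sum_union_inter]
  have : (0 : ℝ) ≤ ∑ p ∈ s ∩ t, 4 / (p : ℝ) := sum_nonneg fun _ _ => by positivity
  linarith

/-- the sieving primes -/
noncomputable def PC (C t : ℕ) (S : ℕ → Prop) (x : ℕ) : Finset ℕ :=
  (range (x + 1)).filter (fun p => p.Prime ∧ C < p ∧ p ^ C ≤ x ∧ S p ∧ ¬ p ∣ x * t)

theorem pc_sum (a : ℝ) (ha : 0 ≤ a) (S : ℕ → Prop)
    (mert : ∃ C : ℝ, ∀ y z : ℕ, 2 ≤ y → y ≤ z →
      a * Real.log (Real.log z / Real.log y) - C ≤ ∑ p ∈ (PI y z).filter S, 4 / (p : ℝ))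
    (t : ℕ) (ht : 1 ≤ t) (C : ℕ) (hC : 2 ≤ C) : ∃ K : ℝ, ∀ x : ℕ, C ^ (2 * C) ≤ x →
      a * Real.log (Real.log x) - K - ∑ p ∈ x.primeFactors, 4 / (p : ℝ) ≤
        ∑ p ∈ PC C t S x, 4 / (p : ℝ) := by
  obtain ⟨C0, hC0⟩ := mert
  have hCr : (2 : ℝ) ≤ C := by exact_mod_cast hC
  have hCp : (0 : ℝ) < C := by linarith
  refine ⟨C0 + a * Real.log (2 * C * Real.log C) + ∑ p ∈ t.primeFactors, 4 / (p : ℝ), ?_⟩
  intro x hx
  have hlogC : 0 < Real.log C := Real.log_pos (by linarith)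
  have hx1 : 1 ≤ x := le_trans (Nat.one_le_pow _ _ (by omega)) hx
  have hx0 : (0 : ℝ) < x := by exact_mod_cast hx1
  set Y : ℝ := (x : ℝ) ^ (1 / (2 * (C : ℝ))) with hY
  have hY2 : (C : ℝ) ≤ Y := by
    have h1 : ((C : ℝ) ^ (2 * C)) ≤ x := by exact_mod_cast hx
    have h2 : ((C : ℝ) ^ (2 * C)) ^ (1 / (2 * (C : ℝ))) ≤ Y := by
      rw [hY]
      gcongr
    have h3 : ((C : ℝ) ^ (2 * C)) ^ (1 / (2 * (C : ℝ))) = C := by
      rw [← Real.rpow_natCast, ← Real.rpow_mul hCp.le]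
      push_cast
      rw [mul_one_div_cancel (by positivity), Real.rpow_one]
    linarith
  have hY0 : 0 < Y := by linarith
  have hYY : Y ^ 2 = (x : ℝ) ^ (1 / (C : ℝ)) := by
    rw [hY, ← Real.rpow_natCast, ← Real.rpow_mul hx0.le]
    congr 1
    push_cast
    field_simp
  set z : ℕ := ⌊Y ^ 2⌋₊ with hz
  have hz1 : (z : ℝ) ≤ Y ^ 2 := Nat.floor_le (by positivity)
  have hz2 : Y ≤ z := by
    have h1 : Y ^ 2 < z + 1 := Nat.lt_floor_add_one _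
    nlinarith
  have hzC : (z : ℝ) ^ C ≤ x := by
    calc (z : ℝ) ^ C ≤ (Y ^ 2) ^ C := pow_le_pow_left₀ (by positivity) hz1 C
      _ = x := by
        rw [hYY, ← Real.rpow_natCast, ← Real.rpow_mul hx0.le,
          one_div_mul_cancel (by positivity), Real.rpow_one]
  have hzC' : z ^ C ≤ x := by exact_mod_cast hzC
  have hCz : C ≤ z := by
    have : (C : ℝ) ≤ z := by linarith
    exact_mod_cast this
  have hm := hC0 C z hC hCz
  have hsub : (PI C z).filter S ⊆ PC C t S x ∪ (x.primeFactors ∪ t.primeFactors) := by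
    intro p hp
    rw [mem_filter, PI, mem_filter, mem_Ioc] at hp
    obtain ⟨⟨⟨h1, h2⟩, h3⟩, h4⟩ := hp
    rw [mem_union, mem_union]
    by_cases hpx : p ∣ x
    · exact Or.inr (Or.inl (Nat.mem_primeFactors.2 ⟨h3, hpx, by omega⟩))
    by_cases hpt : p ∣ t
    · exact Or.inr (Or.inr (Nat.mem_primeFactors.2 ⟨h3, hpt, by omega⟩))
    left
    rw [PC, mem_filter, mem_range]
    have h5 : p ^ C ≤ x := le_trans (Nat.pow_le_pow_left h2 C) hzC'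
    have h6 : p ≤ x := le_trans (Nat.le_self_pow (by omega) p) h5
    refine ⟨by omega, h3, h1, h5, h4, ?_⟩
    rw [h3.dvd_mul]
    tauto
  have h7 : ∑ p ∈ (PI C z).filter S, 4 / (p : ℝ) ≤
      ∑ p ∈ PC C t S x, 4 / (p : ℝ) + (∑ p ∈ x.primeFactors, 4 / (p : ℝ) +
        ∑ p ∈ t.primeFactors, 4 / (p : ℝ)) := by
    refine le_trans (sum_le_sum_of_subset_of_nonneg hsub fun _ _ _ => by positivity) ?_
    refine le_trans (sum_union_le_aux _ _) ?_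
    gcongr
    exact sum_union_le_aux _ _
  have h8 : a * Real.log (Real.log x) ≤
      a * Real.log (Real.log z / Real.log C) + a * Real.log (2 * C * Real.log C) := by
    rw [← mul_add]
    apply mul_le_mul_of_nonneg_left _ ha
    have hlz : Real.log x ≤ 2 * C * Real.log z := by
      have h9 : Real.log Y = 1 / (2 * (C : ℝ)) * Real.log x := Real.log_rpow hx0 _
      have h10 : Real.log Y ≤ Real.log z := Real.log_le_log hY0 hz2
      rw [h9] at h10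
      have : 2 * (C : ℝ) * (1 / (2 * (C : ℝ)) * Real.log x) ≤ 2 * C * Real.log z := by gcongr
      rwa [← mul_assoc, mul_one_div_cancel (by positivity), one_mul] at this
    have hzpos : 0 < Real.log z := Real.log_pos (by linarith)
    have hxlog : 0 < Real.log x := by
      apply Real.log_pos
      have : (C : ℝ) ≤ x := by
        have h11 : C ≤ x := le_trans (Nat.le_self_pow (by omega) C) hx
        exact_mod_cast h11
      linarith
    rw [← Real.log_mul (by positivity) (by positivity)]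
    apply Real.log_le_log hxlog
    have : Real.log z / Real.log C * (2 * C * Real.log C) = 2 * C * Real.log z := by
      field_simp
    rw [this]
    exact hlz
  linarith

theorem pc_prod (a : ℝ) (ha : 0 ≤ a) (S : ℕ → Prop)
    (mert : ∃ C : ℝ, ∀ y z : ℕ, 2 ≤ y → y ≤ z →
      a * Real.log (Real.log z / Real.log y) - C ≤ ∑ p ∈ (PI y z).filter S, 4 / (p : ℝ))
    (t : ℕ) (ht : 1 ≤ t) (C : ℕ) (hC : 4 ≤ C) : ∃ K : ℝ, 0 < K ∧ ∀ (x : ℕ) (g : ℕ → ℝ),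
      C ^ (2 * C) ≤ x → (∀ p ∈ PC C t S x, 4 / (p : ℝ) - 16 / (p : ℝ) ^ 2 ≤ g p ∧ g p ≤ 4 / p) →
      ∏ p ∈ PC C t S x, (1 - g p) ≤ K * (Real.log x) ^ (-a) * ((x : ℝ) / x.totient) ^ 4 := by
  obtain ⟨K, hK⟩ := pc_sum a ha S mert t ht C (by omega)
  refine ⟨Real.exp (K + 32), Real.exp_pos _, ?_⟩
  intro x g hx hg
  have h1 := hK x hx
  have hx1 : C ≤ x := le_trans (Nat.le_self_pow (by omega) C) hx
  have hlog : 0 < Real.log x := by
    apply Real.log_pos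
    have : (4 : ℝ) ≤ x := by exact_mod_cast le_trans hC hx1
    linarith
  have h2 : ∏ p ∈ PC C t S x, (1 - g p) ≤
      Real.exp (-∑ p ∈ PC C t S x, 4 / (p : ℝ) + ∑ p ∈ PC C t S x, 16 / (p : ℝ) ^ 2) := by
    rw [← sum_neg_distrib, ← sum_add_distrib, Real.exp_sum]
    apply Finset.prod_le_prod
    · intro p hp
      have h3 := (hg p hp).2
      rw [PC, mem_filter] at hp
      have h4 : (4 : ℝ) ≤ p := by exact_mod_cast le_trans hC hp.2.2.1.le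
      have h5 : 4 / (p : ℝ) ≤ 1 := (div_le_one (by linarith)).2 h4
      linarith
    · intro p hp
      have h3 := (hg p hp).1
      have h4 := Real.add_one_le_exp (-(4 / (p : ℝ)) + 16 / (p : ℝ) ^ 2)
      linarith
  have h3 : ∑ p ∈ PC C t S x, 16 / (p : ℝ) ^ 2 ≤ 32 := by
    apply sum_inv_sq_le
    intro p hp
    rw [PC, mem_filter] at hp
    exact hp.2.1.one_lt.le
  have h4 := exp_primeFactors_le (x := x) (by omega)
  calc ∏ p ∈ PC C t S x, (1 - g p)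
      ≤ Real.exp (-∑ p ∈ PC C t S x, 4 / (p : ℝ) + ∑ p ∈ PC C t S x, 16 / (p : ℝ) ^ 2) := h2
    _ ≤ Real.exp (K + 32 + Real.log (Real.log x) * (-a) + ∑ p ∈ x.primeFactors, 4 / (p : ℝ)) := by
        apply Real.exp_le_exp.2
        linarith
    _ = Real.exp (K + 32) * (Real.log x) ^ (-a) *
          Real.exp (∑ p ∈ x.primeFactors, 4 / (p : ℝ)) := by
        rw [Real.exp_add, Real.exp_add, Real.rpow_def_of_pos hlog]
    _ ≤ _ := by gcongr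

theorem lemG (ks : S_KS) (a : ℝ) (ha : 0 ≤ a) (S : ℕ → Prop)
    (mert : ∃ C : ℝ, ∀ y z : ℕ, 2 ≤ y → y ≤ z →
      a * Real.log (Real.log z / Real.log y) - C ≤ ∑ p ∈ (PI y z).filter S, 4 / (p : ℝ))
    (t : ℕ) (ht : 1 ≤ t) :
    ∃ (C : ℕ) (K : ℝ), 4 ≤ C ∧ 0 < K ∧ ∀ Q : Finset ℕ,
      (∀ p ∈ Q, p.Prime ∧ C < p ∧ ¬ S p ∧ ¬ p ∣ t) →
      ∃ x0 : ℕ, ∀ (x R : ℕ) (hit : ℕ → ℤ → ℤ → Prop), x0 ≤ x → x ≤ R →
        (∀ p : ℕ, p.Prime → ∀ y r k l : ℤ, hit p (y + p * k) (r + p * l) ↔ hit p y r) →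
        (∀ p : ℕ, p.Prime → C < p → S p → ¬ p ∣ x * t →
          4 / (p : ℝ) - 16 / (p : ℝ) ^ 2 ≤ gg (hit) p ∧ gg (hit) p ≤ 4 / p) →
        (∀ p ∈ Q, ¬ p ∣ x → gg hit p ≤ 4 / p) →
        (((Icc (-2 * (x : ℤ)) (2 * x) ×ˢ Icc (-(R : ℤ)) R).filter (fun u : ℤ × ℤ =>
          (x : ℤ) ∣ u.1 * u.2 - 1 ∧ ∀ p : ℕ, p.Prime → C < p → p ^ C ≤ x → ¬ p ∣ x * t →
            (S p ∨ p ∈ Q) → ¬ hit p u.1 u.2)).card : ℝ) ≤
        K * R * (Real.log x) ^ (-a) * ((x : ℝ) / x.totient) ^ 4 *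
          ∏ p ∈ Q.filter (fun p => ¬ p ∣ x), (1 - gg hit p) := by
  obtain ⟨C1, hC1, hks⟩ := ks 8
  set C : ℕ := max C1 4 with hC
  have hC4 : 4 ≤ C := le_max_right _ _
  have hCC : C1 ≤ C := le_max_left _ _
  obtain ⟨K, hK0, hK⟩ := pc_prod a ha S mert t ht C hC4
  have hC1' : (0 : ℝ) < C1 := by exact_mod_cast hC1
  refine ⟨C, C1 * K, hC4, by positivity, ?_⟩
  intro Q hQ
  refine ⟨max (C ^ (2 * C)) (Q.sup (fun p => p ^ C)), ?_⟩
  intro x R hit hx0 hxR hper hgS hgQ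
  have hx1 : C ^ (2 * C) ≤ x := le_trans (le_max_left _ _) hx0
  have hx2 : ∀ p ∈ Q, p ^ C ≤ x := fun p hp =>
    le_trans (le_sup (f := fun p => p ^ C) hp) (le_trans (le_max_right _ _) hx0)
  have hCx : C ≤ x := le_trans (Nat.le_self_pow (by omega) C) hx1
  set Q' : Finset ℕ := Q.filter (fun p => ¬ p ∣ x) with hQ'
  set P : Finset ℕ := PC C t S x ∪ Q' with hP
  have hmem : ∀ p ∈ P, p.Prime ∧ C < p ∧ p ^ C ≤ x ∧ ¬ p ∣ x * t ∧ (S p ∨ p ∈ Q) := by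
    intro p hp
    rw [hP, mem_union] at hp
    rcases hp with hp | hp
    · rw [PC, mem_filter] at hp
      exact ⟨hp.2.1, hp.2.2.1, hp.2.2.2.1, hp.2.2.2.2.2, Or.inl hp.2.2.2.2.1⟩
    · rw [hQ', mem_filter] at hp
      have h1 := hQ p hp.1
      refine ⟨h1.1, h1.2.1, hx2 p hp.1, ?_, Or.inr hp.1⟩
      rw [h1.1.dvd_mul]
      exact not_or.2 ⟨hp.2, h1.2.2.2⟩
  have hgPC : ∀ p ∈ PC C t S x, 4 / (p : ℝ) - 16 / (p : ℝ) ^ 2 ≤ gg hit p ∧ gg hit p ≤ 4 / p := by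
    intro p hp
    rw [PC, mem_filter] at hp
    exact hgS p hp.2.1 hp.2.2.1 hp.2.2.2.2.1 hp.2.2.2.2.2
  have hk := hks x R (le_trans hCC hCx) hxR P hit ?_ ?_ ?_
  · have hdisj : Disjoint (PC C t S x) Q' := by
      rw [disjoint_left]
      intro p hp hp'
      rw [PC, mem_filter] at hp
      rw [hQ', mem_filter] at hp'
      exact (hQ p hp'.1).2.2.1 hp.2.2.2.2.1
    rw [hP, prod_union hdisj] at hk
    have h3 := hK x (gg hit) hx1 hgPC
    have h4 : (0 : ℝ) ≤ ∏ p ∈ Q', (1 - gg hit p) := by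
      apply prod_nonneg
      intro p hp
      rw [hQ', mem_filter] at hp
      have h5 := hgQ p hp.1 hp.2
      have h6 : (4 : ℝ) ≤ p := by exact_mod_cast le_trans hC4 (hQ p hp.1).2.1.le
      have h7 : 4 / (p : ℝ) ≤ 1 := (div_le_one (by linarith)).2 h6
      linarith
    have h8 : (((Icc (-2 * (x : ℤ)) (2 * x) ×ˢ Icc (-(R : ℤ)) R).filter (fun u : ℤ × ℤ =>
          (x : ℤ) ∣ u.1 * u.2 - 1 ∧ ∀ p : ℕ, p.Prime → C < p → p ^ C ≤ x → ¬ p ∣ x * t →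
            (S p ∨ p ∈ Q) → ¬ hit p u.1 u.2)).card : ℝ) ≤
        ((Icc (-2 * (x : ℤ)) (2 * x) ×ˢ Icc (-(R : ℤ)) R).filter (fun t : ℤ × ℤ =>
        (x : ℤ) ∣ t.1 * t.2 - 1 ∧ ∀ p ∈ P, ¬ hit p t.1 t.2)).card := by
      have : ((Icc (-2 * (x : ℤ)) (2 * x) ×ˢ Icc (-(R : ℤ)) R).filter (fun u : ℤ × ℤ =>
          (x : ℤ) ∣ u.1 * u.2 - 1 ∧ ∀ p : ℕ, p.Prime → C < p → p ^ C ≤ x → ¬ p ∣ x * t →
            (S p ∨ p ∈ Q) → ¬ hit p u.1 u.2)).card ≤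
        ((Icc (-2 * (x : ℤ)) (2 * x) ×ˢ Icc (-(R : ℤ)) R).filter (fun t : ℤ × ℤ =>
        (x : ℤ) ∣ t.1 * t.2 - 1 ∧ ∀ p ∈ P, ¬ hit p t.1 t.2)).card := by
        apply card_le_card
        apply monotone_filter_right
        intro u _ hu
        refine ⟨hu.1, fun p hp => ?_⟩
        obtain ⟨h1, h2, h3, h4, h5⟩ := hmem p hp
        exact hu.2 p h1 h2 h3 h4 h5
      exact_mod_cast this
    refine le_trans h8 (le_trans hk ?_)
    calc (C1 : ℝ) * R * ((∏ p ∈ PC C t S x, (1 - gg hit p)) * ∏ p ∈ Q', (1 - gg hit p))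
        ≤ (C1 : ℝ) * R * ((K * (Real.log x) ^ (-a) * ((x : ℝ) / x.totient) ^ 4) *
            ∏ p ∈ Q', (1 - gg hit p)) := by gcongr
      _ = _ := by ring
  · intro p hp
    obtain ⟨h1, h2, h3, h4, h5⟩ := hmem p hp
    refine ⟨h1, by omega, ?_, fun h => h4 (h.mul_right t)⟩
    exact le_trans (Nat.pow_le_pow_right h1.pos hCC) h3
  · intro p hp y r k l
    exact hper p (hmem p hp).1 y r k l
  · intro p hp
    have h6 : (0 : ℝ) < p := by exact_mod_cast (hmem p hp).1.pos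
    have h7 : gg hit p ≤ 4 / p := by
      rw [hP, mem_union] at hp
      rcases hp with hp | hp
      · exact (hgPC p hp).2
      · rw [hQ', mem_filter] at hp
        exact hgQ p hp.1 hp.2
    refine le_trans h7 ?_
    push_cast
    gcongr
    norm_num

end Pool.Agent.Y346.PA
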