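import Pool.Agent.Y346.PA.H2a
import Pool.Agent.Helper403.Sieve

set_option autoImplicit false

/-!
# Project PA: task H1, densities
-/

namespace Pool.Agent.Y346.PA

open Finset Filter Topology
open Pool.Agent.H951R4.OD (PI)
open scoped Classical

/-- a square root of `-1` modulo `p`, if there is one -/
noncomputable def iota (p : ℕ) : ZMod p := if h : ∃ i : ZMod p, i ^ 2 = -1 then h.choose else 0

theorem iota_sq (p : ℕ) (hp : p.Prime) (h : p % 4 = 1) : iota p ^ 2 = -1 := by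
  have : Fact p.Prime := ⟨hp⟩
  have h1 : IsSquare (-1 : ZMod p) := by
    rw [ZMod.exists_sq_eq_neg_one_iff]
    omega
  have h2 : ∃ i : ZMod p, i ^ 2 = -1 := by
    obtain ⟨i, hi⟩ := h1
    exact ⟨i, by rw [hi]; ring⟩
  unfold iota
  rw [dif_pos h2]
  exact h2.choose_spec

/-- the sieve condition for sums of two squares -/
def hit1 (a1 a2 : ℤ) (x : ℕ) (p : ℕ) (y r : ℤ) : Prop :=
  (p % 12 = 1 ∧ (p : ℤ) ∣ (x ^ 2 * (a1 * x ^ 2 + a2 * y ^ 2 + a1 * r ^ 2) +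
    a2 * (1 - y * r) ^ 2) ^ 2 + 12 * x ^ 4) ∨
  (p % 12 = 5 ∧ ∃ hp : Fact p.Prime, ((y : ZMod p), (r : ZMod p)) ∈ QT p a1 a2 (iota p) x)

theorem hit1_per (a1 a2 : ℤ) (x p : ℕ) (y r k l : ℤ) :
    hit1 a1 a2 x p (y + p * k) (r + p * l) ↔ hit1 a1 a2 x p y r := by
  unfold hit1
  rw [← ZMod.intCast_zmod_eq_zero_iff_dvd, ← ZMod.intCast_zmod_eq_zero_iff_dvd]
  push_cast
  rw [ZMod.natCast_self]
  simp only [zero_mul, add_zero]

theorem gg1 (ld : S_LD1) (a1 a2 : ℤ) (ha : (a1 = 1 ∧ a2 = -3) ∨ (a1 = 3 ∧ a2 = -1)) (x p : ℕ)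
    (hp : p.Prime) (h3 : p % 12 = 1) (hx : ¬ p ∣ x) :
    4 / (p : ℝ) - 16 / (p : ℝ) ^ 2 ≤ gg (hit1 a1 a2 x) p ∧ gg (hit1 a1 a2 x) p ≤ 4 / p := by
  have : Fact p.Prime := ⟨hp⟩
  have hx0 : (x : ZMod p) ≠ 0 := by
    rw [Ne, ZMod.natCast_eq_zero_iff]
    exact hx
  obtain ⟨h1, h2⟩ := ld p h3 a1 a2 ha (x : ZMod p) hx0
  have hp0 : (0 : ℝ) < p := by exact_mod_cast hp.pos
  have h4 := card_range_zmod p (fun t => ((a1 * (x : ZMod p) ^ 2 + a2 * t.1 ^ 2) +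
      (a1 * t.2 ^ 2 + a2 * ((1 - t.1 * t.2) / x) ^ 2)) ^ 2 + 12 = 0)
        (hit1 a1 a2 x p) (by
    intro y r
    unfold hit1
    rw [← ZMod.intCast_zmod_eq_zero_iff_dvd]
    push_cast
    have h6 : ¬ (p % 12 = 5) := by omega
    have h5 : ((x : ZMod p) ^ 2 * (a1 * x ^ 2 + a2 * y ^ 2 + a1 * r ^ 2) +
        a2 * (1 - y * r) ^ 2) ^ 2 + 12 * x ^ 4 =
        x ^ 4 * (((a1 * (x : ZMod p) ^ 2 + a2 * y ^ 2) +
      (a1 * r ^ 2 + a2 * ((1 - y * r) / x) ^ 2)) ^ 2 + 12) := by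
      field_simp
      ring
    rw [h5]
    constructor
    · rintro (h | h)
      · rcases mul_eq_zero.1 h.2 with h | h
        · exact absurd h (pow_ne_zero 4 hx0)
        · exact h
      · exact absurd h.1 h6
    · intro h
      left
      refine ⟨h3, ?_⟩
      rw [h, mul_zero])
  have h5 : gg (hit1 a1 a2 x) p = ((univ.filter (fun t : ZMod p × ZMod p =>
      ((a1 * (x : ZMod p) ^ 2 + a2 * t.1 ^ 2) +
      (a1 * t.2 ^ 2 + a2 * ((1 - t.1 * t.2) / x) ^ 2)) ^ 2 + 12 = 0)).card : ℝ) /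
          (p : ℝ) ^ 2 := by
    unfold gg
    rw [h4]
    congr!
  set N : ℕ := (univ.filter (fun t : ZMod p × ZMod p =>
      ((a1 * (x : ZMod p) ^ 2 + a2 * t.1 ^ 2) +
      (a1 * t.2 ^ 2 + a2 * ((1 - t.1 * t.2) / x) ^ 2)) ^ 2 + 12 = 0)).card with hN
  have h1' : 4 * (p : ℝ) ≤ N + 16 := by exact_mod_cast h1
  have h2' : (N : ℝ) ≤ 4 * p := by exact_mod_cast h2
  rw [h5]
  constructor
  · rw [le_div_iff₀ (by positivity)]
    have : (4 / (p : ℝ) - 16 / (p : ℝ) ^ 2) * (p : ℝ) ^ 2 = 4 * p - 16 := by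
      field_simp
    linarith
  · rw [div_le_div_iff₀ (by positivity) hp0]
    nlinarith

theorem gg5_eq (a1 a2 : ℤ) (x p : ℕ) [hp : Fact p.Prime] (h3 : p % 12 = 5) :
    gg (hit1 a1 a2 x) p = ((QT p a1 a2 (iota p) (x : ZMod p)).card : ℝ) / (p : ℝ) ^ 2 := by
  unfold gg
  rw [card_range_zmod p (fun t => t ∈ QT p a1 a2 (iota p) (x : ZMod p)) (hit1 a1 a2 x p)]
  · congr 3
    ext t
    simp
  · intro y r
    unfold hit1
    constructor
    · rintro (h | h)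
      · omega
      · exact h.2.2
    · intro h
      exact Or.inr ⟨h3, hp, h⟩

theorem gg5 (ld : S_LD5) (a1 a2 : ℤ) (ha : (a1 = 1 ∧ a2 = -3) ∨ (a1 = 3 ∧ a2 = -1)) (x p : ℕ)
    (hp : p.Prime) (h3 : p % 12 = 5) (hx : ¬ p ∣ x) : gg (hit1 a1 a2 x) p ≤ 4 / p := by
  have : Fact p.Prime := ⟨hp⟩
  have hx0 : (x : ZMod p) ≠ 0 := by
    rw [Ne, ZMod.natCast_eq_zero_iff]
    exact hx
  have h1 := (ld p h3 a1 a2 ha (iota p) (iota_sq p hp (by omega))).1 x hx0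
  have hp0 : (0 : ℝ) < p := by exact_mod_cast hp.pos
  have h2' : ((QT p a1 a2 (iota p) (x : ZMod p)).card : ℝ) ≤ 4 * p := by exact_mod_cast h1
  rw [gg5_eq a1 a2 x p h3, div_le_div_iff₀ (by positivity) hp0]
  nlinarith

/-- the factor of the test prime `p` -/
noncomputable def Fp (a1 a2 : ℤ) (p x : ℕ) : ℝ :=
  if p ∣ x then 1 else 1 - gg (hit1 a1 a2 x) p

theorem Fp_per (a1 a2 : ℤ) (p : ℕ) (hp : p.Prime) (h3 : p % 12 = 5) :
    Function.Periodic (Fp a1 a2 p) p := by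
  have : Fact p.Prime := ⟨hp⟩
  intro x
  unfold Fp
  rw [gg5_eq a1 a2 x p h3, gg5_eq a1 a2 (x + p) p h3]
  simp only [Nat.dvd_add_self_right, Nat.cast_add, ZMod.natCast_self, add_zero]

theorem Fp_sum (ld : S_LD5) (a1 a2 : ℤ) (ha : (a1 = 1 ∧ a2 = -3) ∨ (a1 = 3 ∧ a2 = -1)) (p : ℕ)
    (hp : p.Prime) (h3 : p % 12 = 5) :
    ∑ x ∈ range p, Fp a1 a2 p x ≤ p * (1 - 1 / (4 * p)) := by
  have hf : Fact p.Prime := ⟨hp⟩
  have hp0 : (0 : ℝ) < p := by exact_mod_cast hp.pos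
  have h1 := (ld p h3 a1 a2 ha (iota p) (iota_sq p hp (by omega))).2
  have h2 : ∑ x ∈ univ.erase (0 : ZMod p), (QT p a1 a2 (iota p) x).card =
      ∑ x ∈ (range p).erase 0, (QT p a1 a2 (iota p) (x : ZMod p)).card := by
    symm
    apply sum_bij (fun (x : ℕ) _ => (x : ZMod p))
    · intro x hx
      rw [mem_erase, mem_range] at hx
      rw [mem_erase]
      refine ⟨?_, mem_univ _⟩
      intro h
      rw [ZMod.natCast_eq_zero_iff] at h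
      exact hx.1 (Nat.eq_zero_of_dvd_of_lt h hx.2)
    · intro x hx x' hx' h
      rw [mem_erase, mem_range] at hx hx'
      have h1 := congrArg ZMod.val h
      rwa [ZMod.val_natCast_of_lt hx.2, ZMod.val_natCast_of_lt hx'.2] at h1
    · intro z hz
      rw [mem_erase] at hz
      refine ⟨z.val, ?_, ZMod.natCast_zmod_val z⟩
      rw [mem_erase, mem_range]
      exact ⟨fun h => hz.1 ((ZMod.val_eq_zero z).1 h), ZMod.val_lt z⟩
    · intro x _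
      rfl
  have h0 : (0 : ℕ) ∈ range p := mem_range.2 hp.pos
  rw [← add_sum_erase _ _ h0]
  have h4 : ∀ x ∈ (range p).erase 0, Fp a1 a2 p x =
      1 - ((QT p a1 a2 (iota p) (x : ZMod p)).card : ℝ) / (p : ℝ) ^ 2 := by
    intro x hx
    rw [mem_erase, mem_range] at hx
    unfold Fp
    rw [if_neg (fun h => hx.1 (Nat.eq_zero_of_dvd_of_lt h hx.2)), gg5_eq a1 a2 x p h3]
  rw [sum_congr rfl h4, sum_sub_distrib, ← sum_div]
  have h5 : Fp a1 a2 p 0 = 1 := by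
    unfold Fp
    rw [if_pos (dvd_zero p)]
  have h6 : ∑ x ∈ (range p).erase 0, (1 : ℝ) = p - 1 := by
    rw [sum_const, card_erase_of_mem h0, card_range, nsmul_eq_mul, mul_one,
      Nat.cast_sub hp.one_lt.le]
    simp
  rw [h2] at h1
  have h7 : (p : ℝ) ^ 2 ≤ 4 * ∑ x ∈ (range p).erase 0,
      ((QT p a1 a2 (iota p) (x : ZMod p)).card : ℝ) := by exact_mod_cast h1
  have h8 : 1 / 4 ≤ (∑ x ∈ (range p).erase 0,
      ((QT p a1 a2 (iota p) (x : ZMod p)).card : ℝ)) / (p : ℝ) ^ 2 := by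
    rw [le_div_iff₀ (by positivity)]
    linarith
  have h9 : (p : ℝ) * (1 - 1 / (4 * p)) = p - 1 / 4 := by field_simp
  rw [h5, h6, h9]
  linarith

theorem Fp_nonneg (ld : S_LD5) (a1 a2 : ℤ) (ha : (a1 = 1 ∧ a2 = -3) ∨ (a1 = 3 ∧ a2 = -1))
    (p x : ℕ) (hp : p.Prime) (h3 : p % 12 = 5) : 0 ≤ Fp a1 a2 p x ∧ Fp a1 a2 p x ≤ 1 := by
  unfold Fp
  split_ifs with h
  · exact ⟨zero_le_one, le_rfl⟩
  · have h1 := gg5 ld a1 a2 ha x p hp h3 h
    have h2 : (5 : ℝ) ≤ p := by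
      have : 5 ≤ p := by omega
      exact_mod_cast this
    have h4 : 4 / (p : ℝ) ≤ 1 := (div_le_one (by linarith)).2 (by linarith)
    have h5 : 0 ≤ gg (hit1 a1 a2 x) p := by
      unfold gg
      positivity
    constructor <;> linarith

theorem prod_Fp (a1 a2 : ℤ) (Q : Finset ℕ) (x : ℕ) :
    ∏ p ∈ Q.filter (fun p => ¬ p ∣ x), (1 - gg (hit1 a1 a2 x) p) = ∏ p ∈ Q, Fp a1 a2 p x := by
  rw [prod_filter]
  apply prod_congr rfl
  intro p _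
  unfold Fp
  split_ifs <;> rfl

/-- the average of the factors of the test primes -/
theorem Fp_avg (ld : S_LD5) (a1 a2 : ℤ) (ha : (a1 = 1 ∧ a2 = -3) ∨ (a1 = 3 ∧ a2 = -1))
    (Q : Finset ℕ) (hQ : ∀ p ∈ Q, p.Prime ∧ p % 12 = 5) (T : ℕ) :
    ∑ x ∈ range T, ∏ p ∈ Q, Fp a1 a2 p x ≤
      T * ∏ p ∈ Q, (1 - 1 / (4 * (p : ℝ))) + 2 * ∏ p ∈ Q, (p : ℝ) := by
  set M : ℕ := ∏ p ∈ Q, p with hM
  have hM0 : 0 < M := prod_pos fun p hp => (hQ p hp).1.pos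
  have hMr : (0 : ℝ) < M := by exact_mod_cast hM0
  have hper : Function.Periodic (fun x => ∏ p ∈ Q, Fp a1 a2 p x) M := by
    intro x
    apply prod_congr rfl
    intro p hp
    have h1 := Fp_per a1 a2 p (hQ p hp).1 (hQ p hp).2
    obtain ⟨c, hc⟩ := dvd_prod_of_mem (fun l => l) hp
    have h2 := h1.nat_mul c x
    rw [hM, hc]
    simpa [mul_comm] using h2
  have habs : ∀ x, |∏ p ∈ Q, Fp a1 a2 p x| ≤ 1 := by
    intro x
    rw [abs_of_nonneg (prod_nonneg fun p hp =>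
      (Fp_nonneg ld a1 a2 ha p x (hQ p hp).1 (hQ p hp).2).1)]
    exact prod_le_one (fun p hp => (Fp_nonneg ld a1 a2 ha p x (hQ p hp).1 (hQ p hp).2).1)
      (fun p hp => (Fp_nonneg ld a1 a2 ha p x (hQ p hp).1 (hQ p hp).2).2)
  have h1 := Pool.Agent.Helper403.abs_sum_sub_le (fun x => ∏ p ∈ Q, Fp a1 a2 p x) M hM0 hper 1
    habs T
  have h2 := Pool.Agent.Helper403.sum_prod_periodic Q (fun p hp => (hQ p hp).1)
    (fun p x => Fp a1 a2 p x) (fun p hp => Fp_per a1 a2 p (hQ p hp).1 (hQ p hp).2)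
  have h3 : ∏ p ∈ Q, ∑ x ∈ range p, Fp a1 a2 p x ≤ ∏ p ∈ Q, ((p : ℝ) * (1 - 1 / (4 * p))) := by
    apply Finset.prod_le_prod
    · intro p hp
      exact sum_nonneg fun x _ => (Fp_nonneg ld a1 a2 ha p x (hQ p hp).1 (hQ p hp).2).1
    · intro p hp
      exact Fp_sum ld a1 a2 ha p (hQ p hp).1 (hQ p hp).2
  rw [prod_mul_distrib] at h3
  have h4 : (∏ p ∈ Q, (p : ℝ)) = M := by
    rw [hM]
    push_cast
    rfl
  rw [h4] at h3 ⊢
  rw [← hM] at h2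
  have h5 := (abs_le.1 h1).2
  rw [h2] at h5
  have h6 : (T : ℝ) / M * ∏ p ∈ Q, ∑ x ∈ range p, Fp a1 a2 p x ≤
      T * ∏ p ∈ Q, (1 - 1 / (4 * (p : ℝ))) := by
    calc (T : ℝ) / M * ∏ p ∈ Q, ∑ x ∈ range p, Fp a1 a2 p x ≤
          (T : ℝ) / M * (M * ∏ p ∈ Q, (1 - 1 / (4 * (p : ℝ)))) := by gcongr
      _ = _ := by field_simp
  linarith

end Pool.Agent.Y346.PA
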