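import Pool.Agent.Y346.PA.H1a

set_option autoImplicit false

/-!
# Project PA: task H1, the count for one form
-/

namespace Pool.Agent.Y346.PA

open Finset Filter Topology
open Pool.Agent.H951R4.OD (PI)
open scoped Classical

/-- the integers with parameters which pass the sieve -/
def Sx (t C : ℕ) (Q : Finset ℕ) (a1 a2 : ℤ) (X : ℕ) : Set ℕ :=
  {n : ℕ | 1 ≤ n ∧ n ≤ X ∧ ∃ (x : ℕ) (y r s : ℤ), 1 ≤ x ∧ (x : ℤ) * s + y * r = 1 ∧
    (a1 * (x : ℤ) ^ 2 + a2 * y ^ 2) + (a1 * r ^ 2 + a2 * s ^ 2) = 4 * n + 2 ∧ |y| ≤ 2 * x ∧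
    (x : ℤ) ^ 2 ≤ 400 * n ∧ r ^ 2 ≤ 400 * n ∧
    ∀ p : ℕ, p.Prime → C < p → p ^ C ≤ x → ¬ p ∣ x * t → (p % 12 = 1 ∨ p ∈ Q) →
      ¬ hit1 a1 a2 x p y r}

theorem h1_large (c : ℝ) (hc : 0 < c) : ∃ X0 : ℕ, ∀ X : ℕ, X0 ≤ X →
    300 * (X : ℝ) ^ (3 / 4 : ℝ) ≤ c * X / Real.log X := by
  have h1 : Tendsto (fun X : ℕ => Real.log (X : ℝ) / (X : ℝ) ^ (1 / 4 : ℝ)) atTop (𝓝 0) :=
    ((isLittleO_log_rpow_atTop (by norm_num : (0 : ℝ) < 1 / 4)).tendsto_div_nhds_zero).comp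
      tendsto_natCast_atTop_atTop
  have h2 := (h1.eventually (gt_mem_nhds (show 0 < c / 300 by positivity)))
  obtain ⟨N, hN⟩ := eventually_atTop.1 h2
  refine ⟨max N 2, fun X hX => ?_⟩
  have h3 := hN X (le_trans (le_max_left _ _) hX)
  have hX2 : (2 : ℝ) ≤ X := by exact_mod_cast le_trans (le_max_right _ _) hX
  have hX0 : (0 : ℝ) < X := by linarith
  have hlog : 0 < Real.log X := Real.log_pos (by linarith)
  have hp : (0 : ℝ) < (X : ℝ) ^ (1 / 4 : ℝ) := by positivity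
  rw [div_lt_iff₀ hp] at h3
  rw [le_div_iff₀ hlog]
  have h4 : (X : ℝ) = (X : ℝ) ^ (3 / 4 : ℝ) * (X : ℝ) ^ (1 / 4 : ℝ) := by
    rw [← Real.rpow_add hX0]
    norm_num
  calc 300 * (X : ℝ) ^ (3 / 4 : ℝ) * Real.log X ≤
        300 * (X : ℝ) ^ (3 / 4 : ℝ) * (c / 300 * (X : ℝ) ^ (1 / 4 : ℝ)) := by gcongr
    _ = c * ((X : ℝ) ^ (3 / 4 : ℝ) * (X : ℝ) ^ (1 / 4 : ℝ)) := by ring
    _ = c * X := by rw [← h4]

theorem h1_count (ks : S_KS) (ld1 : S_LD1) (ld5 : S_LD5) (sx : S_SX) (mm : S_MM) (t : ℕ)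
    (ht : 1 ≤ t) : ∃ (C : ℕ) (K : ℝ), 4 ≤ C ∧ 0 < K ∧ ∀ Q : Finset ℕ,
      (∀ p ∈ Q, p.Prime ∧ C < p ∧ p % 12 = 5 ∧ ¬ p ∣ t) →
      ∀ a1 a2 : ℤ, ((a1 = 1 ∧ a2 = -3) ∨ (a1 = 3 ∧ a2 = -1)) → ∃ X0 : ℕ, ∀ X : ℕ, X0 ≤ X →
        ((Sx t C Q a1 a2 X).ncard : ℝ) ≤
          K * Real.sqrt (∏ p ∈ Q, (1 - 1 / (4 * (p : ℝ)))) * X / Real.log X := by
  obtain ⟨C8, hC8, hsx⟩ := sx
  obtain ⟨Cm, hCm, hmm⟩ := mm
  obtain ⟨C, K0, hC4, hK, hG⟩ := lemG ks 1 (by norm_num) (fun p => p % 12 = 1)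
    ⟨Cm, fun y z hy hz => by
      rw [one_mul]
      convert (hmm y z hy hz).1⟩ t ht
  refine ⟨C, 3200 * K0 * Real.sqrt (3 * C8) + 1, hC4, by positivity, ?_⟩
  intro Q hQ a1 a2 ha
  obtain ⟨x0, hG⟩ := hG Q (fun p hp => ⟨(hQ p hp).1, (hQ p hp).2.1, by
    have := (hQ p hp).2.2.1
    omega, (hQ p hp).2.2.2⟩)
  have hQ' : ∀ p ∈ Q, p.Prime ∧ p % 12 = 5 := fun p hp => ⟨(hQ p hp).1, (hQ p hp).2.2.1⟩
  set Pi0 : ℝ := ∏ p ∈ Q, (1 - 1 / (4 * (p : ℝ))) with hPi0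
  have hPi00 : 0 < Pi0 := by
    apply prod_pos
    intro p hp
    have h1 : (2 : ℝ) ≤ p := by exact_mod_cast (hQ p hp).1.two_le
    have h2 : 1 / (4 * (p : ℝ)) ≤ 1 / (4 * 2) := by gcongr
    linarith
  have hsPi0 : 0 < Real.sqrt Pi0 := Real.sqrt_pos.2 hPi00
  obtain ⟨X1, hX1⟩ := h1_large (Real.sqrt Pi0) hsPi0
  set P : ℝ := ∏ p ∈ Q, (p : ℝ) with hP
  have hP0 : 0 < P := prod_pos fun p hp => by exact_mod_cast (hQ p hp).1.pos
  obtain ⟨T0, hT0⟩ := exists_nat_ge (2 * P / Pi0)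
  refine ⟨max (max X1 (x0 ^ 8)) (max (T0 ^ 2) 3), ?_⟩
  intro X hX
  have hXX1 : X1 ≤ X := le_trans (le_max_left _ _) (le_trans (le_max_left _ _) hX)
  have hXx0 : x0 ^ 8 ≤ X := le_trans (le_max_right _ _) (le_trans (le_max_left _ _) hX)
  have hXT0 : T0 ^ 2 ≤ X := le_trans (le_max_left _ _) (le_trans (le_max_right _ _) hX)
  have hX3 : 3 ≤ X := le_trans (le_max_right _ _) (le_trans (le_max_right _ _) hX)
  have hX3r : (3 : ℝ) ≤ X := by exact_mod_cast hX3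
  have hX0 : (0 : ℝ) < X := by linarith
  have hlogX : 0 < Real.log X := Real.log_pos (by linarith)
  have hlarge := hX1 X hXX1
  set T : ℕ := Nat.sqrt (400 * X) with hT
  have hT2 : T ^ 2 ≤ 400 * X := Nat.sqrt_le' _
  have hT1 : 1 ≤ T := by
    rw [hT, Nat.le_sqrt']
    omega
  have hTT0 : T0 ≤ T := by
    rw [hT, Nat.le_sqrt']
    omega
  have hT2r : (T : ℝ) ^ 2 ≤ 400 * X := by exact_mod_cast hT2
  have hT1r : (1 : ℝ) ≤ T := by exact_mod_cast hT1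
  set F : ℕ → Finset (ℤ × ℤ) := fun x =>
    (Icc (-2 * (x : ℤ)) (2 * x) ×ˢ Icc (-(T : ℤ)) T).filter (fun u : ℤ × ℤ =>
          (x : ℤ) ∣ u.1 * u.2 - 1 ∧ ∀ p : ℕ, p.Prime → C < p → p ^ C ≤ x → ¬ p ∣ x * t →
            (p % 12 = 1 ∨ p ∈ Q) → ¬ hit1 a1 a2 x p u.1 u.2) with hF
  have hcard : (Sx t C Q a1 a2 X).ncard ≤ ∑ x ∈ Icc 1 T, (F x).card := by
    apply ncard_le_sum _ (Icc 1 T) F
      (fun x u => ((((x : ℤ) ^ 2 * (a1 * (x : ℤ) ^ 2 + a2 * u.1 ^ 2 + a1 * u.2 ^ 2) +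
        a2 * (1 - u.1 * u.2) ^ 2) / (x : ℤ) ^ 2 - 2) / 4).toNat)
    rintro n ⟨hn1, hnX, x, y, r, s, hx, hdet, hsum, hy, hx2, hr2, hsv⟩
    have hys := abs_le.1 hy
    have hx400 : x ^ 2 ≤ 400 * X := by
      have h1 : x ^ 2 ≤ 400 * n := by exact_mod_cast hx2
      omega
    have hrT : |r| ≤ T := by
      have h1 : r.natAbs ≤ T := by
        rw [hT, Nat.le_sqrt']
        have h2 : ((r.natAbs ^ 2 : ℕ) : ℤ) ≤ ((400 * X : ℕ) : ℤ) := by
          push_cast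
          rw [sq_abs]
          have : (n : ℤ) ≤ X := by exact_mod_cast hnX
          linarith
        exact_mod_cast h2
      rw [Int.abs_eq_natAbs]
      exact_mod_cast h1
    have hrs := abs_le.1 hrT
    refine ⟨x, ?_, (y, r), ?_, ?_⟩
    · rw [mem_Icc]
      exact ⟨hx, by rw [hT, Nat.le_sqrt']; exact hx400⟩
    · rw [hF]
      simp only
      rw [mem_filter, mem_product, mem_Icc, mem_Icc]
      exact ⟨⟨⟨by linarith [hys.1], hys.2⟩, ⟨hrs.1, hrs.2⟩⟩, ⟨-s, by linarith⟩, hsv⟩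
    · simp only
      have h1 : 1 - y * r = x * s := by linarith
      have h2 : (x : ℤ) ^ 2 * (a1 * (x : ℤ) ^ 2 + a2 * y ^ 2 + a1 * r ^ 2) +
          a2 * (1 - y * r) ^ 2 = x ^ 2 * (4 * n + 2) := by
        rw [h1, ← hsum]
        ring
      have h3 : (0 : ℤ) < (x : ℤ) ^ 2 := by positivity
      rw [h2, Int.mul_ediv_cancel_left _ h3.ne']
      omega
  -- the small x
  have hsmall : ∑ x ∈ (Icc 1 T).filter (fun x => x ^ 8 ≤ X), ((F x).card : ℝ) ≤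
      300 * (X : ℝ) ^ (3 / 4 : ℝ) := by
    set w : ℕ := ⌊(X : ℝ) ^ (1 / 8 : ℝ)⌋₊ with hw
    have hw1 : (w : ℝ) ≤ (X : ℝ) ^ (1 / 8 : ℝ) := Nat.floor_le (by positivity)
    have hmem : ∀ x ∈ (Icc 1 T).filter (fun x => x ^ 8 ≤ X), 1 ≤ x ∧ x ≤ w := by
      intro x hx
      rw [mem_filter, mem_Icc] at hx
      refine ⟨hx.1.1, Nat.le_floor ?_⟩
      have h1 : ((x : ℝ) ^ 8) ≤ X := by exact_mod_cast hx.2
      have h2 : ((x : ℝ) ^ 8) ^ (1 / 8 : ℝ) ≤ (X : ℝ) ^ (1 / 8 : ℝ) := by gcongr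
      have h3 : ((x : ℝ) ^ 8) ^ (1 / 8 : ℝ) = x := by
        rw [← Real.rpow_natCast, ← Real.rpow_mul (by positivity)]
        norm_num
      linarith
    have hT20 : (T : ℝ) ≤ 20 * (X : ℝ) ^ (1 / 2 : ℝ) := by
      rw [← Real.sqrt_eq_rpow]
      have h1 : (T : ℝ) ≤ Real.sqrt (400 * X) := Real.le_sqrt_of_sq_le hT2r
      have h2 : Real.sqrt (400 * (X : ℝ)) = 20 * Real.sqrt X := by
        rw [Real.sqrt_mul (by norm_num), show (400 : ℝ) = 20 ^ 2 by norm_num,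
          Real.sqrt_sq (by norm_num)]
      linarith
    have h1 : ∀ x ∈ (Icc 1 T).filter (fun x => x ^ 8 ≤ X), ((F x).card : ℝ) ≤ 15 * w * T := by
      intro x hx
      obtain ⟨hx1, hxw⟩ := hmem x hx
      have h2 : (F x).card ≤ (4 * x + 1) * (2 * T + 1) := by
        rw [hF]
        simp only
        refine le_trans (card_filter_le _ _) ?_
        rw [card_product, Int.card_Icc, Int.card_Icc]
        apply Nat.mul_le_mul
        · omega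
        · omega
      have h3 : (4 * x + 1) * (2 * T + 1) ≤ 15 * w * T := by
        calc (4 * x + 1) * (2 * T + 1) ≤ (5 * w) * (3 * T) :=
              Nat.mul_le_mul (by omega) (by omega)
          _ = 15 * w * T := by ring
      exact_mod_cast le_trans h2 h3
    have h2 : ((Icc 1 T).filter (fun x => x ^ 8 ≤ X)).card ≤ w := by
      have : (Icc 1 T).filter (fun x => x ^ 8 ≤ X) ⊆ Icc 1 w := fun x hx => mem_Icc.2 (hmem x hx)
      simpa using card_le_card this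
    calc ∑ x ∈ (Icc 1 T).filter (fun x => x ^ 8 ≤ X), ((F x).card : ℝ)
        ≤ ∑ x ∈ (Icc 1 T).filter (fun x => x ^ 8 ≤ X), (15 * w * T : ℝ) := sum_le_sum h1
      _ = ((Icc 1 T).filter (fun x => x ^ 8 ≤ X)).card * (15 * w * T : ℝ) := by
          rw [sum_const, nsmul_eq_mul]
      _ ≤ w * (15 * w * T : ℝ) := by gcongr
      _ ≤ (X : ℝ) ^ (1 / 8 : ℝ) * (15 * (X : ℝ) ^ (1 / 8 : ℝ) * (20 * (X : ℝ) ^ (1 / 2 : ℝ))) := by
          gcongr
      _ = 300 * ((X : ℝ) ^ (1 / 8 : ℝ) * (X : ℝ) ^ (1 / 8 : ℝ) * (X : ℝ) ^ (1 / 2 : ℝ)) := by ring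
      _ = 300 * (X : ℝ) ^ (3 / 4 : ℝ) := by
          rw [← Real.rpow_add hX0, ← Real.rpow_add hX0]
          norm_num
  -- the large x
  set f : ℕ → ℝ := fun x => ∏ p ∈ Q, Fp a1 a2 p x with hf
  have hf01 : ∀ x, 0 ≤ f x ∧ f x ≤ 1 := by
    intro x
    exact ⟨prod_nonneg fun p hp => (Fp_nonneg ld5 a1 a2 ha p x (hQ' p hp).1 (hQ' p hp).2).1,
      prod_le_one (fun p hp => (Fp_nonneg ld5 a1 a2 ha p x (hQ' p hp).1 (hQ' p hp).2).1)
      (fun p hp => (Fp_nonneg ld5 a1 a2 ha p x (hQ' p hp).1 (hQ' p hp).2).2)⟩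
  have hbig : ∀ x ∈ (Icc 1 T).filter (fun x => ¬ x ^ 8 ≤ X), ((F x).card : ℝ) ≤
      8 * K0 * T / Real.log X * (((x : ℝ) / x.totient) ^ 4 * f x) := by
    intro x hx
    rw [mem_filter, mem_Icc] at hx
    obtain ⟨⟨hx1, hxT⟩, hx8⟩ := hx
    push Not at hx8
    have hx0 : x0 ≤ x := by
      by_contra hc
      push Not at hc
      have : x ^ 8 ≤ x0 ^ 8 := Nat.pow_le_pow_left hc.le 8
      omega
    have h1 := hG x T (hit1 a1 a2 x) hx0 hxT (fun p _ y r k l => hit1_per a1 a2 x p y r k l) (by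
      intro p hp _ h3 hpx
      exact gg1 ld1 a1 a2 ha x p hp h3 (fun h => hpx (h.mul_right t))) (by
      intro p hp hpx
      exact gg5 ld5 a1 a2 ha x p (hQ' p hp).1 (hQ' p hp).2 hpx)
    rw [prod_Fp] at h1
    have hlogx : Real.log X ≤ 8 * Real.log x := by
      have h2 : (X : ℝ) ≤ (x : ℝ) ^ 8 := by exact_mod_cast hx8.le
      have h4 := Real.log_le_log hX0 h2
      rw [Real.log_pow] at h4
      exact_mod_cast h4
    have hlx : (Real.log x) ^ (-(1 : ℝ)) ≤ 8 / Real.log X := by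
      rw [Real.rpow_neg_one, inv_eq_one_div, div_le_div_iff₀ (by linarith) hlogX]
      linarith
    have hphi : (0 : ℝ) ≤ (x : ℝ) / x.totient := by positivity
    calc ((F x).card : ℝ) ≤ K0 * T * (Real.log x) ^ (-(1 : ℝ)) * ((x : ℝ) / x.totient) ^ 4 *
          ∏ p ∈ Q, Fp a1 a2 p x := h1
      _ ≤ K0 * T * (8 / Real.log X) * ((x : ℝ) / x.totient) ^ 4 *
          ∏ p ∈ Q, Fp a1 a2 p x := by
          have := (hf01 x).1
          rw [hf] at this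
          simp only at this
          gcongr
      _ = _ := by
          rw [hf]
          ring
  have hCS : ∑ x ∈ Icc 1 T, ((x : ℝ) / x.totient) ^ 4 * f x ≤ T * Real.sqrt (3 * C8 * Pi0) := by
    have h1 := sum_mul_sq_le_sq_mul_sq (Icc 1 T) (fun x : ℕ => ((x : ℝ) / x.totient) ^ 4) f
    have h2 : ∑ x ∈ Icc 1 T, (((x : ℝ) / x.totient) ^ 4) ^ 2 ≤ C8 * T := by
      refine le_trans (le_of_eq ?_) (hsx T)
      apply sum_congr rfl
      intro x _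
      rw [← pow_mul]
    have h3 : ∑ x ∈ Icc 1 T, f x ^ 2 ≤ 3 * T * Pi0 := by
      have h4 : ∑ x ∈ Icc 1 T, f x ^ 2 ≤ ∑ x ∈ range (T + 1), f x := by
        refine le_trans (sum_le_sum (g := f) fun x _ => ?_) ?_
        · obtain ⟨h5, h6⟩ := hf01 x
          nlinarith
        · apply sum_le_sum_of_subset_of_nonneg
          · intro x hx
            rw [mem_Icc] at hx
            rw [mem_range]
            omega
          · intro x _ _
            exact (hf01 x).1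
      have h5 := Fp_avg ld5 a1 a2 ha Q hQ' (T + 1)
      rw [← hPi0, ← hP] at h5
      have h6 : 2 * P ≤ T * Pi0 := by
        have h7 : 2 * P / Pi0 ≤ T := le_trans hT0 (by exact_mod_cast hTT0)
        rwa [div_le_iff₀ hPi00] at h7
      have h8 : ((T + 1 : ℕ) : ℝ) * Pi0 ≤ 2 * T * Pi0 := by
        push_cast
        gcongr
        linarith
      linarith
    have h4 : (∑ x ∈ Icc 1 T, ((x : ℝ) / x.totient) ^ 4 * f x) ^ 2 ≤
        (T * Real.sqrt (3 * C8 * Pi0)) ^ 2 := by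
      rw [mul_pow, Real.sq_sqrt (by positivity)]
      calc _ ≤ _ := h1
        _ ≤ (C8 * T) * (3 * T * Pi0) := by
          apply mul_le_mul h2 h3 (sum_nonneg fun _ _ => sq_nonneg _) (by positivity)
        _ = _ := by ring
    exact le_of_sq_le_sq_aux h4 (by positivity)
  have hsumbig : ∑ x ∈ (Icc 1 T).filter (fun x => ¬ x ^ 8 ≤ X), ((F x).card : ℝ) ≤
      3200 * K0 * Real.sqrt (3 * C8) * Real.sqrt Pi0 * X / Real.log X := by
    calc ∑ x ∈ (Icc 1 T).filter (fun x => ¬ x ^ 8 ≤ X), ((F x).card : ℝ)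
        ≤ ∑ x ∈ (Icc 1 T).filter (fun x => ¬ x ^ 8 ≤ X),
          8 * K0 * T / Real.log X * (((x : ℝ) / x.totient) ^ 4 * f x) := sum_le_sum hbig
      _ ≤ ∑ x ∈ Icc 1 T, 8 * K0 * T / Real.log X * (((x : ℝ) / x.totient) ^ 4 * f x) := by
          apply sum_le_sum_of_subset_of_nonneg (filter_subset _ _)
          intro x _ _
          have := (hf01 x).1
          positivity
      _ = 8 * K0 * T / Real.log X * ∑ x ∈ Icc 1 T, ((x : ℝ) / x.totient) ^ 4 * f x := by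
          rw [mul_sum]
      _ ≤ 8 * K0 * T / Real.log X * (T * Real.sqrt (3 * C8 * Pi0)) := by gcongr
      _ = 8 * K0 * (T : ℝ) ^ 2 * Real.sqrt (3 * C8) * Real.sqrt Pi0 / Real.log X := by
          rw [Real.sqrt_mul (by positivity)]
          ring
      _ ≤ 8 * K0 * (400 * X) * Real.sqrt (3 * C8) * Real.sqrt Pi0 / Real.log X := by gcongr
      _ = _ := by ring
  calc ((Sx t C Q a1 a2 X).ncard : ℝ) ≤ ∑ x ∈ Icc 1 T, ((F x).card : ℝ) := by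
        exact_mod_cast hcard
    _ = ∑ x ∈ (Icc 1 T).filter (fun x => x ^ 8 ≤ X), ((F x).card : ℝ) +
        ∑ x ∈ (Icc 1 T).filter (fun x => ¬ x ^ 8 ≤ X), ((F x).card : ℝ) :=
        (sum_filter_add_sum_filter_not _ _ _).symm
    _ ≤ Real.sqrt Pi0 * X / Real.log X +
        3200 * K0 * Real.sqrt (3 * C8) * Real.sqrt Pi0 * X / Real.log X := by
        linarith
    _ = _ := by ring

end Pool.Agent.Y346.PA
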