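import Pool.Agent.Y346.PA.G

set_option autoImplicit false

/-!
# Project PA: task H2, one dyadic block
-/

namespace Pool.Agent.Y346.PA

open Finset Filter Topology
open Pool.Agent.H951R4.OD (PI)
open scoped Classical

theorem card_range_zmod (p : ℕ) [Fact p.Prime] (F : ZMod p × ZMod p → Prop) (h : ℤ → ℤ → Prop)
    (hF : ∀ y r : ℤ, h y r ↔ F (y, r)) :
    ((range p ×ˢ range p).filter (fun t : ℕ × ℕ => h t.1 t.2)).card = (univ.filter F).card := by
  apply card_bij (fun t _ => ((t.1 : ZMod p), (t.2 : ZMod p)))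
  · intro t ht
    rw [mem_filter] at ht
    rw [mem_filter]
    refine ⟨mem_univ _, ?_⟩
    have := (hF t.1 t.2).1 ht.2
    push_cast at this
    exact this
  · intro t ht t' ht' hh
    rw [mem_filter, mem_product, mem_range, mem_range] at ht ht'
    rw [Prod.mk.injEq] at hh
    have h1 := congrArg ZMod.val hh.1
    have h2 := congrArg ZMod.val hh.2
    rw [ZMod.val_natCast_of_lt ht.1.1, ZMod.val_natCast_of_lt ht'.1.1] at h1
    rw [ZMod.val_natCast_of_lt ht.1.2, ZMod.val_natCast_of_lt ht'.1.2] at h2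
    exact Prod.ext h1 h2
  · intro z hz
    rw [mem_filter] at hz
    refine ⟨(z.1.val, z.2.val), ?_, ?_⟩
    · rw [mem_filter, mem_product, mem_range, mem_range]
      refine ⟨⟨ZMod.val_lt _, ZMod.val_lt _⟩, ?_⟩
      rw [hF]
      push_cast
      rw [ZMod.natCast_zmod_val, ZMod.natCast_zmod_val]
      exact hz.2
    · ext <;> simp

theorem ncard_le_sum (D : Set ℕ) (I : Finset ℕ) (F : ℕ → Finset (ℤ × ℤ)) (g : ℕ → ℤ × ℤ → ℕ)
    (h : ∀ n ∈ D, ∃ x ∈ I, ∃ u ∈ F x, g x u = n) : D.ncard ≤ ∑ x ∈ I, (F x).card := by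
  have h1 : D ⊆ ↑((I.sigma F).image (fun t => g t.1 t.2)) := by
    intro n hn
    obtain ⟨x, hx, u, hu, hg⟩ := h n hn
    rw [mem_coe, mem_image]
    exact ⟨⟨x, u⟩, mem_sigma.2 ⟨hx, hu⟩, hg⟩
  calc D.ncard ≤ (((I.sigma F).image (fun t => g t.1 t.2) : Finset ℕ) : Set ℕ).ncard :=
        Set.ncard_le_ncard h1 (finite_toSet _)
    _ = ((I.sigma F).image (fun t => g t.1 t.2)).card := Set.ncard_coe_finset _
    _ ≤ (I.sigma F).card := card_image_le
    _ = _ := card_sigma _ _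

/-- the sieve condition for factorisations -/
def hit2 (x : ℕ) (p : ℕ) (y r : ℤ) : Prop :=
  (p : ℤ) ∣ ((x : ℤ) ^ 2 + x * y + y ^ 2) *
    ((x * r) ^ 2 + (x * r) * (y * r - 1) + (y * r - 1) ^ 2)

theorem hit2_per (x p : ℕ) (y r k l : ℤ) : hit2 x p (y + p * k) (r + p * l) ↔ hit2 x p y r := by
  unfold hit2
  rw [← ZMod.intCast_zmod_eq_zero_iff_dvd, ← ZMod.intCast_zmod_eq_zero_iff_dvd]
  push_cast
  rw [ZMod.natCast_self]
  simp only [zero_mul, add_zero]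

theorem gg2 (ld : S_LD2) (x p : ℕ) (hp : p.Prime) (h3 : p % 3 = 1) (hx : ¬ p ∣ x) :
    4 / (p : ℝ) - 16 / (p : ℝ) ^ 2 ≤ gg (hit2 x) p ∧ gg (hit2 x) p ≤ 4 / p := by
  have : Fact p.Prime := ⟨hp⟩
  have hx0 : (x : ZMod p) ≠ 0 := by
    rw [Ne, ZMod.natCast_eq_zero_iff]
    exact hx
  obtain ⟨h1, h2⟩ := ld p h3 (x : ZMod p) hx0
  have hp0 : (0 : ℝ) < p := by exact_mod_cast hp.pos
  have h4 := card_range_zmod p (fun t => ((x : ZMod p) ^ 2 + x * t.1 + t.1 ^ 2) *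
        (t.2 ^ 2 + t.2 * ((t.1 * t.2 - 1) / x) + ((t.1 * t.2 - 1) / x) ^ 2) = 0)
        (hit2 x p) (by
    intro y r
    unfold hit2
    rw [← ZMod.intCast_zmod_eq_zero_iff_dvd]
    push_cast
    have h5 : ((x : ZMod p) * r) ^ 2 + (x * r) * (y * r - 1) + (y * r - 1) ^ 2 =
        x ^ 2 * ((r : ZMod p) ^ 2 + r * ((y * r - 1) / x) + ((y * r - 1) / x) ^ 2) := by
      field_simp
    rw [h5, mul_left_comm]
    constructor
    · intro h
      rcases mul_eq_zero.1 h with h | h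
      · exact absurd h (pow_ne_zero 2 hx0)
      · exact h
    · intro h
      rw [h, mul_zero])
  have h5 : gg (hit2 x) p = ((univ.filter (fun t : ZMod p × ZMod p =>
      ((x : ZMod p) ^ 2 + x * t.1 + t.1 ^ 2) *
        (t.2 ^ 2 + t.2 * ((t.1 * t.2 - 1) / x) + ((t.1 * t.2 - 1) / x) ^ 2) = 0)).card : ℝ) /
          (p : ℝ) ^ 2 := by
    unfold gg
    rw [h4]
    congr!
  set N : ℕ := (univ.filter (fun t : ZMod p × ZMod p =>
      ((x : ZMod p) ^ 2 + x * t.1 + t.1 ^ 2) *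
        (t.2 ^ 2 + t.2 * ((t.1 * t.2 - 1) / x) + ((t.1 * t.2 - 1) / x) ^ 2) = 0)).card with hN
  have h1' : 4 * (p : ℝ) ≤ N + 16 := by exact_mod_cast h1
  have h2' : (N : ℝ) ≤ 4 * p := by exact_mod_cast h2
  rw [h5]
  constructor
  · rw [le_div_iff₀ (by positivity)]
    have : (4 / (p : ℝ) - 16 / (p : ℝ) ^ 2) * (p : ℝ) ^ 2 = 4 * p - 16 := by
      field_simp
    linarith
  · rw [div_le_div_iff₀ (by positivity) hp0]
    have h6 := mul_le_mul_of_nonneg_right h2' hp0.le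
    linarith

theorem le_of_sq_le_sq_aux {a b : ℝ} (h : a ^ 2 ≤ b ^ 2) (hb : 0 ≤ b) : a ≤ b :=
  le_of_abs_le (abs_le_of_sq_le_sq h hb)

/-- one dyadic block -/
def D2 (s M X : ℕ) : Set ℕ := {n : ℕ | 1 ≤ n ∧ n ≤ X ∧ ∃ q1 q2 : ℕ, q1.Prime ∧ q2.Prime ∧
  M < q1 ∧ q1 ≤ 2 * M ∧ q1 ≤ q2 ∧ n ^ 2 + n + 1 = s * (q1 * q2)}

theorem h2_block (ks : S_KS) (th : S_TH2) (ld : S_LD2) (sx : S_SX) (mm : S_MM) (s : ℕ)
    (hs : 1 ≤ s) : ∃ C : ℝ, 0 < C ∧ ∃ M0 : ℕ, ∀ M X : ℕ, M0 ≤ M → M ^ 2 ≤ 3 * X ^ 2 →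
      ((D2 s M X).ncard : ℝ) ≤ C * X * (Real.log M) ^ (-(2 : ℝ)) := by
  obtain ⟨C8, hC8, hsx⟩ := sx
  obtain ⟨Cm, hCm, hmm⟩ := mm
  obtain ⟨C, K, hC4, hK, hG⟩ := lemG ks 2 (by norm_num) (fun p => p % 3 = 1)
    ⟨Cm, fun y z hy hz => by convert (hmm y z hy hz).2.2⟩ s hs
  obtain ⟨x0, hG⟩ := hG ∅ (by simp)
  refine ⟨16 * K * C8 * 23, by positivity, max 49 (7 * x0 ^ 2), ?_⟩
  intro M X hM hMX
  have hM49 : 49 ≤ M := le_trans (le_max_left _ _) hM
  have hMx0 : 7 * x0 ^ 2 ≤ M := le_trans (le_max_right _ _) hM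
  set T : ℕ := Nat.sqrt (8 * M) with hT
  set R : ℕ := Nat.sqrt (64 * X ^ 2 / M) with hR
  set I : Finset ℕ := (Icc 1 T).filter (fun x => M < 7 * x ^ 2) with hI
  set F : ℕ → Finset (ℤ × ℤ) := fun x =>
    (Icc (-2 * (x : ℤ)) (2 * x) ×ˢ Icc (-(R : ℤ)) R).filter (fun u : ℤ × ℤ =>
          (x : ℤ) ∣ u.1 * u.2 - 1 ∧ ∀ p : ℕ, p.Prime → C < p → p ^ C ≤ x → ¬ p ∣ x * s →
            (p % 3 = 1 ∨ p ∈ (∅ : Finset ℕ)) → ¬ hit2 x p u.1 u.2) with hF
  have hT2 : T ^ 2 ≤ 8 * M := Nat.sqrt_le' _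
  have hR2 : R ^ 2 * M ≤ 64 * X ^ 2 := by
    have h1 : R ^ 2 ≤ 64 * X ^ 2 / M := Nat.sqrt_le' _
    calc R ^ 2 * M ≤ 64 * X ^ 2 / M * M := Nat.mul_le_mul_right _ h1
      _ ≤ 64 * X ^ 2 := Nat.div_mul_le_self _ _
  have hle : ∀ a : ℕ, a ^ 2 * M ≤ 64 * X ^ 2 → a ≤ R := by
    intro a ha
    rw [hR, Nat.le_sqrt', Nat.le_div_iff_mul_le (by omega)]
    exact ha
  have hcard : (D2 s M X).ncard ≤ ∑ x ∈ I, (F x).card := by
    apply ncard_le_sum (D2 s M X) I F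
      (fun x u => (((x : ℤ) ^ 2 * u.2 + (x + u.1) * (u.1 * u.2 - 1)) / x).toNat)
    rintro n ⟨hn1, hnX, q1, q2, hq1, hq2, hMq, hqM, hqq, hv⟩
    have hvz : (q1 : ℤ) * (s * q2) = (n : ℤ) ^ 2 + n + 1 := by
      have : ((n ^ 2 + n + 1 : ℕ) : ℤ) = ((s * (q1 * q2) : ℕ) : ℤ) := by rw [hv]
      push_cast at this
      linarith
    obtain ⟨x, y, r, s', hx, hdet, hm1, hm2, hn, hy, hx2, hr2⟩ :=
      th n q1 (s * q2) (by exact_mod_cast hn1) (by exact_mod_cast hq1.pos) hvz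
    obtain ⟨x', rfl⟩ := Int.eq_ofNat_of_zero_le hx.le
    have hx' : 1 ≤ x' := by exact_mod_cast hx
    have hMz : (M : ℤ) < q1 := by exact_mod_cast hMq
    have hqMz : (q1 : ℤ) ≤ 2 * M := by exact_mod_cast hqM
    have hx8 : x' ^ 2 ≤ 8 * M := by
      have : (x' : ℤ) ^ 2 ≤ 8 * M := by linarith
      exact_mod_cast this
    have hys := abs_le.1 hy
    have h7 : M < 7 * x' ^ 2 := by
      have e1 := mul_nonneg (sub_nonneg.2 hys.2) (by linarith [hys.1] : 0 ≤ y + 2 * (x' : ℤ))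
      have e2 := mul_nonneg hx.le (sub_nonneg.2 hys.2)
      have : (M : ℤ) < 7 * (x' : ℤ) ^ 2 := by linarith
      exact_mod_cast this
    have hvX : (n : ℤ) ^ 2 + n + 1 ≤ 3 * (X : ℤ) ^ 2 := by
      have h1 : (n : ℤ) ≤ X := by exact_mod_cast hnX
      have h2 : (1 : ℤ) ≤ X := by exact_mod_cast le_trans hn1 hnX
      have e1 : (n : ℤ) ^ 2 ≤ (X : ℤ) ^ 2 := pow_le_pow_left₀ (by positivity) h1 2
      have e2 := mul_le_mul_of_nonneg_right h2 (by linarith : (0 : ℤ) ≤ X)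
      have e3 := mul_le_mul_of_nonneg_right h2 (by norm_num : (0 : ℤ) ≤ 1)
      linarith
    have hrR : |r| ≤ R := by
      have h1 : r.natAbs ≤ R := by
        apply hle
        have h2 : ((r.natAbs ^ 2 * M : ℕ) : ℤ) ≤ ((64 * X ^ 2 : ℕ) : ℤ) := by
          push_cast
          rw [sq_abs]
          have h3 : (0 : ℤ) ≤ s * q2 := by positivity
          have h4 : r ^ 2 * (M : ℤ) ≤ (4 * (s * q2)) * q1 := by
            exact mul_le_mul hr2 hMz.le (by positivity) (by positivity)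
          have h5 : (4 * ((s : ℤ) * q2)) * q1 = 4 * ((n : ℤ) ^ 2 + n + 1) := by
            rw [← hvz]
            ring
          have h6 : (0 : ℤ) ≤ (X : ℤ) ^ 2 := by positivity
          linarith
        exact_mod_cast h2
      rw [Int.abs_eq_natAbs]
      exact_mod_cast h1
    have hrs := abs_le.1 hrR
    refine ⟨x', ?_, (y, r), ?_, ?_⟩
    · rw [hI, mem_filter, mem_Icc]
      exact ⟨⟨hx', by rw [hT, Nat.le_sqrt']; exact hx8⟩, h7⟩
    · rw [hF]
      simp only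
      rw [mem_filter, mem_product, mem_Icc, mem_Icc]
      refine ⟨⟨⟨by linarith [hys.1], hys.2⟩, ⟨hrs.1, hrs.2⟩⟩, ⟨s', by linarith⟩, ?_⟩
      intro p hp hCp hpx hpxs _ hh
      have hyr : y * r - 1 = x' * s' := by linarith
      unfold hit2 at hh
      simp only at hh
      have h9 : ((x' : ℤ) ^ 2 + x' * y + y ^ 2) *
          ((x' * r) ^ 2 + (x' * r) * (y * r - 1) + (y * r - 1) ^ 2) =
          ((x' * x' * s * (q1 * q2) : ℕ) : ℤ) := by
        rw [hyr, hm1]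
        push_cast
        have : ((x' : ℤ) * r) ^ 2 + x' * r * (x' * s') + (x' * s') ^ 2 = x' ^ 2 * (s * q2) := by
          rw [← hm2]
          ring
        rw [this]
        ring
      rw [h9, Int.natCast_dvd_natCast] at hh
      have hpx1 : p ≤ x' := le_trans (Nat.le_self_pow (by omega) p) hpx
      have hbig : ∀ q : ℕ, q.Prime → q1 ≤ q → ¬ p ∣ q := by
        intro q hq hqq' hpq
        have h10 : p = q := (Nat.prime_dvd_prime_iff_eq hp hq).1 hpq
        have h11 : M < x' := by omega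
        have h12 : 8 ≤ x' := by omega
        have h13 := Nat.mul_le_mul_right x' h12
        have h14 : x' ^ 2 = x' * x' := pow_two x'
        omega
      rcases (hp.dvd_mul).1 hh with h | h
      · apply hpxs
        rcases (hp.dvd_mul).1 h with h | h
        · rcases (hp.dvd_mul).1 h with h | h
          · exact h.mul_right s
          · exact h.mul_right s
        · exact h.mul_left x'
      · rcases (hp.dvd_mul).1 h with h | h
        · exact hbig q1 hq1 le_rfl h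
        · exact hbig q2 hq2 hqq h
    · simp only
      have h12 : (x' : ℤ) ^ 2 * r + (x' + y) * (y * r - 1) = x' * n := by
        have hyr : y * r - 1 = x' * s' := by linarith
        rw [hyr, hn]
        ring
      rw [h12, Int.mul_ediv_cancel_left _ (by positivity)]
      simp
  have hlogM : 0 < Real.log M := by
    apply Real.log_pos
    have : (49 : ℝ) ≤ M := by exact_mod_cast hM49
    linarith
  have hFx : ∀ x ∈ I, ((F x).card : ℝ) ≤
      16 * K * R * (Real.log M) ^ (-(2 : ℝ)) * ((x : ℝ) / x.totient) ^ 8 := by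
    intro x hx
    rw [hI, mem_filter, mem_Icc] at hx
    obtain ⟨⟨hx1, hxT⟩, hx7⟩ := hx
    have hx0' : x0 ≤ x := by
      by_contra hc
      push Not at hc
      have : x ^ 2 ≤ x0 ^ 2 := Nat.pow_le_pow_left hc.le 2
      omega
    have hx8 : x ^ 2 ≤ 8 * M := le_trans (Nat.pow_le_pow_left hxT 2) hT2
    have hxR : x ≤ R := by
      apply hle
      nlinarith
    have h1 := hG x R (hit2 x) hx0' hxR (fun p _ y r k l => hit2_per x p y r k l) (by
      intro p hp _ h3 hpx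
      exact gg2 ld x p hp h3 (fun h => hpx (h.mul_right s))) (by simp)
    have hlogx : Real.log M ≤ 4 * Real.log x := by
      have h2 : (M : ℝ) ≤ (x : ℝ) ^ 4 := by
        have h3 : M ≤ x ^ 4 := by nlinarith
        exact_mod_cast h3
      have h4 := Real.log_le_log (by positivity) h2
      rw [Real.log_pow] at h4
      exact_mod_cast h4
    have hlx : (Real.log x) ^ (-(2 : ℝ)) ≤ 16 * (Real.log M) ^ (-(2 : ℝ)) := by
      have h5 : (Real.log x) ^ (-(2 : ℝ)) ≤ (Real.log M / 4) ^ (-(2 : ℝ)) := by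
        apply Real.rpow_le_rpow_of_nonpos (by positivity) (by linarith) (by norm_num)
      have h6 : (Real.log M / 4) ^ (-(2 : ℝ)) = 16 * (Real.log M) ^ (-(2 : ℝ)) := by
        rw [Real.rpow_neg (by positivity), Real.rpow_neg hlogM.le]
        norm_num
        rw [div_pow]
        field_simp
        norm_num
      linarith
    have hphi : (1 : ℝ) ≤ (x : ℝ) / x.totient := by
      rw [one_le_div (by exact_mod_cast Nat.totient_pos.2 (by omega))]
      exact_mod_cast Nat.totient_le x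
    have h8 : ((x : ℝ) / x.totient) ^ 4 ≤ ((x : ℝ) / x.totient) ^ 8 :=
      pow_le_pow_right₀ hphi (by norm_num)
    calc ((F x).card : ℝ) ≤ K * R * (Real.log x) ^ (-(2 : ℝ)) * ((x : ℝ) / x.totient) ^ 4 *
          ∏ p ∈ (∅ : Finset ℕ).filter (fun p => ¬ p ∣ x), (1 - gg (hit2 x) p) := h1
      _ = K * R * (Real.log x) ^ (-(2 : ℝ)) * ((x : ℝ) / x.totient) ^ 4 := by simp
      _ ≤ K * R * (16 * (Real.log M) ^ (-(2 : ℝ))) * ((x : ℝ) / x.totient) ^ 8 := by gcongr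
      _ = _ := by ring
  have hRT : (R : ℝ) * T ≤ 23 * X := by
    have h1 : R ^ 2 * T ^ 2 ≤ 512 * X ^ 2 := by
      have h2 : R ^ 2 * T ^ 2 ≤ R ^ 2 * (8 * M) := Nat.mul_le_mul_left _ hT2
      linarith
    have h3 : ((R : ℝ) * T) ^ 2 ≤ (23 * X) ^ 2 := by
      have h4 : ((R : ℝ) ^ 2 * (T : ℝ) ^ 2) ≤ 512 * (X : ℝ) ^ 2 := by exact_mod_cast h1
      have h5 : (0 : ℝ) ≤ (X : ℝ) ^ 2 := by positivity
      linarith
    exact le_of_sq_le_sq_aux h3 (by positivity)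
  calc ((D2 s M X).ncard : ℝ) ≤ ∑ x ∈ I, ((F x).card : ℝ) := by exact_mod_cast hcard
    _ ≤ ∑ x ∈ I, 16 * K * R * (Real.log M) ^ (-(2 : ℝ)) * ((x : ℝ) / x.totient) ^ 8 :=
        sum_le_sum hFx
    _ ≤ ∑ x ∈ Icc 1 T, 16 * K * R * (Real.log M) ^ (-(2 : ℝ)) * ((x : ℝ) / x.totient) ^ 8 := by
        apply sum_le_sum_of_subset_of_nonneg (filter_subset _ _)
        intro x _ _
        positivity
    _ = 16 * K * R * (Real.log M) ^ (-(2 : ℝ)) * ∑ x ∈ Icc 1 T, ((x : ℝ) / x.totient) ^ 8 := by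
        rw [mul_sum]
    _ ≤ 16 * K * R * (Real.log M) ^ (-(2 : ℝ)) * (C8 * T) := by
        gcongr
        exact hsx T
    _ = 16 * K * C8 * (Real.log M) ^ (-(2 : ℝ)) * (R * T) := by ring
    _ ≤ 16 * K * C8 * (Real.log M) ^ (-(2 : ℝ)) * (23 * X) := by gcongr
    _ = _ := by ring

end Pool.Agent.Y346.PA
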