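import Pool.Agent.TH43.LK.Count

/-!
# Project PA, task KL: points of a modular hyperbola on two arithmetic progressions
-/

set_option autoImplicit false

namespace Pool.Agent.Y346.PA

open Finset Pool.Agent.H442R2.KF.TaskB Pool.Agent.W305.CY Pool.Agent.TH43.LK

/-- the number of points -/
noncomputable def NA (q : ℕ) (d s₀ t₀ : ZMod q) (S T : ℕ) : ℕ := by
  classical
  exact ((range S ×ˢ range T).filter (fun ij : ℕ × ℕ =>
    (s₀ + d * (ij.1 : ZMod q)) * (t₀ + d * (ij.2 : ZMod q)) = 1)).card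

/-- the coefficient bound -/
noncomputable def WW (q : ℕ) (w h : ZMod q) : ℝ :=
  ∑ e ∈ q.divisors, if (e ∣ w.val ∧ e ∣ h.val) then Real.sqrt e else 0

theorem WW_nonneg (q : ℕ) (w h : ZMod q) : 0 ≤ WW q w h := by
  unfold WW
  apply sum_nonneg
  intro e _
  split_ifs
  · exact Real.sqrt_nonneg _
  · exact le_rfl

theorem NA_sub (q : ℕ) [NeZero q] (M : ℝ) (hM0 : 0 ≤ M)
    (hM : ∀ w h : ZMod q, ‖Kl q w h‖ ≤ M * WW q w h) (d s₀ t₀ : ZMod q) (S T : ℕ) :
    |(q : ℝ) ^ 2 * (NA q d s₀ t₀ S T : ℝ) - q.totient * S * T| ≤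
      ∑ w : ZMod q, ∑ h : ZMod q, M * WW q w h * (Gs q S (w * d) * Gs q T (h * d)) -
        M * WW q 0 0 * (S * T) := by
  classical
  have hq0 : (q : ℂ) ≠ 0 := by exact_mod_cast NeZero.ne q
  -- the complex count
  set D : ZMod q → ℂ := fun z => ∑ w : ZMod q, (ZMod.stdAddChar (w * z) : ℂ) with hD
  have hDv : ∀ z : ZMod q, D z = if z = 0 then (q : ℂ) else 0 := by
    intro z
    have := AddChar.sum_mulShift (ψ := (ZMod.stdAddChar : AddChar (ZMod q) ℂ)) z
      (ZMod.isPrimitive_stdAddChar q)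
    rw [hD]
    simp only
    rw [this, ZMod.card]
    split_ifs <;> simp
  set sv : ℕ → ZMod q := fun i => s₀ + d * (i : ZMod q) with hsv
  set tv : ℕ → ZMod q := fun j => t₀ + d * (j : ZMod q) with htv
  set Z : ℂ := ∑ i ∈ range S, ∑ j ∈ range T, ∑ u : (ZMod q)ˣ,
    D ((u : ZMod q) - sv i) * D (((u⁻¹ : (ZMod q)ˣ) : ZMod q) - tv j) with hZ
  -- `Z` is `q ^ 2 * N`
  have hpt : ∀ i j : ℕ, ∑ u : (ZMod q)ˣ,
      D ((u : ZMod q) - sv i) * D (((u⁻¹ : (ZMod q)ˣ) : ZMod q) - tv j) =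
      if sv i * tv j = 1 then (q : ℂ) ^ 2 else 0 := by
    intro i j
    have h1 : ∀ u : (ZMod q)ˣ,
        D ((u : ZMod q) - sv i) * D (((u⁻¹ : (ZMod q)ˣ) : ZMod q) - tv j) =
        if ((u : ZMod q) = sv i ∧ ((u⁻¹ : (ZMod q)ˣ) : ZMod q) = tv j) then (q : ℂ) ^ 2 else 0 := by
      intro u
      rw [hDv, hDv]
      simp only [sub_eq_zero]
      by_cases ha : (u : ZMod q) = sv i
      · by_cases hb : ((u⁻¹ : (ZMod q)ˣ) : ZMod q) = tv j
        · rw [if_pos ha, if_pos hb, if_pos ⟨ha, hb⟩]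
          ring
        · rw [if_pos ha, if_neg hb, if_neg (fun h => hb h.2), mul_zero]
      · rw [if_neg ha, zero_mul, if_neg (fun h => ha h.1)]
    rw [Finset.sum_congr rfl (fun u _ => h1 u)]
    by_cases h : sv i * tv j = 1
    · rw [if_pos h]
      have h' : tv j * sv i = 1 := by rw [mul_comm]; exact h
      set u₀ : (ZMod q)ˣ := ⟨sv i, tv j, h, h'⟩ with hu₀
      rw [Finset.sum_eq_single u₀]
      · rw [if_pos]
        exact ⟨rfl, rfl⟩
      · intro u _ hu
        rw [if_neg]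
        rintro ⟨h2, -⟩
        exact hu (Units.ext h2)
      · intro h2
        exact absurd (mem_univ _) h2
    · rw [if_neg h]
      apply Finset.sum_eq_zero
      intro u _
      rw [if_neg]
      rintro ⟨h2, h3⟩
      apply h
      rw [← h2, ← h3]
      exact u.mul_inv
  have hZN : Z = (q : ℂ) ^ 2 * (NA q d s₀ t₀ S T : ℂ) := by
    rw [hZ]
    simp only [hpt]
    rw [← Finset.sum_product', ← Finset.sum_filter, Finset.sum_const, nsmul_eq_mul, mul_comm]
    unfold NA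
    congr!
  -- expansion
  have hexp : Z = ∑ w : ZMod q, ∑ h : ZMod q, Kl q w h *
      ((∑ i ∈ range S, (ZMod.stdAddChar (-(w * sv i)) : ℂ)) *
        (∑ j ∈ range T, (ZMod.stdAddChar (-(h * tv j)) : ℂ))) := by
    have h1 : ∀ i j : ℕ, ∀ u : (ZMod q)ˣ,
        D ((u : ZMod q) - sv i) * D (((u⁻¹ : (ZMod q)ˣ) : ZMod q) - tv j) =
        ∑ w : ZMod q, ∑ h : ZMod q,
          (ZMod.stdAddChar (w * (u : ZMod q) + h * ((u⁻¹ : (ZMod q)ˣ) : ZMod q)) : ℂ) *
          ((ZMod.stdAddChar (-(w * sv i)) : ℂ) * (ZMod.stdAddChar (-(h * tv j)) : ℂ)) := by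
      intro i j u
      rw [hD]
      simp only
      rw [Finset.sum_mul_sum]
      refine Finset.sum_congr rfl fun w _ => Finset.sum_congr rfl fun h _ => ?_
      rw [← AddChar.map_add_eq_mul, ← AddChar.map_add_eq_mul, ← AddChar.map_add_eq_mul]
      congr 1
      ring
    rw [hZ]
    simp only [h1]
    -- move the sums over w, h outside
    calc ∑ i ∈ range S, ∑ j ∈ range T, ∑ u : (ZMod q)ˣ, ∑ w : ZMod q, ∑ h : ZMod q,
          (ZMod.stdAddChar (w * (u : ZMod q) + h * ((u⁻¹ : (ZMod q)ˣ) : ZMod q)) : ℂ) *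
          ((ZMod.stdAddChar (-(w * sv i)) : ℂ) * (ZMod.stdAddChar (-(h * tv j)) : ℂ))
        = ∑ i ∈ range S, ∑ j ∈ range T, ∑ w : ZMod q, ∑ h : ZMod q, Kl q w h *
          ((ZMod.stdAddChar (-(w * sv i)) : ℂ) * (ZMod.stdAddChar (-(h * tv j)) : ℂ)) := by
          refine Finset.sum_congr rfl fun i _ => Finset.sum_congr rfl fun j _ => ?_
          rw [Finset.sum_comm]
          refine Finset.sum_congr rfl fun w _ => ?_
          rw [Finset.sum_comm]
          refine Finset.sum_congr rfl fun h _ => ?_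
          unfold Kl
          rw [Finset.sum_mul]
      _ = ∑ i ∈ range S, ∑ w : ZMod q, ∑ j ∈ range T, ∑ h : ZMod q, Kl q w h *
          ((ZMod.stdAddChar (-(w * sv i)) : ℂ) * (ZMod.stdAddChar (-(h * tv j)) : ℂ)) := by
          refine Finset.sum_congr rfl fun i _ => ?_
          rw [Finset.sum_comm]
      _ = ∑ w : ZMod q, ∑ i ∈ range S, ∑ j ∈ range T, ∑ h : ZMod q, Kl q w h *
          ((ZMod.stdAddChar (-(w * sv i)) : ℂ) * (ZMod.stdAddChar (-(h * tv j)) : ℂ)) := by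
          rw [Finset.sum_comm]
      _ = ∑ w : ZMod q, ∑ h : ZMod q, ∑ i ∈ range S, ∑ j ∈ range T, Kl q w h *
          ((ZMod.stdAddChar (-(w * sv i)) : ℂ) * (ZMod.stdAddChar (-(h * tv j)) : ℂ)) := by
          refine Finset.sum_congr rfl fun w _ => ?_
          rw [Finset.sum_comm' (s := (univ : Finset (ZMod q))) (t := fun _ => range S)
            (t' := range S) (s' := fun _ => univ) (by simp)]
          refine Finset.sum_congr rfl fun i _ => ?_
          rw [Finset.sum_comm]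
      _ = _ := by
          refine Finset.sum_congr rfl fun w _ => Finset.sum_congr rfl fun h _ => ?_
          rw [Finset.sum_mul_sum, Finset.mul_sum]
          refine Finset.sum_congr rfl fun i _ => ?_
          rw [Finset.mul_sum]
  have hgen : ∀ (S : ℕ) (s₀ w : ZMod q),
      ‖∑ i ∈ range S, (ZMod.stdAddChar (-(w * (s₀ + d * (i : ZMod q)))) : ℂ)‖ =
        Gs q S (w * d) := by
    intro S s₀ w
    rw [← Gs_neg]
    unfold Gs
    have h1 : ∑ i ∈ range S, (ZMod.stdAddChar (-(w * (s₀ + d * (i : ZMod q)))) : ℂ) =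
        (ZMod.stdAddChar (-(w * (s₀ : ZMod q))) : ℂ) *
          ∑ i ∈ range S, (ZMod.stdAddChar (-(w * d) * (i : ZMod q)) : ℂ) := by
      rw [Finset.mul_sum]
      refine Finset.sum_congr rfl fun i _ => ?_
      rw [← AddChar.map_add_eq_mul]
      congr 1
      ring
    rw [h1, norm_mul, AddChar.norm_apply, one_mul]
  have hs : ∀ w : ZMod q, ‖∑ i ∈ range S, (ZMod.stdAddChar (-(w * sv i)) : ℂ)‖ =
      Gs q S (w * d) := fun w => hgen S s₀ w
  have ht : ∀ h : ZMod q, ‖∑ j ∈ range T, (ZMod.stdAddChar (-(h * tv j)) : ℂ)‖ =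
      Gs q T (h * d) := fun h => hgen T t₀ h
  -- the term at the origin
  set f : ZMod q → ZMod q → ℂ := fun w h => Kl q w h *
      ((∑ i ∈ range S, (ZMod.stdAddChar (-(w * sv i)) : ℂ)) *
        (∑ j ∈ range T, (ZMod.stdAddChar (-(h * tv j)) : ℂ))) with hf
  set g : ZMod q → ZMod q → ℝ := fun w h => M * WW q w h * (Gs q S (w * d) * Gs q T (h * d))
    with hg
  have hfg : ∀ w h, ‖f w h‖ ≤ g w h := by
    intro w h
    rw [hf, hg]
    simp only
    rw [norm_mul, norm_mul, hs, ht]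
    exact mul_le_mul_of_nonneg_right (hM w h) (mul_nonneg (Gs_nonneg _ _ _) (Gs_nonneg _ _ _))
  have hf00 : f 0 0 = (q.totient : ℂ) * S * T := by
    rw [hf]
    simp only [Kl, zero_mul, neg_zero, AddChar.map_zero_eq_one, sum_const, card_range,
      add_zero, card_univ, nsmul_eq_mul, mul_one]
    rw [ZMod.card_units_eq_totient]
    ring
  have hg00 : g 0 0 = M * WW q 0 0 * (S * T) := by
    rw [hg]
    simp only [Gs, zero_mul, AddChar.map_zero_eq_one, sum_const, card_range, nsmul_eq_mul,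
      mul_one, Complex.norm_natCast]
  have hsplit : ∀ {R : Type} [AddCommGroup R] (F : ZMod q → ZMod q → R),
      ∑ w : ZMod q, ∑ h : ZMod q, F w h - F 0 0 =
        ∑ p ∈ (univ : Finset (ZMod q × ZMod q)).erase (0, 0), F p.1 p.2 := by
    intro R _ F
    rw [← Finset.sum_product', Finset.univ_product_univ,
      ← Finset.add_sum_erase _ _ (mem_univ ((0 : ZMod q), (0 : ZMod q)))]
    simp
  have hmain : (q : ℂ) ^ 2 * (NA q d s₀ t₀ S T : ℂ) - (q.totient : ℂ) * S * T =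
      ∑ p ∈ (univ : Finset (ZMod q × ZMod q)).erase (0, 0), f p.1 p.2 := by
    rw [← hsplit, ← hf00, ← hZN, hexp]
  have hnorm : ‖(q : ℂ) ^ 2 * (NA q d s₀ t₀ S T : ℂ) - (q.totient : ℂ) * S * T‖ =
      |(q : ℝ) ^ 2 * (NA q d s₀ t₀ S T : ℝ) - q.totient * S * T| := by
    rw [← Real.norm_eq_abs, ← Complex.norm_real]
    congr 1
    push_cast
    ring
  rw [← hnorm, hmain, ← hg00, hsplit g]
  exact (norm_sum_le _ _).trans (Finset.sum_le_sum fun p _ => hfg p.1 p.2)

end Pool.Agent.Y346.PA
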