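import Pool.Agent.Y346.PA.KSa
import Pool.Agent.H20R2.EN.FLem

/-!
# Project PA, task KS
-/

set_option autoImplicit false

namespace Pool.Agent.Y346.PA

open Finset
open scoped Classical

theorem exp_neg_two_le {u : ℝ} (h0 : 0 ≤ u) (h1 : u ≤ 1 / 2) : Real.exp (-(2 * u)) ≤ 1 - u := by
  rw [Real.exp_neg]
  have h2 := Real.quadratic_le_exp_of_nonneg (x := 2 * u) (by linarith)
  rw [inv_le_comm₀ (Real.exp_pos _) (by linarith)]
  refine le_trans ?_ h2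
  rw [inv_le_iff_one_le_mul₀ (by linarith)]
  nlinarith [mul_nonneg h0 h0, mul_nonneg (mul_nonneg h0 h0) h0]

/-- a crude lower bound for the product -/
theorem prod_lower (κ C : ℕ) (hC1 : 1 ≤ C) (hC : 8 * κ ≤ C) (P : Finset ℕ) (g : ℕ → ℝ) (x : ℕ)
    (hx : 1 ≤ x) (hP : ∀ p ∈ P, p.Prime ∧ C < p ∧ p ^ C ≤ x) (hg : ∀ p ∈ P, g p ≤ κ / p) :
    (x : ℝ) ^ (-(1 / 4) : ℝ) ≤ Real.exp (2 * κ) * ∏ p ∈ P, (1 - g p) := by
  have hx0 : (0 : ℝ) < x := by exact_mod_cast hx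
  have hx1 : (1 : ℝ) ≤ x := by exact_mod_cast hx
  have hlog : 0 ≤ Real.log x := Real.log_nonneg hx1
  have hCr : (1 : ℝ) ≤ C := by exact_mod_cast hC1
  have hκC : 8 * (κ : ℝ) ≤ C := by exact_mod_cast hC
  have hκ0 : (0 : ℝ) ≤ κ := Nat.cast_nonneg _
  have h1 : Real.exp (-(2 * κ * ∑ p ∈ P, 1 / (p : ℝ))) ≤ ∏ p ∈ P, (1 - g p) := by
    rw [mul_sum, ← sum_neg_distrib, Real.exp_sum]
    apply Finset.prod_le_prod (fun p _ => (Real.exp_pos _).le)
    intro p hp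
    have hp0 : (C : ℝ) < p := by exact_mod_cast (hP p hp).2.1
    have hu : (κ : ℝ) / p ≤ 1 / 2 := by
      rw [div_le_div_iff₀ (by linarith) (by norm_num)]
      linarith
    have h2 := exp_neg_two_le (div_nonneg hκ0 (by linarith : (0 : ℝ) ≤ p)) hu
    have h3 : -(2 * (κ : ℝ) * (1 / (p : ℝ))) = -(2 * (κ / p)) := by ring
    rw [h3]
    have h4 := hg p hp
    linarith
  have h2 : ∑ p ∈ P, 1 / (p : ℝ) ≤ 1 + Real.log x / C := by
    rcases P.eq_empty_or_nonempty with rfl | hne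
    · rw [sum_empty]
      positivity
    · obtain ⟨z, hz, hzmax⟩ := P.exists_max_image id hne
      simp only [id] at hzmax
      have hzP := hP z hz
      have h3 : P ⊆ Icc 1 z := by
        intro p hp
        rw [mem_Icc]
        exact ⟨(hP p hp).1.pos, hzmax p hp⟩
      have h4 : ∑ p ∈ P, 1 / (p : ℝ) ≤ 1 + Real.log z := by
        calc ∑ p ∈ P, 1 / (p : ℝ) ≤ ∑ p ∈ Icc 1 z, 1 / (p : ℝ) :=
              sum_le_sum_of_subset_of_nonneg h3 fun _ _ _ => by positivity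
          _ = (harmonic z : ℝ) := by
              rw [harmonic_eq_sum_Icc]
              push_cast
              apply sum_congr rfl
              intro i _
              rw [one_div]
          _ ≤ 1 + Real.log z := harmonic_le_one_add_log z
      have h5 : (C : ℝ) * Real.log z ≤ Real.log x := by
        have hz0 : (0 : ℝ) < z := by exact_mod_cast hzP.1.pos
        have h6 : ((z : ℝ) ^ C) ≤ x := by exact_mod_cast hzP.2.2
        have h7 := Real.log_le_log (by positivity) h6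
        rwa [Real.log_pow] at h7
      have h6 : Real.log z ≤ Real.log x / C := by
        rw [le_div_iff₀ (by linarith)]
        linarith
      linarith
  have h3 : (x : ℝ) ^ (-(1 / 4) : ℝ) = Real.exp (Real.log x * (-(1 / 4))) :=
    Real.rpow_def_of_pos hx0 _
  have h4 : Real.log x * (-(1 / 4)) ≤ 2 * κ + -(2 * κ * ∑ p ∈ P, 1 / (p : ℝ)) := by
    have h5 : 2 * (κ : ℝ) * ∑ p ∈ P, 1 / (p : ℝ) ≤ 2 * κ * (1 + Real.log x / C) := by gcongr
    have h6 : 2 * (κ : ℝ) * (Real.log x / C) ≤ 1 / 4 * Real.log x := by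
      have h7 : 2 * (κ : ℝ) / C ≤ 1 / 4 := by
        rw [div_le_div_iff₀ (by linarith) (by norm_num)]
        linarith
      calc 2 * (κ : ℝ) * (Real.log x / C) = (2 * (κ : ℝ) / C) * Real.log x := by ring
        _ ≤ 1 / 4 * Real.log x := by gcongr
    linarith
  calc (x : ℝ) ^ (-(1 / 4) : ℝ) = Real.exp (Real.log x * (-(1 / 4))) := h3
    _ ≤ Real.exp (2 * κ + -(2 * κ * ∑ p ∈ P, 1 / (p : ℝ))) := Real.exp_le_exp.2 h4
    _ = Real.exp (2 * κ) * Real.exp (-(2 * κ * ∑ p ∈ P, 1 / (p : ℝ))) := Real.exp_add _ _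
    _ ≤ _ := by gcongr

theorem exists_J (C0 C : ℕ) (hC : 64 * C0 ^ 2 ≤ C) (hC2 : 2 ^ (32 * C0 ^ 2) ≤ C) (x : ℕ)
    (hx : C ≤ x) (P : Finset ℕ) (hP : ∀ p ∈ P, p.Prime ∧ p ^ C ≤ x) :
    ∃ J : ℕ, (∀ p ∈ P, p ≤ 2 ^ 2 ^ J) ∧ ((2 ^ 2 ^ J) ^ (C0 * C0)) ^ 32 ≤ x := by
  have hex : ∃ J : ℕ, ∀ p ∈ P, p ≤ 2 ^ 2 ^ J := by
    refine ⟨P.sup id, fun p hp => ?_⟩
    have h1 : p ≤ P.sup id := le_sup (f := id) hp
    have h2 : P.sup id < 2 ^ P.sup id := Nat.lt_two_pow_self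
    have h3 : 2 ^ P.sup id < 2 ^ 2 ^ P.sup id := Nat.lt_two_pow_self
    omega
  refine ⟨Nat.find hex, Nat.find_spec hex, ?_⟩
  set J := Nat.find hex with hJ
  rcases Nat.eq_zero_or_pos J with h0 | hpos
  · rw [h0]
    calc ((2 ^ 2 ^ 0) ^ (C0 * C0)) ^ 32 = 2 ^ (32 * C0 ^ 2) := by
          rw [← pow_mul, ← pow_mul]
          congr 1
          ring
      _ ≤ C := hC2
      _ ≤ x := hx
  · obtain ⟨J', hJ'⟩ := Nat.exists_eq_succ_of_ne_zero hpos.ne'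
    have hlt : J' < Nat.find hex := by omega
    have h1 := Nat.find_min hex hlt
    push Not at h1
    obtain ⟨p, hp, h2⟩ := h1
    rw [hJ']
    have h3 : 1 ≤ p := (hP p hp).1.pos
    calc ((2 ^ 2 ^ (J' + 1)) ^ (C0 * C0)) ^ 32 = (2 ^ 2 ^ J') ^ (64 * C0 ^ 2) := by
          rw [← pow_mul, ← pow_mul, ← pow_mul, pow_succ]
          congr 1
          ring
      _ ≤ p ^ (64 * C0 ^ 2) := Nat.pow_le_pow_left h2.le _
      _ ≤ p ^ C := Nat.pow_le_pow_right h3 hC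
      _ ≤ x := (hP p hp).2

theorem card_small_prod (P : Finset ℕ) (hP : ∀ p ∈ P, p.Prime) (L : ℕ) :
    (P.powerset.filter (fun T : Finset ℕ => ∏ p ∈ T, p ≤ L)).card ≤ L + 1 := by
  rw [← card_range (L + 1)]
  apply card_le_card_of_injOn (fun T => ∏ p ∈ T, p)
  · intro T hT
    rw [mem_coe, mem_filter] at hT
    rw [mem_coe, mem_range]
    exact Nat.lt_succ_of_le hT.2
  · intro T hT T' hT' h
    rw [mem_coe, mem_filter, mem_powerset] at hT hT'
    simp only at h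
    have h1 := Nat.primeFactors_prod (s := T) (fun p hp => hP p (hT.1 hp))
    have h2 := Nat.primeFactors_prod (s := T') (fun p hp => hP p (hT'.1 hp))
    rw [← h1, ← h2, h]

theorem ks (kl : S_KL) : S_KS := by
  intro κ
  obtain ⟨C1, hC1, hkl⟩ := kl (1 / 8) (by norm_num)
  obtain ⟨C0, hC0, hfl⟩ := Pool.Agent.H20R2.fLem κ
  obtain ⟨C2, hC2⟩ := exists_nat_ge (30 + 18 * C1 * Real.exp (2 * κ))
  obtain ⟨C, hCC0, hCC2, hCa, hCb, hCκ⟩ : ∃ C : ℕ, C0 ≤ C ∧ C2 ≤ C ∧ 64 * C0 ^ 2 ≤ C ∧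
      2 ^ (32 * C0 ^ 2) ≤ C ∧ 8 * κ ≤ C := by
    obtain ⟨c2, hc2⟩ : ∃ c2 : ℕ, c2 = 2 ^ (32 * C0 ^ 2) := ⟨_, rfl⟩
    rw [← hc2]
    exact ⟨C0 + 64 * C0 ^ 2 + c2 + 8 * κ + C2, by omega, by omega, by omega, by omega, by omega⟩
  have hC1' : 1 ≤ C := by omega
  refine ⟨C, hC1', ?_⟩
  intro x R hCx hxR P hit hP hper hg
  have hx1 : 1 ≤ x := by omega
  have hx0 : (0 : ℝ) < x := by exact_mod_cast hx1
  have hx1r : (1 : ℝ) ≤ x := by exact_mod_cast hx1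
  have hxRr : (x : ℝ) ≤ R := by exact_mod_cast hxR
  have hR0 : (0 : ℝ) < R := by linarith
  have hPp : ∀ p ∈ P, p.Prime := fun p hp => (hP p hp).1
  obtain ⟨J, hJ1, hJ2⟩ := exists_J C0 C hCa hCb x hCx P
    (fun p hp => ⟨(hP p hp).1, (hP p hp).2.2.1⟩)
  set L : ℕ := (2 ^ 2 ^ J) ^ (C0 * C0) with hL
  have hC00 : 1 ≤ C0 * C0 := Nat.mul_pos hC0 hC0
  have hJL : J + 2 ≤ L := by
    have h1 : J < 2 ^ J := Nat.lt_two_pow_self
    have h2 : 2 ^ J < 2 ^ 2 ^ J := Nat.lt_two_pow_self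
    have h3 : 2 ^ 2 ^ J ≤ L := Nat.le_self_pow (by omega) _
    omega
  have hLr : (0 : ℝ) < L := by
    have : 0 < L := by omega
    exact_mod_cast this
  have hL1 : (1 : ℝ) ≤ L := by
    have : 1 ≤ L := by omega
    exact_mod_cast this
  -- the points
  set a : ℤ := -2 * x - 1 with ha
  set b : ℤ := 2 * x with hb
  set a' : ℤ := -R - 1 with ha'
  set b' : ℤ := (R : ℤ) with hb'
  have hab : a ≤ b := by omega
  have hab' : a' ≤ b' := by omega
  set B : Finset (ℤ × ℤ) := (Ioc a b ×ˢ Ioc a' b').filter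
    (fun t : ℤ × ℤ => (x : ℤ) ∣ t.1 * t.2 - 1) with hB
  set enc : ℤ × ℤ → ℕ := Encodable.encode with henc
  have hinj : Function.Injective enc := Encodable.encode_injective
  set Om : Finset ℕ := B.image enc with hOm
  set hitN : ℕ → ℕ → Prop := fun p m => ∃ t ∈ B, enc t = m ∧ hit p t.1 t.2 with hhitN
  have hiff : ∀ p, ∀ t ∈ B, hitN p (enc t) ↔ hit p t.1 t.2 := by
    intro p t ht
    constructor
    · rintro ⟨t', _, h1, h2⟩
      rw [← hinj h1]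
      exact h2
    · intro h
      exact ⟨t, ht, rfl, h⟩
  have hcards : ∀ (Q1 : ℕ → Prop) (Q2 : ℤ × ℤ → Prop) (_ : DecidablePred Q1)
      (_ : DecidablePred Q2), (∀ t ∈ B, Q1 (enc t) ↔ Q2 t) →
      ((Om.filter Q1).card : ℝ) = ((B.filter Q2).card : ℝ) := by
    intro Q1 Q2 _ _ h
    rw [hOm, filter_image, card_image_of_injective _ hinj]
    congr 2
    apply filter_congr
    intro t ht
    exact h t ht
  set A : ℝ := ((b : ℝ) - a) * ((b' : ℝ) - a') * x.totient / (x : ℝ) ^ 2 with hA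
  have hba : (b : ℝ) - a = 4 * x + 1 := by
    rw [ha, hb]
    push_cast
    ring
  have hba' : (b' : ℝ) - a' = 2 * R + 1 := by
    rw [ha', hb']
    push_cast
    ring
  have hA0 : 0 ≤ A := by
    rw [hA, hba, hba']
    positivity
  set E : ℝ := C1 * (x : ℝ) ^ (1 / 8 : ℝ) *
    (Real.sqrt x + (((b : ℝ) - a) + ((b' : ℝ) - a')) / Real.sqrt x) with hE
  have hE0 : 0 ≤ E := by
    rw [hE, hba, hba']
    positivity
  have hfl' := hfl C0 J C0 P (gg hit) le_rfl le_rfl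
    (fun p hp => ⟨(hP p hp).1, by have := (hP p hp).2.1; omega, hJ1 p hp⟩)
    (by
      intro p hp
      have hp1 : (1 : ℝ) < p := by exact_mod_cast (hP p hp).1.one_lt
      refine ⟨?_, (hg p hp).trans ?_⟩
      · unfold gg
        positivity
      · gcongr
        linarith)
    Om (fun _ => 1) hitN A (fun _ => (L : ℝ) ^ 2 * E) (fun _ _ => zero_le_one) hA0
    (by
      intro T hTP hTL
      have hTp : ∀ p ∈ T, p.Prime := fun p hp => hPp p (hTP hp)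
      rw [sum_const, nsmul_eq_mul, mul_one]
      rw [hcards (fun m => ∀ p ∈ T, hitN p m) (fun t => ∀ p ∈ T, hit p t.1 t.2) _
        (by infer_instance) (fun t ht => forall₂_congr fun p _ => hiff p t ht)]
      have hcc := class_count x hx1 a b a' b' E T hTp hit (fun p hp => hper p (hTP hp)) (by
        intro y0 r0
        have hcop : Nat.Coprime x (∏ p ∈ T, p) := by
          apply Nat.Coprime.prod_right
          intro p hp
          rw [Nat.coprime_comm, (hTp p hp).coprime_iff_not_dvd]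
          exact (hP p (hTP hp)).2.2.2
        have h1 := hkl x (∏ p ∈ T, p) hx1 (prod_pos fun p hp => (hTp p hp).pos) hcop a b a' b'
          y0 r0 hab hab'
        exact h1)
      rw [← hA] at hcc
      have h2 : B.filter (fun t => ∀ p ∈ T, hit p t.1 t.2) =
          (Ioc a b ×ˢ Ioc a' b').filter (fun t : ℤ × ℤ => (x : ℤ) ∣ t.1 * t.2 - 1 ∧
            ∀ p ∈ T, hit p t.1 t.2) := by
        rw [hB, filter_filter]
      rw [h2]
      refine hcc.trans ?_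
      apply mul_le_mul_of_nonneg_right _ hE0
      have h3 : ((∏ p ∈ T, p : ℕ) : ℝ) ≤ L := by exact_mod_cast hTL
      gcongr)
  rw [sum_const, sum_const, nsmul_eq_mul, nsmul_eq_mul, mul_one,
    hcards (fun m => ∀ p ∈ P, ¬ hitN p m) (fun t => ∀ p ∈ P, ¬ hit p t.1 t.2) _
        (by infer_instance) (fun t ht => forall₂_congr fun p _ => not_congr (hiff p t ht))] at hfl'
  have h2 : B.filter (fun t => ∀ p ∈ P, ¬ hit p t.1 t.2) =
      (Icc (-2 * (x : ℤ)) (2 * x) ×ˢ Icc (-(R : ℤ)) R).filter (fun t : ℤ × ℤ =>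
        (x : ℤ) ∣ t.1 * t.2 - 1 ∧ ∀ p ∈ P, ¬ hit p t.1 t.2) := by
    rw [hB, filter_filter]
    congr 1
    ext t
    rw [mem_product, mem_product, mem_Ioc, mem_Ioc, mem_Icc, mem_Icc, ha, ha']
    constructor
    · rintro ⟨⟨h1, h2⟩, ⟨h3, h4⟩⟩
      exact ⟨⟨by linarith, h2⟩, ⟨by linarith, h4⟩⟩
    · rintro ⟨⟨h1, h2⟩, ⟨h3, h4⟩⟩
      exact ⟨⟨by linarith, h2⟩, ⟨by linarith, h4⟩⟩
  rw [h2] at hfl'
  set N : ℝ := (((Icc (-2 * (x : ℤ)) (2 * x) ×ˢ Icc (-(R : ℤ)) R).filter (fun t : ℤ × ℤ =>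
        (x : ℤ) ∣ t.1 * t.2 - 1 ∧ ∀ p ∈ P, ¬ hit p t.1 t.2)).card : ℝ) with hN
  set V : ℝ := ∏ p ∈ P, (1 - gg hit p) with hV
  have hlow := prod_lower κ C hC1' hCκ P (gg hit) x hx1
    (fun p hp => ⟨(hP p hp).1, (hP p hp).2.1, (hP p hp).2.2.1⟩) hg
  rw [← hV] at hlow
  have hV0 : 0 ≤ V := by
    have h3 : 0 ≤ Real.exp (2 * κ) * V := le_trans (by positivity) hlow
    exact nonneg_of_mul_nonneg_right h3 (Real.exp_pos _)
  have h3 := (abs_le.1 hfl').2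
  have hhalf : (1 / 2 : ℝ) ^ C0 ≤ 1 := pow_le_one₀ (by norm_num) (by norm_num)
  -- the error
  have hcard := card_small_prod P hPp L
  have hcardr : ((P.powerset.filter (fun T : Finset ℕ => ∏ p ∈ T, p ≤ L)).card : ℝ) ≤ 2 * L := by
    have h4 : ((P.powerset.filter (fun T : Finset ℕ => ∏ p ∈ T, p ≤ L)).card : ℝ) ≤ L + 1 := by
      exact_mod_cast hcard
    linarith
  have hJLr : (J : ℝ) + 2 ≤ L := by exact_mod_cast hJL
  have hL4 : (L : ℝ) ^ 4 ≤ (x : ℝ) ^ (1 / 8 : ℝ) := by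
    have h4 : ((L : ℝ) ^ 32) ≤ x := by exact_mod_cast hJ2
    have h5 : ((L : ℝ) ^ 32) ^ (1 / 8 : ℝ) ≤ (x : ℝ) ^ (1 / 8 : ℝ) := by gcongr
    have h6 : ((L : ℝ) ^ 32) ^ (1 / 8 : ℝ) = (L : ℝ) ^ 4 := by
      rw [← Real.rpow_natCast, ← Real.rpow_mul hLr.le, ← Real.rpow_natCast]
      norm_num
    linarith
  have hsx : 0 < Real.sqrt x := Real.sqrt_pos.2 hx0
  have hsxx : Real.sqrt x * Real.sqrt x = x := Real.mul_self_sqrt hx0.le
  have hE9 : E ≤ C1 * (x : ℝ) ^ (1 / 8 : ℝ) * (9 * R / Real.sqrt x) := by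
    rw [hE, hba, hba']
    have h5 : Real.sqrt x + (4 * x + 1 + (2 * R + 1)) / Real.sqrt x ≤ 9 * R / Real.sqrt x := by
      have h6 : Real.sqrt x = x / Real.sqrt x := by
        rw [eq_div_iff hsx.ne']
        exact hsxx
      calc Real.sqrt x + (4 * x + 1 + (2 * R + 1)) / Real.sqrt x
          = x / Real.sqrt x + (4 * x + 1 + (2 * R + 1)) / Real.sqrt x := by rw [← h6]
        _ = (5 * x + 2 + 2 * R) / Real.sqrt x := by ring
        _ ≤ 9 * R / Real.sqrt x := by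
          gcongr
          linarith
    have h7 : 0 ≤ C1 * (x : ℝ) ^ (1 / 8 : ℝ) := by positivity
    gcongr
  have herr : ((J : ℝ) + 2) *
      (((P.powerset.filter (fun T : Finset ℕ => ∏ p ∈ T, p ≤ L)).card : ℝ) *
        ((L : ℝ) ^ 2 * E)) ≤ 18 * C1 * R * (x : ℝ) ^ (-(1 / 4) : ℝ) := by
    calc _ ≤ (L : ℝ) * ((2 * L) * ((L : ℝ) ^ 2 *
          (C1 * (x : ℝ) ^ (1 / 8 : ℝ) * (9 * R / Real.sqrt x)))) := by gcongr
      _ = 18 * C1 * R * ((L : ℝ) ^ 4 * (x : ℝ) ^ (1 / 8 : ℝ) / Real.sqrt x) := by ring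
      _ ≤ 18 * C1 * R * ((x : ℝ) ^ (1 / 8 : ℝ) * (x : ℝ) ^ (1 / 8 : ℝ) / Real.sqrt x) := by gcongr
      _ = 18 * C1 * R * (x : ℝ) ^ (-(1 / 4) : ℝ) := by
        congr 1
        rw [Real.sqrt_eq_rpow, ← Real.rpow_add hx0, ← Real.rpow_sub hx0]
        norm_num
  have hA15 : A ≤ 15 * R := by
    rw [hA, hba, hba', div_le_iff₀ (by positivity)]
    have h5 : (x.totient : ℝ) ≤ x := by exact_mod_cast Nat.totient_le x
    calc (4 * (x : ℝ) + 1) * (2 * R + 1) * x.totient ≤ (5 * x) * (3 * R) * x := by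
          gcongr
          · linarith
          · linarith
      _ = 15 * R * (x : ℝ) ^ 2 := by ring
  have hC2' : 30 + 18 * C1 * Real.exp (2 * κ) ≤ C := by
    have : (C2 : ℝ) ≤ C := by exact_mod_cast hCC2
    linarith
  have hN1 : N ≤ A * V + (1 / 2 : ℝ) ^ C0 * (A * V) + 18 * C1 * R * (x : ℝ) ^ (-(1 / 4) : ℝ) := by
    linarith
  have hAV : 0 ≤ A * V := mul_nonneg hA0 hV0
  calc N ≤ A * V + (1 / 2 : ℝ) ^ C0 * (A * V) + 18 * C1 * R * (x : ℝ) ^ (-(1 / 4) : ℝ) := hN1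
    _ ≤ A * V + 1 * (A * V) + 18 * C1 * R * (Real.exp (2 * κ) * V) := by gcongr
    _ = 2 * A * V + 18 * C1 * R * (Real.exp (2 * κ) * V) := by ring
    _ ≤ 2 * (15 * R) * V + 18 * C1 * R * (Real.exp (2 * κ) * V) := by gcongr
    _ = (30 + 18 * C1 * Real.exp (2 * κ)) * R * V := by ring
    _ ≤ C * R * V := by gcongr

end Pool.Agent.Y346.PA
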