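import Pool.Agent.Y346.PA.Stm
import Pool.Agent.Helper403.Sieve

/-!
# Project PA, task KS: the classes
-/

set_option autoImplicit false

namespace Pool.Agent.Y346.PA

open Finset
open scoped Classical

theorem pair_crt (T : Finset ℕ) (hT : ∀ p ∈ T, p.Prime) (hit : ℕ → ℤ → ℤ → Prop)
    (hper : ∀ p ∈ T, ∀ y r k l : ℤ, hit p (y + p * k) (r + p * l) ↔ hit p y r) :
    (((range (∏ p ∈ T, p) ×ˢ range (∏ p ∈ T, p)).filter
      (fun t : ℕ × ℕ => ∀ p ∈ T, hit p t.1 t.2)).card : ℝ) =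
      ∏ p ∈ T, (((range p ×ˢ range p).filter (fun t : ℕ × ℕ => hit p t.1 t.2)).card : ℝ) := by
  set f : ℕ → ℕ → ℕ → ℝ := fun p y r => if hit p (y : ℤ) (r : ℤ) then 1 else 0 with hf
  have hpy : ∀ p ∈ T, ∀ r, Function.Periodic (fun y => f p y r) p := by
    intro p hp r y
    simp only [hf]
    have h1 := hper p hp y r 1 0
    rw [mul_one, mul_zero, add_zero] at h1
    push_cast
    simp only [h1]
  have hpr : ∀ p ∈ T, ∀ y, Function.Periodic (fun r => f p y r) p := by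
    intro p hp y r
    simp only [hf]
    have h1 := hper p hp y r 0 1
    rw [mul_one, mul_zero, add_zero] at h1
    push_cast
    simp only [h1]
  rw [Finset.natCast_card_filter, Finset.sum_product]
  have h1 : ∀ y ∈ range (∏ p ∈ T, p), ∑ r ∈ range (∏ p ∈ T, p),
      (if ∀ p ∈ T, hit p (((y, r) : ℕ × ℕ).1 : ℤ) (((y, r) : ℕ × ℕ).2 : ℤ) then (1 : ℝ) else 0) =
      ∏ p ∈ T, ∑ r ∈ range p, f p y r := by
    intro y _
    rw [← Pool.Agent.Helper403.sum_prod_periodic T hT (fun p r => f p y r)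
      (fun p hp => hpr p hp y)]
    apply sum_congr rfl
    intro r _
    simp only [hf]
    rw [Finset.prod_boole]
  rw [sum_congr rfl h1, Pool.Agent.Helper403.sum_prod_periodic T hT
    (fun p y => ∑ r ∈ range p, f p y r)]
  · apply prod_congr rfl
    intro p _
    rw [Finset.natCast_card_filter, Finset.sum_product]
  · intro p hp y
    apply sum_congr rfl
    intro r _
    exact hpy p hp r y

theorem hit_congr (hit : ℕ → ℤ → ℤ → Prop) (p D : ℕ) (hpD : p ∣ D)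
    (hper : ∀ y r k l : ℤ, hit p (y + p * k) (r + p * l) ↔ hit p y r) (y r y' r' : ℤ)
    (hy : y ≡ y' [ZMOD D]) (hr : r ≡ r' [ZMOD D]) : hit p y r ↔ hit p y' r' := by
  have h1 : (p : ℤ) ∣ y - y' := (Int.natCast_dvd_natCast.2 hpD).trans hy.symm.dvd
  have h2 : (p : ℤ) ∣ r - r' := (Int.natCast_dvd_natCast.2 hpD).trans hr.symm.dvd
  obtain ⟨k, hk⟩ := h1
  obtain ⟨l, hl⟩ := h2
  have h3 : y = y' + p * k := by linarith
  have h4 : r = r' + p * l := by linarith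
  rw [h3, h4]
  exact hper y' r' k l

theorem class_count (x : ℕ) (hx : 1 ≤ x) (a b a' b' : ℤ) (E : ℝ)
    (T : Finset ℕ) (hT : ∀ p ∈ T, p.Prime) (hit : ℕ → ℤ → ℤ → Prop)
    (hper : ∀ p ∈ T, ∀ y r k l : ℤ, hit p (y + p * k) (r + p * l) ↔ hit p y r)
    (hkl : ∀ y0 r0 : ℤ, |(((Ioc a b ×ˢ Ioc a' b').filter (fun t : ℤ × ℤ =>
        t.1 ≡ y0 [ZMOD ((∏ p ∈ T, p : ℕ) : ℤ)] ∧ t.2 ≡ r0 [ZMOD ((∏ p ∈ T, p : ℕ) : ℤ)] ∧
        (x : ℤ) ∣ t.1 * t.2 - 1)).card : ℝ) -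
      ((b : ℝ) - a) * ((b' : ℝ) - a') * x.totient /
        ((x : ℝ) ^ 2 * ((∏ p ∈ T, p : ℕ) : ℝ) ^ 2)| ≤ E) :
    |(((Ioc a b ×ˢ Ioc a' b').filter (fun t : ℤ × ℤ => (x : ℤ) ∣ t.1 * t.2 - 1 ∧
        ∀ p ∈ T, hit p t.1 t.2)).card : ℝ) -
      ((b : ℝ) - a) * ((b' : ℝ) - a') * x.totient / (x : ℝ) ^ 2 * ∏ p ∈ T, gg hit p| ≤
      ((∏ p ∈ T, p : ℕ) : ℝ) ^ 2 * E := by
  have hx0 : (0 : ℝ) < x := by exact_mod_cast hx
  set D : ℕ := ∏ p ∈ T, p with hD
  have hD0 : 0 < D := prod_pos fun p hp => (hT p hp).pos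
  have hDz : (0 : ℤ) < D := by exact_mod_cast hD0
  have hDr : (0 : ℝ) < D := by exact_mod_cast hD0
  set S := (Ioc a b ×ˢ Ioc a' b').filter (fun t : ℤ × ℤ => (x : ℤ) ∣ t.1 * t.2 - 1 ∧
        ∀ p ∈ T, hit p t.1 t.2) with hS
  set R := (range D ×ˢ range D).filter (fun t : ℕ × ℕ => ∀ p ∈ T, hit p t.1 t.2) with hR
  set φ : ℤ × ℤ → ℕ × ℕ := fun t => ((t.1 % D).toNat, (t.2 % D).toNat) with hφ
  have hmod : ∀ y : ℤ, (((y % D).toNat : ℕ) : ℤ) = y % D := fun y =>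
    Int.toNat_of_nonneg (Int.emod_nonneg _ hDz.ne')
  have hmodlt : ∀ y : ℤ, (y % D).toNat < D := by
    intro y
    have h1 := Int.emod_lt_of_pos y hDz
    have h2 := hmod y
    omega
  have hmodeq : ∀ y : ℤ, (((y % D).toNat : ℕ) : ℤ) ≡ y [ZMOD D] := by
    intro y
    rw [hmod]
    exact Int.mod_modEq _ _
  have hmaps : ∀ t ∈ S, φ t ∈ R := by
    intro t ht
    rw [hS, mem_filter] at ht
    rw [hR, mem_filter, mem_product, mem_range, mem_range]
    refine ⟨⟨hmodlt _, hmodlt _⟩, fun p hp => ?_⟩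
    exact (hit_congr hit p D (dvd_prod_of_mem _ hp) (hper p hp) _ _ _ _ (hmodeq t.1)
      (hmodeq t.2)).2 (ht.2.2 p hp)
  have hfib : ∀ c ∈ R, (S.filter (fun t => φ t = c)) =
      (Ioc a b ×ˢ Ioc a' b').filter (fun t : ℤ × ℤ => t.1 ≡ (c.1 : ℤ) [ZMOD (D : ℤ)] ∧
        t.2 ≡ (c.2 : ℤ) [ZMOD (D : ℤ)] ∧ (x : ℤ) ∣ t.1 * t.2 - 1) := by
    intro c hc
    rw [hR, mem_filter, mem_product, mem_range, mem_range] at hc
    obtain ⟨⟨hc1, hc2⟩, hc3⟩ := hc
    ext t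
    rw [mem_filter, hS, mem_filter, mem_filter]
    constructor
    · rintro ⟨⟨h1, h2, h3⟩, h4⟩
      have h5 : (t.1 % D).toNat = c.1 := congrArg Prod.fst h4
      have h6 : (t.2 % D).toNat = c.2 := congrArg Prod.snd h4
      refine ⟨h1, ?_, ?_, h2⟩
      · rw [← h5]
        exact (hmodeq _).symm
      · rw [← h6]
        exact (hmodeq _).symm
    · rintro ⟨h1, h2, h3, h4⟩
      refine ⟨⟨h1, h4, fun p hp => ?_⟩, ?_⟩
      · exact (hit_congr hit p D (dvd_prod_of_mem _ hp) (hper p hp) _ _ _ _ h2 h3).2 (hc3 p hp)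
      · have h5 : (t.1 % D).toNat = c.1 := by
          have h7 : t.1 % D = (c.1 : ℤ) % D := h2
          have h8 : (c.1 : ℤ) % D = c.1 :=
            Int.emod_eq_of_lt (by positivity) (by exact_mod_cast hc1)
          rw [h8] at h7
          rw [h7]
          simp
        have h6 : (t.2 % D).toNat = c.2 := by
          have h7 : t.2 % D = (c.2 : ℤ) % D := h3
          have h8 : (c.2 : ℤ) % D = c.2 :=
            Int.emod_eq_of_lt (by positivity) (by exact_mod_cast hc2)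
          rw [h8] at h7
          rw [h7]
          simp
        rw [hφ]
        simp only
        rw [h5, h6]
  have hcard : (S.card : ℝ) = ∑ c ∈ R, ((S.filter (fun t => φ t = c)).card : ℝ) := by
    exact_mod_cast card_eq_sum_card_fiberwise hmaps
  set m : ℝ := ((b : ℝ) - a) * ((b' : ℝ) - a') * x.totient / ((x : ℝ) ^ 2 * (D : ℝ) ^ 2) with hm
  have hRcard : (R.card : ℝ) = (D : ℝ) ^ 2 * ∏ p ∈ T, gg hit p := by
    rw [hR, hD, pair_crt T hT hit hper]
    push_cast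
    rw [← prod_pow, ← prod_mul_distrib]
    apply prod_congr rfl
    intro p hp
    have hp0 : (0 : ℝ) < p := by exact_mod_cast (hT p hp).pos
    unfold gg
    field_simp
  have hmain : ((b : ℝ) - a) * ((b' : ℝ) - a') * x.totient / (x : ℝ) ^ 2 * ∏ p ∈ T, gg hit p =
      ∑ c ∈ R, m := by
    rw [sum_const, nsmul_eq_mul, hRcard, hm]
    field_simp
  rw [hcard, hmain, ← sum_sub_distrib]
  have h1 : ∀ c ∈ R, |((S.filter (fun t => φ t = c)).card : ℝ) - m| ≤ E := by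
    intro c hc
    have h2 := hkl c.1 c.2
    rw [hfib c hc]
    exact h2
  have hE0 : 0 ≤ E := le_trans (abs_nonneg _) (hkl 0 0)
  calc |∑ c ∈ R, (((S.filter (fun t => φ t = c)).card : ℝ) - m)|
      ≤ ∑ c ∈ R, |((S.filter (fun t => φ t = c)).card : ℝ) - m| := abs_sum_le_sum_abs _ _
    _ ≤ ∑ c ∈ R, E := sum_le_sum h1
    _ = R.card * E := by rw [sum_const, nsmul_eq_mul]
    _ ≤ (D : ℝ) ^ 2 * E := by
      apply mul_le_mul_of_nonneg_right _ hE0
      have h2 : R.card ≤ D * D := by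
        refine le_trans (card_filter_le _ _) ?_
        rw [card_product, card_range]
      have h3 : (R.card : ℝ) ≤ D * D := by exact_mod_cast h2
      nlinarith

end Pool.Agent.Y346.PA
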