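import Pool.Agent.Y346.PA.CIc
import Pool.Agent.Y346.PA.Lim

set_option autoImplicit false

/-!
# Project PA, task R2: exceptional moduli and the sieve for one modulus
-/

namespace Pool.Agent.Y346.PA

open Finset Filter Topology
open Pool.Agent.H951R4.OD (ch PI Ex)
open Pool.Agent.W114.PQ (Dat Ax Pass EP wX datP)
open scoped Classical

/-- exceptional moduli -/
def Exc (Y Q q : ℕ) : Prop := 1 / 2 < |∑ p ∈ PI Y Q, ch (p : ℤ) q / (p : ℝ)|

theorem ch_neg_mul (q p : ℕ) (hp : p % 2 = 1) :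
    ch (-(q : ℤ)) p = ch (-1) p * ch (q : ℤ) p := by
  unfold Pool.Agent.H951R4.OD.ch
  rw [if_pos hp, if_pos hp, if_pos hp]
  have hneg : jacobiSym (-(q : ℤ)) p = jacobiSym (-1) p * jacobiSym q p := by
    rw [← jacobiSym.mul_left]
    congr 1
    ring
  rw [hneg]
  push_cast
  rfl

theorem exc_block (Y Q R : ℕ) (hY : 2 ≤ Y) (hQ : Q ^ 4 ≤ R) :
    (((Ioc R (2 * R)).filter (fun q : ℕ => q.Prime ∧ 2 < q ∧ Exc Y Q q)).card : ℝ) ≤ 16 * R / Y := by
  have h1 := Pool.Agent.W114.PQ.l2 1 (fun _ => 1) le_rfl (fun _ => by norm_num) Y Q R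
    (by omega) hQ
  have h2 := Pool.Agent.W114.PQ.l2 1 (fun p => ch (-1) p) le_rfl (fun p => by
    rcases Pool.Agent.H951R4.OD.ch_val (-1) p with h | h | h <;> rw [h] <;> norm_num) Y Q R
    (by omega) hQ
  have hsub : (Ioc R (2 * R)).filter (fun q : ℕ => q.Prime ∧ 2 < q ∧ Exc Y Q q) ⊆
      ((Ioc R (2 * R)).filter (fun x : ℕ => 1 / 2 < |∑ q ∈ PI Y Q, (fun _ : ℕ => (1 : ℝ)) q *
        ch (x : ℤ) q / q|)) ∪
      ((Ioc R (2 * R)).filter (fun x : ℕ => 1 / 2 < |∑ q ∈ PI Y Q, (fun p : ℕ => ch (-1) p) q *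
        ch (x : ℤ) q / q|)) := by
    intro q hq
    rw [mem_filter] at hq
    obtain ⟨hqI, hqp, hq2, hexc⟩ := hq
    rw [mem_union, mem_filter, mem_filter]
    have hqodd : q % 2 = 1 := by
      rcases hqp.eq_two_or_odd with h | h
      · omega
      · exact h
    unfold Exc at hexc
    by_cases h4 : q % 4 = 1
    · left
      refine ⟨hqI, ?_⟩
      have e : ∑ p ∈ PI Y Q, (fun _ : ℕ => (1 : ℝ)) p * ch (q : ℤ) p / p =
          ∑ p ∈ PI Y Q, ch (p : ℤ) q / (p : ℝ) := by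
        apply sum_congr rfl
        intro p hp
        simp only [PI, mem_filter, mem_Ioc] at hp
        have hp2 : p % 2 = 1 := by
          rcases hp.2.eq_two_or_odd with h | h
          · omega
          · exact h
        rw [ch_flip q p hqodd hp2, if_pos h4, one_mul]
      rw [e]
      exact hexc
    · right
      refine ⟨hqI, ?_⟩
      have e : ∑ p ∈ PI Y Q, (fun p : ℕ => ch (-1) p) p * ch (q : ℤ) p / p =
          ∑ p ∈ PI Y Q, ch (p : ℤ) q / (p : ℝ) := by
        apply sum_congr rfl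
        intro p hp
        simp only [PI, mem_filter, mem_Ioc] at hp
        have hp2 : p % 2 = 1 := by
          rcases hp.2.eq_two_or_odd with h | h
          · omega
          · exact h
        rw [ch_flip q p hqodd hp2, if_neg h4, ch_neg_mul q p hp2]
      rw [e]
      exact hexc
  have h3 := (card_le_card hsub).trans (card_union_le _ _)
  have h4 : (((Ioc R (2 * R)).filter (fun q : ℕ => q.Prime ∧ 2 < q ∧ Exc Y Q q)).card : ℝ) ≤
      (((Ioc R (2 * R)).filter (fun x : ℕ => 1 / 2 < |∑ q ∈ PI Y Q, (fun _ : ℕ => (1 : ℝ)) q *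
        ch (x : ℤ) q / q|)).card : ℝ) +
      (((Ioc R (2 * R)).filter (fun x : ℕ => 1 / 2 < |∑ q ∈ PI Y Q, (fun p : ℕ => ch (-1) p) q *
        ch (x : ℤ) q / q|)).card : ℝ) := by exact_mod_cast h3
  have e1 : (16 : ℝ) * R / Y = 8 * 1 ^ 2 * R / Y + 8 * 1 ^ 2 * R / Y := by ring
  rw [e1]
  exact h4.trans (add_le_add h1 h2)

/-- the sum of `1 / q` over the exceptional moduli -/
theorem exc_sum (Y Q zq X : ℕ) (hY : 2 ≤ Y) (hX : 1 ≤ X) (hQ : 2 * Q ^ 4 ≤ zq) (hz : 2 ≤ zq) :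
    ∑ q ∈ (Ioc zq X).filter (fun q : ℕ => q.Prime ∧ Exc Y Q q), 1 / (q : ℝ) ≤
      (Nat.log 2 X + 1) * (16 / Y) := by
  set E := (Ioc zq X).filter (fun q : ℕ => q.Prime ∧ Exc Y Q q) with hE
  have hmaps : ∀ q ∈ E, Nat.log 2 (q - 1) ∈ range (Nat.log 2 X + 1) := by
    intro q hq
    rw [hE, mem_filter, mem_Ioc] at hq
    rw [mem_range]
    have : Nat.log 2 (q - 1) ≤ Nat.log 2 X := Nat.log_mono_right (by omega)
    omega
  rw [← sum_fiberwise_of_maps_to hmaps]
  have hYr : (0 : ℝ) < Y := by exact_mod_cast (by omega : 0 < Y)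
  have h1 : ∀ k ∈ range (Nat.log 2 X + 1),
      ∑ q ∈ E.filter (fun q => Nat.log 2 (q - 1) = k), 1 / (q : ℝ) ≤ 16 / Y := by
    intro k _
    have hmem : ∀ q ∈ E.filter (fun q => Nat.log 2 (q - 1) = k),
        q ∈ (Ioc (2 ^ k) (2 * 2 ^ k)).filter (fun q : ℕ => q.Prime ∧ 2 < q ∧ Exc Y Q q) ∧
          Q ^ 4 ≤ 2 ^ k := by
      intro q hq
      rw [mem_filter, hE, mem_filter, mem_Ioc] at hq
      obtain ⟨⟨⟨h2, h3⟩, h4, h5⟩, h6⟩ := hq
      have h7 : 2 ^ k ≤ q - 1 := by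
        rw [← h6]
        exact Nat.pow_log_le_self 2 (by omega)
      have h8 : q - 1 < 2 ^ (k + 1) := by
        rw [← h6]
        exact Nat.lt_pow_succ_log_self (by norm_num) _
      rw [pow_succ] at h8
      rw [mem_filter, mem_Ioc]
      refine ⟨⟨⟨by omega, by omega⟩, h4, by omega, h5⟩, by omega⟩
    rcases (E.filter (fun q => Nat.log 2 (q - 1) = k)).eq_empty_or_nonempty with h | h
    · rw [h, sum_empty]
      positivity
    · obtain ⟨q0, hq0⟩ := h
      have hQk := (hmem q0 hq0).2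
      have hb := exc_block Y Q (2 ^ k) hY hQk
      have hcard : ((E.filter (fun q => Nat.log 2 (q - 1) = k)).card : ℝ) ≤
          16 * ((2 ^ k : ℕ) : ℝ) / Y := by
        refine le_trans ?_ hb
        exact_mod_cast card_le_card fun q hq => (hmem q hq).1
      have h2k : (0 : ℝ) < ((2 ^ k : ℕ) : ℝ) := by positivity
      calc ∑ q ∈ E.filter (fun q => Nat.log 2 (q - 1) = k), 1 / (q : ℝ)
          ≤ ∑ q ∈ E.filter (fun q => Nat.log 2 (q - 1) = k), 1 / ((2 ^ k : ℕ) : ℝ) := by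
            apply sum_le_sum
            intro q hq
            have h3 := (hmem q hq).1
            rw [mem_filter, mem_Ioc] at h3
            apply one_div_le_one_div_of_le h2k
            exact_mod_cast h3.1.1.le
        _ = ((E.filter (fun q => Nat.log 2 (q - 1) = k)).card : ℝ) * (1 / ((2 ^ k : ℕ) : ℝ)) := by
            rw [sum_const, nsmul_eq_mul]
        _ ≤ (16 * ((2 ^ k : ℕ) : ℝ) / Y) * (1 / ((2 ^ k : ℕ) : ℝ)) := by gcongr
        _ = 16 / Y := by field_simp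
  calc _ ≤ ∑ k ∈ range (Nat.log 2 X + 1), (16 / Y : ℝ) := sum_le_sum h1
    _ = _ := by
      rw [sum_const, card_range, nsmul_eq_mul]
      push_cast
      rfl

/-- multiples of `q` among the values -/
theorem card_dvd (q X : ℕ) (hq : q.Prime) (h3 : 3 < q) (hqX : q ≤ X) :
    (((Icc 1 X).filter (fun n : ℕ => q ∣ n ^ 2 + n + 1)).card : ℝ) ≤ 4 * X * (1 / q) := by
  have h6 := not_dvd_six q hq h3
  have hq0 : (0 : ℝ) < q := by exact_mod_cast hq.pos
  have h1 : ((Icc 1 X).filter (fun n : ℕ => q ∣ n ^ 2 + n + 1)).card ≤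
      (X / q + 1) * ((range q).filter (fun ν : ℕ => q ∣ (1 * ν) ^ 2 + 1 * ν + 1)).card := by
    rw [← card_range (X / q + 1), ← card_product]
    apply card_le_card_of_injOn (fun n => (n / q, n % q))
    · intro n hn
      rw [mem_coe, mem_filter, mem_Icc] at hn
      rw [mem_coe, mem_product, mem_range, mem_filter, mem_range]
      refine ⟨Nat.lt_succ_of_le (Nat.div_le_div_right hn.1.2), Nat.mod_lt _ hq.pos, ?_⟩
      rw [one_mul]
      apply (Pool.Agent.W613.PQDp.dvd_add_mul q (n % q) (n / q)).1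
      rw [Nat.mod_add_div]
      exact hn.2
    · intro n _ n' _ h
      simp only [Prod.mk.injEq] at h
      have h2 := Nat.mod_add_div n q
      have h3 := Nat.mod_add_div n' q
      rw [h.1, h.2] at h2
      omega
  have h2 := roots_le q 1 hq h6 (by
    intro h
    exact hq.one_lt.ne' (Nat.dvd_one.1 h))
  have h3' : ((Icc 1 X).filter (fun n : ℕ => q ∣ n ^ 2 + n + 1)).card ≤ (X / q + 1) * 2 :=
    h1.trans (Nat.mul_le_mul_left _ h2)
  have h4 : (((Icc 1 X).filter (fun n : ℕ => q ∣ n ^ 2 + n + 1)).card : ℝ) ≤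
      (((X / q : ℕ) : ℝ) + 1) * 2 := by exact_mod_cast h3'
  have h5 : ((X / q : ℕ) : ℝ) ≤ X / q := Nat.cast_div_le
  have h7 : (1 : ℝ) ≤ X / q := by
    rw [le_div_iff₀ hq0, one_mul]
    exact_mod_cast hqX
  have h8 : 4 * (X : ℝ) * (1 / q) = 4 * (X / q) := by ring
  rw [h8]
  linarith

end Pool.Agent.Y346.PA
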