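import Pool.Agent.Y346.PA.R2a

set_option autoImplicit false

/-!
# Project PA, task R2: the sieve for one modulus
-/

namespace Pool.Agent.Y346.PA

open Finset Filter Topology
open Pool.Agent.H951R4.OD (ch PI Ex)
open Pool.Agent.W114.PQ (Dat Ax Pass EP wX datP)
open scoped Classical

/-- the primes tested against `n` -/
def E1 (Y q p : ℕ) : Prop := Y < p ∧ ch (p : ℤ) q = -1

/-- all primes are tested against `n² + n + 1` -/
def E2 (_p : ℕ) : Prop := True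

theorem r2_low : ∃ C : ℝ, 0 ≤ C ∧ ∀ Y Q q : ℕ, 3 ≤ Y → Y ≤ Q → q.Prime → Q < q → ¬ Exc Y Q q →
    3 / 2 * Real.log (Real.log Q) - 1 / 2 * Real.log (Real.log Y) - C ≤
      sg (PI 3 Q) (E1 Y q) E2 := by
  obtain ⟨C1, hC1, h1⟩ := Pool.Agent.H951R4.OD.mert_int
  obtain ⟨Cm, hmert⟩ := axQ'.mert
  have hτ : datQ.τ = 1 := rfl
  have hCm0 : 0 ≤ Cm := le_trans (abs_nonneg _) (hmert 2 2 le_rfl le_rfl)
  refine ⟨C1 + Cm + 2, by linarith, ?_⟩
  intro Y Q q hY hYQ hq hQq hexc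
  have hY3 : (3 : ℝ) ≤ Y := by exact_mod_cast hY
  have hQ3 : (3 : ℝ) ≤ Q := by exact_mod_cast hY.trans hYQ
  have hlY : 0 < Real.log Y := Real.log_pos (by linarith)
  have hlQ : 0 < Real.log Q := Real.log_pos (by linarith)
  have hq2 : q ≠ 2 := by omega
  -- the first sum
  have hm1 := (abs_le.1 (h1 Y Q (by omega) hYQ)).1
  have hex : |∑ p ∈ PI Y Q, ch (p : ℤ) q / (p : ℝ)| ≤ 1 / 2 := not_lt.1 hexc
  have hex2 := (abs_le.1 hex).2
  have hpt : ∀ p ∈ PI Y Q, (if E1 Y q p then 1 / (p : ℝ) else 0) =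
      1 / 2 * (1 / (p : ℝ)) - 1 / 2 * (ch (p : ℤ) q / p) := by
    intro p hp
    simp only [PI, mem_filter, mem_Ioc] at hp
    have hne := Pool.Agent.H951R4.OD.ch_prime_ne_zero p q hp.2 hq hq2 (by omega)
    unfold E1
    rcases Pool.Agent.H951R4.OD.ch_val (p : ℤ) q with h | h | h
    · exact absurd h hne
    · rw [h, if_neg (by norm_num)]
      ring
    · rw [h, if_pos ⟨hp.1.1, rfl⟩]
      ring
  have hs1 : 1 / 2 * (Real.log (Real.log Q) - Real.log (Real.log Y)) - C1 - 1 ≤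
      ∑ p ∈ PI 3 Q, (if E1 Y q p then 1 / (p : ℝ) else 0) := by
    have h2 : ∑ p ∈ PI Y Q, (if E1 Y q p then 1 / (p : ℝ) else 0) ≤
        ∑ p ∈ PI 3 Q, (if E1 Y q p then 1 / (p : ℝ) else 0) := by
      apply sum_le_sum_of_subset_of_nonneg
      · intro p hp
        simp only [PI, mem_filter, mem_Ioc] at hp ⊢
        exact ⟨⟨by omega, hp.1.2⟩, hp.2⟩
      · intro p _ _
        split_ifs
        · positivity
        · exact le_rfl
    refine le_trans ?_ h2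
    rw [sum_congr rfl hpt, sum_sub_distrib, ← mul_sum, ← mul_sum]
    rw [Real.log_div hlQ.ne' hlY.ne'] at hm1
    linarith
  -- the second sum
  have hs2 : Real.log (Real.log Q) - 1 - Cm ≤
      ∑ p ∈ PI 3 Q, (if E2 p then datQ.ρ p / (p : ℝ) else 0) := by
    have e : ∑ p ∈ PI 3 Q, (if E2 p then datQ.ρ p / (p : ℝ) else 0) =
        ∑ p ∈ PI 3 Q, datQ.ρ p / (p : ℝ) := by
      apply sum_congr rfl
      intro p _
      rw [if_pos (show E2 p from trivial)]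
    rw [e]
    have h2 := (abs_le.1 (hmert 3 Q (by norm_num) (by omega))).1
    have hl3 : 0 < Real.log ((3 : ℕ) : ℝ) := Real.log_pos (by norm_num)
    rw [hτ, one_mul, Real.log_div hlQ.ne' hl3.ne'] at h2
    have h3 : Real.log (Real.log ((3 : ℕ) : ℝ)) ≤ 1 := by
      have h4 := Real.log_le_sub_one_of_pos (show (0 : ℝ) < ((3 : ℕ) : ℝ) by norm_num)
      have h5 := Real.log_le_sub_one_of_pos hl3
      norm_num at h4 h5 ⊢
      linarith
    set S0 : ℝ := ∑ p ∈ PI 3 Q, datQ.ρ p / (p : ℝ) with hS0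
    have h9 : Real.log (Real.log Q) - Real.log (Real.log ((3 : ℕ) : ℝ)) - Cm ≤ S0 := by
      linarith only [h2]
    linarith only [h9, h3]
  unfold sg
  linarith

theorem r2_count : ∃ Cs C : ℝ, 1 ≤ Cs ∧ 1 ≤ C ∧ ∀ X Y Q q : ℕ, 3 ≤ Y → Y ≤ Q → Q < q → q.Prime →
    q ≤ X → ¬ Exc Y Q q →
    Cs * Real.log Q * (1 + Real.log (Real.log Q)) ≤ Real.log ((X : ℝ) / q) →
    (({n : ℕ | 1 ≤ n ∧ n ≤ X ∧ Pass datQ n ∧ TT q n ∧ ∀ q' : ℕ, TT q' n → Q < q'}).ncard : ℝ) ≤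
      C * X * (1 / q) * ((Real.log Q) ^ (-(3 / 2) : ℝ) * (Real.log Y) ^ (1 / 2 : ℝ)) := by
  obtain ⟨Cs, hCs, hsieve⟩ := sieve_ap
  obtain ⟨C', hC', hlow⟩ := r2_low
  refine ⟨Cs, 4 * Cs * Real.exp C', hCs, ?_, ?_⟩
  · have h1 : 1 ≤ Real.exp C' := Real.one_le_exp hC'
    nlinarith
  intro X Y Q q hY hYQ hQq hq hqX hexc hlog
  have hY3 : (3 : ℝ) ≤ Y := by exact_mod_cast hY
  have hQ3 : (3 : ℝ) ≤ Q := by exact_mod_cast hY.trans hYQ
  have hlY : 0 < Real.log Y := Real.log_pos (by linarith)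
  have hlQ : 0 < Real.log Q := Real.log_pos (by linarith)
  have h6 : ¬ q ∣ 6 := not_dvd_six q hq (by omega)
  have hl := hlow Y Q q hY hYQ hq hQq hexc
  have hcc := count_classes Cs hCs hsieve
    {n : ℕ | 1 ≤ n ∧ n ≤ X ∧ Pass datQ n ∧ TT q n ∧ ∀ q' : ℕ, TT q' n → Q < q'} X 1 q Q
    (PI 3 Q) (E1 Y q) E2 one_pos hq h6 (by
      intro h
      exact hq.one_lt.ne' (Nat.dvd_one.1 h)) (hY.trans hYQ) (by omega) (by
      rw [one_mul]
      exact hlog) (by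
      intro n hn
      exact ⟨hn.1, hn.2.1, one_dvd n, hn.2.2.2.1.2.2.1⟩) (by
      intro n hn p hp
      simp only [PI, mem_filter, mem_Ioc] at hp
      have hp6 := not_dvd_six p hp.2 hp.1.1
      obtain ⟨hn1, hnX, hpass, hTT, hmin⟩ := hn
      unfold GG
      rw [if_neg]
      rintro (⟨⟨h7, h8⟩, h9, h10⟩ | ⟨-, h7⟩)
      · exact hpass.1 p q ((q - 1) / 2) ⟨hp.2, hp6, h9, h10⟩ hq h6 ⟨hTT.2.2.1, hTT.2.2.2⟩
          ((Pool.Agent.H951R4.OD.ch_eq_neg_one_iff p q hq (by omega)).1 h8)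
      · have := hmin p ⟨hp.2, hp.1.1, h7.1, h7.2⟩
        omega) (by
      intro p hp
      simp only [PI, mem_filter, mem_Ioc] at hp
      refine ⟨hp.2, hp.1.2, not_dvd_six p hp.2 hp.1.1, ?_⟩
      rw [one_mul]
      intro h
      have := (Nat.prime_dvd_prime_iff_eq hp.2 hq).1 h
      omega)
  rw [one_mul] at hcc
  have hexp : Real.exp (-sg (PI 3 Q) (E1 Y q) E2) ≤
      Real.exp C' * ((Real.log Q) ^ (-(3 / 2) : ℝ) * (Real.log Y) ^ (1 / 2 : ℝ)) := by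
    rw [Real.rpow_def_of_pos hlQ, Real.rpow_def_of_pos hlY, ← Real.exp_add, ← Real.exp_add]
    apply Real.exp_le_exp.2
    linarith
  calc _ ≤ 4 * Cs * ((X : ℝ) / q) * Real.exp (-sg (PI 3 Q) (E1 Y q) E2) := hcc
    _ ≤ 4 * Cs * ((X : ℝ) / q) * (Real.exp C' *
        ((Real.log Q) ^ (-(3 / 2) : ℝ) * (Real.log Y) ^ (1 / 2 : ℝ))) := by gcongr
    _ = _ := by ring

end Pool.Agent.Y346.PA
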