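import Pool.Agent.Y346.PA.Stm

set_option autoImplicit false

/-!
# Project PA: the parts of task R1
-/

namespace Pool.Agent.Y346.PA

open Finset Filter Topology
open Pool.Agent.H951R4.OD (ch PI Ex)
open Pool.Agent.W114.PQ (Dat Ax Pass EP wX datP)
open scoped Classical

/-- `log (max t 3)` -/
noncomputable def LL (t : ℕ) : ℝ := Real.log (max t 3 : ℕ)

/-- Task CI: the count for the three smallest exact prime divisors `ps` of `n` and the smallest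
exact prime divisor `q0 > 3` of `n² + n + 1`. -/
def S_CI : Prop := ∃ C : ℝ, 1 ≤ C ∧ ∀ w z X q0 : ℕ, 3 ≤ w → w ≤ z →
  C * Real.log z * (1 + Real.log (Real.log z)) ≤ Real.log X → q0.Prime → 3 < q0 → q0 ≤ z →
  ∀ ps : Finset ℕ, ps.card = 3 → (∀ p ∈ ps, p.Prime ∧ p ≤ w) →
    ({n : ℕ | 1 ≤ n ∧ n ≤ X ∧ Pass datQ n ∧ (∀ p ∈ ps, Ex 6 n p) ∧
      (∀ p : ℕ, Ex 6 n p → p ≤ ps.sup id → p ∈ ps) ∧ TT q0 n ∧ ∀ q : ℕ, TT q n → q0 ≤ q}.ncard : ℝ) ≤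
    C * (X / (q0 * ∏ p ∈ ps, (p : ℝ))) / (LL (ps.sup id) * LL q0) *
      (max (LL (ps.sup id)) (LL q0) / Real.log z) ^ (5 / 4 : ℝ)

end Pool.Agent.Y346.PA
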